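import Mathlib

/-!
# Definitions: decomposable alternating arrays, the pairing, the coordinates of a compensator
-/

set_option autoImplicit false

open Polynomial

namespace Pool.Agent.H53.DP

/-- alternating arrays which satisfy the Plücker relations -/
def Dec {A J : Type} [CommRing A] (x : J → J → A) : Prop :=
  (∀ i, x i i = 0) ∧ (∀ i j, x i j = -x j i) ∧
    ∀ i j k l, x i j * x k l - x i k * x j l + x i l * x j k = 0

/-- the pairing of two rows with an array -/
def pr {A J : Type} [CommRing A] [Fintype J] (y1 y2 : J → A) (x : J → J → A) : A :=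
  ∑ i, ∑ j, y1 i * y2 j * x i j

/-- the coordinates of a compensator -/
def XX {A : Type} [CommRing A] {m : ℕ} (P : Matrix (Fin m) (Fin 2 ⊕ Fin m) A)
    (i j : Fin 2 ⊕ Fin m) : A :=
  (Matrix.fromRows (Matrix.of ![Pi.single i 1, Pi.single j 1]) P).det

theorem dec_wedge {A J : Type} [CommRing A] (u v : J → A) :
    Dec fun i j => u i * v j - u j * v i := by
  refine ⟨fun i => by ring, fun i j => by ring, fun i j k l => by ring⟩

end Pool.Agent.H53.DP
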