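import Mathlib

/-!
# Base: real and complex polynomials, dot products

`cc` real polynomials as complex polynomials, `cj` conjugation of the coefficients,
`cx r s = r + i s`, `dt l u = ∑ l_a u_a`, `Dg n u`: all entries of degree `≤ n`,
`TI q1 q2 u v`: the coefficient vectors `u.coeff q1`, `v.coeff q2` are linearly independent over `ℝ`.
-/

set_option autoImplicit false

open Polynomial

namespace Pool.Agent.H53.DP

/-- real polynomials as complex polynomials -/
noncomputable def cc : ℝ[X] →+* ℂ[X] := mapRingHom Complex.ofRealHom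

/-- conjugation of the coefficients -/
noncomputable def cj : ℂ[X] →+* ℂ[X] := mapRingHom (starRingEnd ℂ)

/-- `r + i s` -/
noncomputable def cx (r s : ℝ[X]) : ℂ[X] := cc r + C Complex.I * cc s

theorem cc_coeff (r : ℝ[X]) (n : ℕ) : (cc r).coeff n = (r.coeff n : ℂ) := by
  simp [cc]

theorem cj_coeff (p : ℂ[X]) (n : ℕ) : (cj p).coeff n = (starRingEnd ℂ) (p.coeff n) := by
  simp [cj]

theorem cx_coeff (r s : ℝ[X]) (n : ℕ) : (cx r s).coeff n = ⟨r.coeff n, s.coeff n⟩ := by
  unfold cx
  rw [coeff_add, coeff_C_mul, cc_coeff, cc_coeff]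
  apply Complex.ext <;> simp

theorem cc_injective : Function.Injective cc := by
  intro a b h
  ext n
  have := congrArg (fun p => p.coeff n) h
  simp only [cc_coeff] at this
  exact_mod_cast this

theorem cc_C (x : ℝ) : cc (C x) = C (x : ℂ) := by
  simp [cc]

theorem cc_X : cc X = X := by
  simp [cc]

theorem cj_C (x : ℂ) : cj (C x) = C ((starRingEnd ℂ) x) := by
  simp [cj]

theorem cj_X : cj X = X := by
  simp [cj]

theorem cj_cj (p : ℂ[X]) : cj (cj p) = p := by
  ext n
  rw [cj_coeff, cj_coeff, Complex.conj_conj]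

theorem cj_cc (r : ℝ[X]) : cj (cc r) = cc r := by
  ext n
  rw [cj_coeff, cc_coeff, Complex.conj_ofReal]

theorem cj_injective : Function.Injective cj := fun a b h => by
  rw [← cj_cj a, h, cj_cj]

theorem cj_cx (r s : ℝ[X]) : cj (cx r s) = cc r - C Complex.I * cc s := by
  unfold cx
  rw [map_add, map_mul, cj_cc, cj_cc, cj_C, Complex.conj_I, C_neg]
  ring

theorem natDegree_cc (r : ℝ[X]) : (cc r).natDegree = r.natDegree :=
  natDegree_map_eq_of_injective Complex.ofReal_injective r

theorem natDegree_cj (p : ℂ[X]) : (cj p).natDegree = p.natDegree :=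
  natDegree_map_eq_of_injective (starRingEnd ℂ).injective p

theorem I_sq : (C Complex.I : ℂ[X]) * C Complex.I = -1 := by
  rw [← C_mul, Complex.I_mul_I, C_neg, C_1]

theorem cx_mul (r s r' s' : ℝ[X]) : cx r s * cx r' s' = cx (r * r' - s * s') (r * s' + s * r') := by
  unfold cx
  simp only [map_add, map_sub, map_mul]
  linear_combination (cc s * cc s') * I_sq

theorem cx_inj {r s r' s' : ℝ[X]} (h : cx r s = cx r' s') : r = r' ∧ s = s' := by
  constructor
  · ext n
    have := congrArg (fun p => (p.coeff n).re) h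
    simpa only [cx_coeff] using this
  · ext n
    have := congrArg (fun p => (p.coeff n).im) h
    simpa only [cx_coeff] using this

/-- every complex polynomial is `r + i s`, with degree bounds -/
theorem exists_cx (p : ℂ[X]) : ∃ r s : ℝ[X], p = cx r s ∧
    ∀ n, p.natDegree ≤ n → r.natDegree ≤ n ∧ s.natDegree ≤ n := by
  let r : ℝ[X] := ∑ i ∈ Finset.range (p.natDegree + 1), C (p.coeff i).re * X ^ i
  let s : ℝ[X] := ∑ i ∈ Finset.range (p.natDegree + 1), C (p.coeff i).im * X ^ i
  have hr : ∀ n, r.coeff n = (p.coeff n).re := by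
    intro n
    simp only [r, finsetSum_coeff, coeff_C_mul, coeff_X_pow, mul_ite, mul_one, mul_zero,
      Finset.sum_ite_eq, Finset.mem_range]
    split_ifs with h
    · rfl
    · rw [coeff_eq_zero_of_natDegree_lt (by omega)]
      simp
  have hs : ∀ n, s.coeff n = (p.coeff n).im := by
    intro n
    simp only [s, finsetSum_coeff, coeff_C_mul, coeff_X_pow, mul_ite, mul_one, mul_zero,
      Finset.sum_ite_eq, Finset.mem_range]
    split_ifs with h
    · rfl
    · rw [coeff_eq_zero_of_natDegree_lt (by omega)]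
      simp
  refine ⟨r, s, ?_, ?_⟩
  · ext n
    rw [cx_coeff, hr, hs]
  · intro n hn
    constructor
    · rw [natDegree_le_iff_coeff_eq_zero]
      intro N hN
      rw [hr, coeff_eq_zero_of_natDegree_lt (by omega)]
      simp
    · rw [natDegree_le_iff_coeff_eq_zero]
      intro N hN
      rw [hs, coeff_eq_zero_of_natDegree_lt (by omega)]
      simp

/-- a polynomial which is its own conjugate is real -/
theorem real_of_cj {p : ℂ[X]} (h : cj p = p) : ∃ r : ℝ[X], p = cc r := by
  obtain ⟨r, s, hp, -⟩ := exists_cx p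
  rw [hp, cj_cx] at h
  have h2 : cx r s = cx r (-s) := by
    rw [← h]
    unfold cx
    rw [map_neg]
    ring
  have h3 := (cx_inj h2).2
  have h4 : s = 0 := by
    have h5 : s + s = 0 := by
      nth_rewrite 1 [h3]
      ring
    have h6 : (2 : ℝ[X]) * s = 0 := by rw [two_mul]; exact h5
    rcases mul_eq_zero.1 h6 with h7 | h7
    · exact absurd h7 two_ne_zero
    · exact h7
  refine ⟨r, ?_⟩
  rw [hp, h4]
  simp [cx]

variable {k : ℕ}

/-- the dot product -/
noncomputable def dt (l u : Fin (k + 1) → ℂ[X]) : ℂ[X] := ∑ a, l a * u a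

/-- all entries of degree at most `n` -/
def Dg (n : ℕ) (u : Fin (k + 1) → ℂ[X]) : Prop := ∀ a, (u a).natDegree ≤ n

/-- the coefficient vectors of degrees `q1`, `q2` are independent over `ℝ` -/
def TI (q1 q2 : ℕ) (u v : Fin (k + 1) → ℂ[X]) : Prop :=
  ∀ x y : ℝ, (∀ a, (x : ℂ) * (u a).coeff q1 + (y : ℂ) * (v a).coeff q2 = 0) → x = 0 ∧ y = 0

theorem dt_add_right (l u v : Fin (k + 1) → ℂ[X]) : dt l (u + v) = dt l u + dt l v := by
  unfold dt
  rw [← Finset.sum_add_distrib]
  exact Finset.sum_congr rfl fun a _ => mul_add _ _ _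

theorem dt_add_left (l m u : Fin (k + 1) → ℂ[X]) : dt (l + m) u = dt l u + dt m u := by
  unfold dt
  rw [← Finset.sum_add_distrib]
  exact Finset.sum_congr rfl fun a _ => add_mul _ _ _

theorem dt_mul_right (l u : Fin (k + 1) → ℂ[X]) (p : ℂ[X]) :
    dt l (fun a => p * u a) = p * dt l u := by
  unfold dt
  rw [Finset.mul_sum]
  exact Finset.sum_congr rfl fun a _ => by ring

theorem dt_natDegree {D n : ℕ} {l u : Fin (k + 1) → ℂ[X]} (hl : Dg D l) (hu : Dg n u) :
    (dt l u).natDegree ≤ D + n :=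
  natDegree_sum_le_of_forall_le _ _ fun a _ => natDegree_mul_le_of_le (hl a) (hu a)

theorem TI.ne_zero_left {q1 q2 : ℕ} {u v : Fin (k + 1) → ℂ[X]} (h : TI q1 q2 u v) :
    ∃ a, (u a).coeff q1 ≠ 0 := by
  by_contra hc
  push Not at hc
  have := (h 1 0 fun a => by rw [hc a]; simp).1
  exact one_ne_zero this

theorem TI.ne_zero_right {q1 q2 : ℕ} {u v : Fin (k + 1) → ℂ[X]} (h : TI q1 q2 u v) :
    ∃ a, (v a).coeff q2 ≠ 0 := by
  by_contra hc
  push Not at hc
  have := (h 0 1 fun a => by rw [hc a]; simp).2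
  exact one_ne_zero this

theorem rsmul (x : ℝ) (p : ℂ[X]) : x • p = C (x : ℂ) * p := by
  ext n
  rw [coeff_smul, coeff_C_mul, Complex.real_smul]

/-- complex arrays as polynomials -/
noncomputable def cp {n : ℕ} : (Fin n → ℂ) →ₗ[ℝ] ℂ[X] where
  toFun c := ∑ i : Fin n, C (c i) * X ^ (i : ℕ)
  map_add' c d := by
    rw [← Finset.sum_add_distrib]
    exact Finset.sum_congr rfl fun i _ => by rw [Pi.add_apply, C_add, add_mul]
  map_smul' x c := by
    rw [RingHom.id_apply, Finset.smul_sum]
    exact Finset.sum_congr rfl fun i _ => by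
      rw [Pi.smul_apply, Complex.real_smul, C_mul, rsmul, mul_assoc]

/-- real arrays as polynomials -/
noncomputable def rp {n : ℕ} : (Fin n → ℝ) →ₗ[ℝ] ℝ[X] where
  toFun c := ∑ i : Fin n, C (c i) * X ^ (i : ℕ)
  map_add' c d := by
    rw [← Finset.sum_add_distrib]
    exact Finset.sum_congr rfl fun i _ => by rw [Pi.add_apply, C_add, add_mul]
  map_smul' x c := by
    rw [RingHom.id_apply, Finset.smul_sum]
    exact Finset.sum_congr rfl fun i _ => by
      rw [Pi.smul_apply, smul_eq_mul, C_mul, smul_eq_C_mul, mul_assoc]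

/-- the first `n` coefficients of a complex polynomial -/
noncomputable def cf (n : ℕ) : ℂ[X] →ₗ[ℝ] (Fin n → ℂ) where
  toFun p i := p.coeff i
  map_add' p q := by
    funext i
    exact coeff_add _ _ _
  map_smul' x p := by
    funext i
    rw [RingHom.id_apply, Pi.smul_apply]
    exact coeff_smul _ _ _

/-- the first `n` coefficients of a real polynomial -/
noncomputable def rf (n : ℕ) : ℝ[X] →ₗ[ℝ] (Fin n → ℝ) where
  toFun p i := p.coeff i
  map_add' p q := by
    funext i
    exact coeff_add _ _ _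
  map_smul' x p := by
    funext i
    rw [RingHom.id_apply, Pi.smul_apply]
    exact coeff_smul _ _ _

theorem cp_apply {n : ℕ} (c : Fin n → ℂ) : cp c = ∑ i : Fin n, C (c i) * X ^ (i : ℕ) := rfl
theorem rp_apply {n : ℕ} (c : Fin n → ℝ) : rp c = ∑ i : Fin n, C (c i) * X ^ (i : ℕ) := rfl
theorem cf_apply {n : ℕ} (p : ℂ[X]) (i : Fin n) : cf n p i = p.coeff i := rfl
theorem rf_apply {n : ℕ} (p : ℝ[X]) (i : Fin n) : rf n p i = p.coeff i := rfl

theorem cp_coeff {n : ℕ} (c : Fin n → ℂ) (i : ℕ) :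
    (cp c).coeff i = if h : i < n then c ⟨i, h⟩ else 0 := by
  rw [cp_apply, finsetSum_coeff]
  simp only [coeff_C_mul, coeff_X_pow, mul_ite, mul_one, mul_zero]
  split_ifs with h
  · rw [Finset.sum_eq_single ⟨i, h⟩]
    · simp
    · intro b _ hb
      rw [if_neg]
      intro h'
      exact hb (Fin.ext h'.symm)
    · intro h'
      exact absurd (Finset.mem_univ _) h'
  · refine Finset.sum_eq_zero fun b _ => if_neg ?_
    intro h'
    exact h (h' ▸ b.2)

theorem rp_coeff {n : ℕ} (c : Fin n → ℝ) (i : ℕ) :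
    (rp c).coeff i = if h : i < n then c ⟨i, h⟩ else 0 := by
  rw [rp_apply, finsetSum_coeff]
  simp only [coeff_C_mul, coeff_X_pow, mul_ite, mul_one, mul_zero]
  split_ifs with h
  · rw [Finset.sum_eq_single ⟨i, h⟩]
    · simp
    · intro b _ hb
      rw [if_neg]
      intro h'
      exact hb (Fin.ext h'.symm)
    · intro h'
      exact absurd (Finset.mem_univ _) h'
  · refine Finset.sum_eq_zero fun b _ => if_neg ?_
    intro h'
    exact h (h' ▸ b.2)

theorem cp_natDegree {n : ℕ} (c : Fin (n + 1) → ℂ) : (cp c).natDegree ≤ n := by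
  rw [natDegree_le_iff_coeff_eq_zero]
  intro N hN
  rw [cp_coeff, dif_neg (by omega)]

theorem rp_natDegree {n : ℕ} (c : Fin (n + 1) → ℝ) : (rp c).natDegree ≤ n := by
  rw [natDegree_le_iff_coeff_eq_zero]
  intro N hN
  rw [rp_coeff, dif_neg (by omega)]

theorem cp_degree_lt {n : ℕ} (c : Fin n → ℂ) : (cp c).degree < n := by
  rw [degree_lt_iff_coeff_zero]
  intro N hN
  rw [cp_coeff, dif_neg (by omega)]

/-- arrays and polynomials of bounded degree -/
theorem cp_cf {n : ℕ} {p : ℂ[X]} (h : p.natDegree ≤ n) : cp (cf (n + 1) p) = p := by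
  ext i
  rw [cp_coeff]
  split_ifs with hi
  · rfl
  · rw [coeff_eq_zero_of_natDegree_lt (by omega)]

theorem rp_rf {n : ℕ} {p : ℝ[X]} (h : p.natDegree ≤ n) : rp (rf (n + 1) p) = p := by
  ext i
  rw [rp_coeff]
  split_ifs with hi
  · rfl
  · rw [coeff_eq_zero_of_natDegree_lt (by omega)]

theorem cp_cf' {n : ℕ} {p : ℂ[X]} (h : p.degree < n) : cp (cf n p) = p := by
  ext i
  rw [cp_coeff]
  split_ifs with hi
  · rfl
  · rw [coeff_eq_zero_of_degree_lt]
    exact lt_of_lt_of_le h (by exact_mod_cast Nat.le_of_not_lt hi)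

theorem cf_cp {n : ℕ} (c : Fin n → ℂ) : cf n (cp c) = c := by
  funext i
  rw [cf_apply, cp_coeff, dif_pos i.2]

theorem rf_rp {n : ℕ} (c : Fin n → ℝ) : rf n (rp c) = c := by
  funext i
  rw [rf_apply, rp_coeff, dif_pos i.2]

/-- a polynomial of degree `≤ n` with zero coefficient array vanishes -/
theorem eq_zero_of_cf {n : ℕ} {p : ℂ[X]} (h : p.natDegree ≤ n) (h0 : cf (n + 1) p = 0) : p = 0 := by
  rw [← cp_cf h, h0, map_zero]

theorem cc_smul (x : ℝ) (p : ℝ[X]) : cc (x • p) = x • cc p := by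
  rw [smul_eq_C_mul, map_mul, cc_C, rsmul]

/-- `cc` as a real linear map -/
noncomputable def ccL : ℝ[X] →ₗ[ℝ] ℂ[X] where
  toFun := cc
  map_add' := map_add cc
  map_smul' := cc_smul

/-- the polynomial vector of an array -/
noncomputable def lp {n : ℕ} (y : Fin (k + 1) → Fin n → ℂ) : Fin (k + 1) → ℂ[X] := fun a => cp (y a)

theorem lp_dg {n : ℕ} (y : Fin (k + 1) → Fin (n + 1) → ℂ) : Dg n (lp y) := fun a => cp_natDegree _

theorem exists_lp {n : ℕ} {u : Fin (k + 1) → ℂ[X]} (h : Dg n u) :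
    ∃ y : Fin (k + 1) → Fin (n + 1) → ℂ, lp y = u :=
  ⟨fun a => cf (n + 1) (u a), funext fun a => cp_cf (h a)⟩

end Pool.Agent.H53.DP
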