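import Pool.Agent.H53.DP.MemBadI

/-!
# Module GoodPhi: a polynomial which is not assignable for the special plant

PROOF of `goodPhi`. Finitely many sets in `Y = Fin (2 * D + q + 1) → ℝ`: `BadI` for `q1 ≤ q2`, `q1 + q2 = q`,
`c, c', a, b`, `r ≤ q`; `BadIC` for `2 ε ≤ q`; `{p | p (Fin.last _) = 0}` (`dimH_last`). `exists_not_mem`
gives `p`, `φ = rp p`, `natDegree φ = 2 D + q` (`rp_natDegree`, `rp_coeff`, last coefficient `≠ 0`).
Suppose the form of `(U, V)` is `C (2 I) * cc (C c * φ)`, `c ≠ 0`. If `q1 + q2 < q` the degree of the left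
side is `≤ 2 D + q1 + q2 < 2 D + q` (`dt_natDegree`, `natDegree_cj`), a contradiction. If
`q1 + q2 = q` replace `U` by `C c⁻¹ * U` (still `Dg`, `TI`) and apply `mem_badI`.
-/

set_option autoImplicit false

open Polynomial Module

namespace Pool.Agent.H53.DP

theorem goodPhi {k D q : ℕ} (hk : 1 ≤ k) (hq : 1 ≤ q) (hn : q * (2 * k + 1) + 4 * k ≤ 2 * D)
    {l : Fin (k + 1) → ℂ[X]} (hl : Dg D l) :
    ∃ φ : ℝ[X], φ.natDegree = 2 * D + q ∧ ∀ q1 q2 : ℕ, q1 ≤ q2 → q1 + q2 ≤ q →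
      ∀ U V : Fin (k + 1) → ℂ[X], Dg q1 U → Dg q2 V → TI q1 q2 U V → ∀ c : ℝ, c ≠ 0 →
        cj (dt l U) * dt l V - dt l U * cj (dt l V) ≠ C (2 * Complex.I) * cc (C c * φ) := by
  let F4 := (Fin (k + 1) × Bool) × (Fin (k + 1) × Bool) × Fin (k + 1) × Fin (k + 1)
  let ι := (ℕ × ℕ × F4 × ℕ) ⊕ ℕ ⊕ Unit
  let S : ι → Set (Fin (2 * D + q + 1) → ℝ) := Sum.elim
    (fun t => BadI k D q t.1 t.2.1 l t.2.2.1.1 t.2.2.1.2.1 t.2.2.1.2.2.1 t.2.2.1.2.2.2 t.2.2.2)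
    (Sum.elim (fun ε => BadIC k D q ε l) fun _ => {p | p (Fin.last _) = 0})
  let s1 : Set (ℕ × ℕ × F4 × ℕ) := {t | t.1 ≤ t.2.1 ∧ t.1 + t.2.1 = q ∧ t.2.2.2 ≤ q}
  let s2 : Set ℕ := {ε | 2 * ε ≤ q}
  have hs1 : s1.Finite := by
    refine ((Set.finite_Iic q).prod ((Set.finite_Iic q).prod
      ((Set.finite_univ (α := F4)).prod (Set.finite_Iic q)))).subset ?_
    rintro ⟨a, b, c, d⟩ ⟨h1, h2, h3⟩
    simp only [Set.mem_prod, Set.mem_Iic, Set.mem_univ, true_and]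
    simp only at h1 h2 h3
    omega
  have hs2 : s2.Finite := by
    refine (Set.finite_Iic q).subset ?_
    intro a h1
    have h2 : 2 * a ≤ q := h1
    rw [Set.mem_Iic]
    omega
  let s : Set ι := Sum.inl '' s1 ∪ (Sum.inr '' (Sum.inl '' s2) ∪ {Sum.inr (Sum.inr ())})
  have hs : s.Finite := (hs1.image _).union (((hs2.image _).image _).union (Set.finite_singleton _))
  have hY : 0 < finrank ℝ (Fin (2 * D + q + 1) → ℝ) := by
    rw [Module.finrank_fin_fun]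
    omega
  obtain ⟨p, hp⟩ := exists_not_mem s hs S hY (by
    rintro i (⟨⟨a, b, ⟨c, c', i1, i2⟩, d⟩, ⟨h1, h2, h3⟩, rfl⟩ | ⟨_, ⟨ε, h1, rfl⟩, rfl⟩ | hi)
    · exact dimH_BadI h1 h2 hn hl c c' i1 i2 d
    · exact dimH_BadIC hk hq h1 hn l
    · rw [Set.mem_singleton_iff] at hi
      subst hi
      exact dimH_last _)
  have hlast : p (Fin.last _) ≠ 0 := fun h =>
    hp (Sum.inr (Sum.inr ())) (Or.inr (Or.inr rfl)) h
  have hnd : (rp p).natDegree = 2 * D + q := by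
    refine le_antisymm (rp_natDegree p) (le_natDegree_of_ne_zero ?_)
    rw [rp_coeff, dif_pos (Nat.lt_succ_self _)]
    exact hlast
  refine ⟨rp p, hnd, fun q1 q2 h12 hqq U V hU hV hT c hc h => ?_⟩
  have h1 := dt_natDegree hl hU
  have h2 := dt_natDegree hl hV
  have h3 : (cj (dt l U) * dt l V - dt l U * cj (dt l V)).natDegree ≤ 2 * D + (q1 + q2) := by
    refine (natDegree_sub_le_of_le (n := 2 * D + (q1 + q2)) (natDegree_mul_le.trans ?_)
      (natDegree_mul_le.trans ?_)).trans (max_self _).le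
    · rw [natDegree_cj]
      omega
    · rw [natDegree_cj]
      omega
  rw [h, natDegree_C_mul (by simp), natDegree_cc, natDegree_C_mul hc, hnd] at h3
  have hqq' : q1 + q2 = q := by omega
  have hc' : (c : ℂ) ≠ 0 := by exact_mod_cast hc
  have h4 : cj (dt l fun a => C ((c : ℂ)⁻¹) * U a) * dt l V -
      (dt l fun a => C ((c : ℂ)⁻¹) * U a) * cj (dt l V) = C (2 * Complex.I) * cc (rp p) := by
    rw [dt_mul_right, map_mul, cj_C, map_inv₀, Complex.conj_ofReal]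
    have h5 : C ((c : ℂ)⁻¹) * cc (C c) = 1 := by
      rw [cc_C, ← C_mul, inv_mul_cancel₀ hc', C_1]
    have h6 : cc (C c * rp p) = cc (C c) * cc (rp p) := map_mul _ _ _
    rw [h6] at h
    linear_combination C ((c : ℂ)⁻¹) * h + C (2 * Complex.I) * cc (rp p) * h5
  have hT' : TI q1 q2 (fun a => C ((c : ℂ)⁻¹) * U a) V := by
    intro x y hxy
    have h5 := hT (c⁻¹ * x) y fun a => by
      have := hxy a
      rw [coeff_C_mul] at this
      rw [← this]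
      push_cast
      ring
    refine ⟨?_, h5.2⟩
    exact (mul_eq_zero.1 h5.1).resolve_left (inv_ne_zero hc)
  rcases mem_badI h12 hqq' (hU.smul _) hV hT' h4 with ⟨ε, hε, hb⟩ | ⟨c1, c2, a, b, r, hr, hb⟩
  · exact hp (Sum.inr (Sum.inl ε)) (Or.inr (Or.inl ⟨_, ⟨ε, hε, rfl⟩, rfl⟩)) hb
  · exact hp (Sum.inl (q1, q2, (c1, c2, a, b), r)) (Or.inl ⟨_, ⟨h12, hqq', hr⟩, rfl⟩) hb

end Pool.Agent.H53.DP
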