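import Pool.Agent.H53.DP.GoodL
import Pool.Agent.H53.DP.GoodPhi

/-!
# The special plant and the polynomial which is not assignable
-/

set_option autoImplicit false

open Polynomial Module

namespace Pool.Agent.H53.DP

theorem form_natDegree {k D q1 q2 : ℕ} {l U V : Fin (k + 1) → ℂ[X]} (hl : Dg D l)
    (hU : Dg q1 U) (hV : Dg q2 V) :
    (cj (dt l U) * dt l V - dt l U * cj (dt l V)).natDegree ≤ 2 * D + (q1 + q2) := by
  have h1 := dt_natDegree hl hU
  have h2 := dt_natDegree hl hV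
  refine (natDegree_sub_le_of_le (n := 2 * D + (q1 + q2)) (natDegree_mul_le.trans ?_)
    (natDegree_mul_le.trans ?_)).trans (max_self _).le
  · rw [natDegree_cj]
    omega
  · rw [natDegree_cj]
    omega

theorem baseP {k n q : ℕ} (hk : 1 ≤ k) (hq : 1 ≤ q) (hn : q * (2 * k + 1) + 4 * k ≤ n) :
    ∃ (l : Fin (k + 1) → ℂ[X]) (φ : ℝ[X]), Dg (n / 2) l ∧ φ.natDegree = n + q ∧
      ∀ q1 q2 : ℕ, q1 ≤ q2 → q1 + q2 ≤ q →
      ∀ U V : Fin (k + 1) → ℂ[X], Dg q1 U → Dg q2 V → TI q1 q2 U V →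
        ∀ c : ℝ, cj (dt l U) * dt l V - dt l U * cj (dt l V) ≠
          C (2 * Complex.I) * cc (C c * φ) := by
  obtain ⟨l, hl, h2⟩ := goodL (k := k) (D := n / 2) (q := q) hk (by omega)
  have hz : ∀ q1 q2 : ℕ, q1 ≤ q2 → q1 + q2 ≤ q →
      ∀ U V : Fin (k + 1) → ℂ[X], Dg q1 U → Dg q2 V → TI q1 q2 U V → ∀ φ : ℝ[X],
        cj (dt l U) * dt l V - dt l U * cj (dt l V) ≠ C (2 * Complex.I) * cc (C 0 * φ) := by
    intro q1 q2 h12 hqq U V hU hV hT φ h
    rw [C_0, zero_mul, map_zero, mul_zero, sub_eq_zero] at h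
    exact h2 q1 q2 h12 hqq U V hU hV hT h
  rcases Nat.mod_two_eq_zero_or_one n with he | ho
  · obtain ⟨φ, hφ, h1⟩ := goodPhi (k := k) (D := n / 2) (q := q) hk hq (by omega) hl
    refine ⟨l, φ, hl, by omega, fun q1 q2 h12 hqq U V hU hV hT c => ?_⟩
    rcases eq_or_ne c 0 with rfl | hc
    · exact hz q1 q2 h12 hqq U V hU hV hT φ
    · exact h1 q1 q2 h12 hqq U V hU hV hT c hc
  · refine ⟨l, X ^ (n + q), hl, natDegree_X_pow _, fun q1 q2 h12 hqq U V hU hV hT c => ?_⟩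
    rcases eq_or_ne c 0 with rfl | hc
    · exact hz q1 q2 h12 hqq U V hU hV hT _
    · intro h
      have h3 := form_natDegree hl hU hV
      rw [h, natDegree_C_mul (by simp), natDegree_cc, natDegree_C_mul hc, natDegree_X_pow] at h3
      omega

end Pool.Agent.H53.DP
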