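import Pool.Agent.H53.DP.Base

/-!
# Module CFac: pairs which are dependent over `ℂ(X)`

PROOF of `exists_common`. Let `x` be a gcd of the entries `U a` (`Finset.gcd` over `Finset.univ`, or a
generator of `Ideal.span (Set.range U)`, a principal ideal), `U a = x * e a`, `∑ s a * e a = 1`
(Bezout: `x ∈ Ideal.span (range U)`; `x ≠ 0` because `U ≠ 0` by `TI.ne_zero_left`). Put
`y = ∑ s a * V a`. From `U a * V b = U b * V a` (cancel `x`): `e a * V b = e b * V a`; multiply by
`s a` and sum over `a`: `V b = y * e b`. Let `ε` be the maximum of the `natDegree (e a)`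
(`Finset.univ.sup`), attained at `a0`; `e a0 ≠ 0` (some entry is not zero; if `ε = 0` take `a0` with
`e a0 ≠ 0`). `natDegree (x * e a0) = natDegree x + ε ≤ q1`; the same for `y` (`y ≠ 0` as `V ≠ 0` by
`TI.ne_zero_right`).

PROOF of `exists_im`. `w = cj x * y`; `cj w = x * cj y`; coefficientwise `w - cj w = 2 i Im w`; let
`h` be the real polynomial with coefficients `Im (w.coeff n)` (from `exists_cx w`: `w = cx r s`,
`h = s`, `cj_cx`), the degree bound is in `exists_cx`.
-/

set_option autoImplicit false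

open Polynomial

namespace Pool.Agent.H53.DP

variable {k : ℕ}

theorem exists_common {q1 q2 : ℕ} {U V : Fin (k + 1) → ℂ[X]} (hU : Dg q1 U) (hV : Dg q2 V)
    (hT : TI q1 q2 U V) (h : ∀ a b, U a * V b - U b * V a = 0) :
    ∃ (ε : ℕ) (e : Fin (k + 1) → ℂ[X]) (x y : ℂ[X]), Dg ε e ∧ x.natDegree + ε ≤ q1 ∧
      y.natDegree + ε ≤ q2 ∧ (∀ a, U a = x * e a) ∧ ∀ a, V a = y * e a := by
  classical
  set I : Ideal ℂ[X] := Ideal.span (Set.range U) with hI
  set x := Submodule.IsPrincipal.generator I with hx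
  have hspan : Ideal.span {x} = I := Ideal.span_singleton_generator I
  have hdvd : ∀ a, x ∣ U a := by
    intro a
    rw [← Ideal.mem_span_singleton, hspan]
    exact Ideal.subset_span ⟨a, rfl⟩
  choose e he using hdvd
  obtain ⟨a1, ha1⟩ := hT.ne_zero_left
  have hx0 : x ≠ 0 := by
    intro h0
    have := he a1
    rw [h0, zero_mul] at this
    rw [this, coeff_zero] at ha1
    exact ha1 rfl
  obtain ⟨s, hs⟩ := (Ideal.mem_span_range_iff_exists_fun).1
    (Submodule.IsPrincipal.generator_mem I)
  have hs1 : ∑ a, s a * e a = 1 := by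
    refine mul_left_cancel₀ hx0 ?_
    rw [mul_one, Finset.mul_sum]
    refine Eq.trans (Finset.sum_congr rfl fun a _ => ?_) hs
    rw [he a]
    ring
  set y := ∑ a, s a * V a with hy
  have hVe : ∀ b, V b = y * e b := by
    intro b
    have h1 : ∀ a, e a * V b = e b * V a := by
      intro a
      refine mul_left_cancel₀ hx0 ?_
      have := h a b
      rw [he a, he b] at this
      linear_combination this
    calc V b = (∑ a, s a * e a) * V b := by rw [hs1, one_mul]
      _ = ∑ a, s a * V a * e b := by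
        rw [Finset.sum_mul]
        refine Finset.sum_congr rfl fun a _ => ?_
        linear_combination s a * h1 a
      _ = y * e b := by rw [hy, Finset.sum_mul]
  set ε := Finset.univ.sup fun a => (e a).natDegree with hε
  have hle : ∀ a, (e a).natDegree ≤ ε := fun a =>
    Finset.le_sup (f := fun a => (e a).natDegree) (Finset.mem_univ a)
  obtain ⟨a0, h0, hd0⟩ : ∃ a0, e a0 ≠ 0 ∧ (e a0).natDegree = ε := by
    obtain ⟨a0, -, ha0⟩ := Finset.exists_mem_eq_sup Finset.univ Finset.univ_nonempty
      fun a => (e a).natDegree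
    by_cases h0 : e a0 = 0
    · have hε0 : ε = 0 := by rw [hε, ha0, h0, natDegree_zero]
      obtain ⟨a, ha⟩ : ∃ a, e a ≠ 0 := by
        by_contra hcon
        push Not at hcon
        rw [Finset.sum_eq_zero fun a _ => by rw [hcon a, mul_zero]] at hs1
        exact zero_ne_one hs1
      exact ⟨a, ha, le_antisymm (hle a) (by rw [hε0]; exact Nat.zero_le _)⟩
    · exact ⟨a0, h0, ha0.symm⟩
  refine ⟨ε, e, x, y, hle, ?_, ?_, he, hVe⟩
  · have := hU a0
    rw [he a0, natDegree_mul hx0 h0, hd0] at this
    exact this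
  · have hy0 : y ≠ 0 := by
      intro hy0
      obtain ⟨b1, hb1⟩ := hT.ne_zero_right
      rw [hVe b1, hy0, zero_mul, coeff_zero] at hb1
      exact hb1 rfl
    have := hV a0
    rw [hVe a0, natDegree_mul hy0 h0, hd0] at this
    exact this

theorem exists_im (x y : ℂ[X]) : ∃ h : ℝ[X],
    cj x * y - x * cj y = C (2 * Complex.I) * cc h ∧ h.natDegree ≤ x.natDegree + y.natDegree := by
  obtain ⟨r, s, hw, hd⟩ := exists_cx (cj x * y)
  refine ⟨s, ?_, ?_⟩
  · have h1 : x * cj y = cj (cj x * y) := by rw [map_mul, cj_cj]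
    rw [h1, hw, cj_cx, cx, C_mul]
    rw [show (C (2 : ℂ) : ℂ[X]) = 2 from rfl]
    ring
  · refine (hd _ ?_).2
    refine natDegree_mul_le.trans ?_
    rw [natDegree_cj]

end Pool.Agent.H53.DP
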