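import Pool.Agent.H53.DP.Base
import Pool.Agent.H53.DP.Alg

/-!
# Module Coord: complex coordinates

`hat σ u` is the complex vector of `u : J → ℝ[X]`, `σ : J ≃ Fin (k + 1) × Bool`.

PROOF of `exists_rows`. `exists_cx`: `l a = cx (r a) (s a)`, degrees `≤ n`. Put
`y1 j = if (σ j).2 then - s (σ j).1 else r (σ j).1`, `y2 j = if (σ j).2 then r (σ j).1 else s (σ j).1`.
Then `dt l (hat σ u) = cx (∑ j, y1 j * u j) (∑ j, y2 j * u j)`: reindex the sum over `J` by `σ`
(`Equiv.sum_comp`), `Fintype.sum_prod_type`, `Fintype.sum_bool`, `cx_mul`. With `R = ∑ y1 u`, `S = ∑ y2 u`,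
`R' = ∑ y1 v`, `S' = ∑ y2 v`: `cj (cx R S) * cx R' S' - cx R S * cj (cx R' S') =
C (2 I) * cc (R * S' - S * R')` (`cj_cx`, `I_sq`, `ring`), and
`pr y1 y2 (u ∧ v) = R * S' - R' * S` (`Finset.sum_mul_sum`).
-/

set_option autoImplicit false

open Polynomial

namespace Pool.Agent.H53.DP

variable {k : ℕ} {J : Type}

/-- the complex vector of a real vector -/
noncomputable def hat (σ : J ≃ Fin (k + 1) × Bool) (u : J → ℝ[X]) : Fin (k + 1) → ℂ[X] := fun a =>
  cx (u (σ.symm (a, false))) (u (σ.symm (a, true)))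

theorem dg_hat (σ : J ≃ Fin (k + 1) × Bool) {n : ℕ} {u : J → ℝ[X]}
    (h : ∀ j, (u j).natDegree ≤ n) : Dg n (hat σ u) := by
  intro a
  unfold hat cx
  refine (natDegree_add_le_of_le (n := n) ?_ ((natDegree_C_mul_le _ _).trans ?_)).trans
    (max_self n).le
  · rw [natDegree_cc]
    exact h _
  · rw [natDegree_cc]
    exact h _

theorem ti_hat (σ : J ≃ Fin (k + 1) × Bool) {q1 q2 : ℕ} {u v : J → ℝ[X]}
    (h : ∀ s t : ℝ, (∀ j, s * (u j).coeff q1 + t * (v j).coeff q2 = 0) → s = 0 ∧ t = 0) :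
    TI q1 q2 (hat σ u) (hat σ v) := by
  intro s t hst
  refine h s t fun j => ?_
  have h1 := hst (σ j).1
  unfold hat at h1
  rw [cx_coeff, cx_coeff] at h1
  have hre := congrArg Complex.re h1
  have him := congrArg Complex.im h1
  simp at hre him
  rcases hb : (σ j).2 with _ | _
  · have e : σ.symm ((σ j).1, false) = j := by rw [← hb]; simp
    rw [e] at hre
    exact hre
  · have e : σ.symm ((σ j).1, true) = j := by rw [← hb]; simp
    rw [e] at him
    exact him

theorem exists_rows [Fintype J] (σ : J ≃ Fin (k + 1) × Bool) {n : ℕ} {l : Fin (k + 1) → ℂ[X]}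
    (hl : Dg n l) :
    ∃ y1 y2 : J → ℝ[X], (∀ j, (y1 j).natDegree ≤ n) ∧ (∀ j, (y2 j).natDegree ≤ n) ∧
      ∀ u v : J → ℝ[X], cj (dt l (hat σ u)) * dt l (hat σ v) -
        dt l (hat σ u) * cj (dt l (hat σ v)) =
          C (2 * Complex.I) * cc (pr y1 y2 fun i j => u i * v j - u j * v i) := by
  choose r s hrs hd using fun a => exists_cx (l a)
  set y1 : J → ℝ[X] := fun j => if (σ j).2 then -s (σ j).1 else r (σ j).1 with hy1
  set y2 : J → ℝ[X] := fun j => if (σ j).2 then r (σ j).1 else s (σ j).1 with hy2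
  have key : ∀ u : J → ℝ[X], dt l (hat σ u) = cx (∑ j, y1 j * u j) (∑ j, y2 j * u j) := by
    intro u
    have h1 : ∀ f : J → ℝ[X], ∑ j, f j = ∑ a, (f (σ.symm (a, true)) + f (σ.symm (a, false))) := by
      intro f
      rw [← Equiv.sum_comp σ.symm, Fintype.sum_prod_type]
      exact Finset.sum_congr rfl fun a _ => Fintype.sum_bool _
    have h2 : ∀ f g : Fin (k + 1) → ℝ[X], cx (∑ a, f a) (∑ a, g a) = ∑ a, cx (f a) (g a) := by
      intro f g
      unfold cx
      rw [map_sum, map_sum, Finset.mul_sum, ← Finset.sum_add_distrib]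
    rw [h1, h1, h2]
    unfold dt hat
    refine Finset.sum_congr rfl fun a _ => ?_
    rw [hrs a, cx_mul]
    simp only [hy1, hy2, Equiv.apply_symm_apply, if_true]
    congr 1
    simp only [Bool.false_eq_true, if_false]
    ring
  refine ⟨y1, y2, fun j => ?_, fun j => ?_, fun u v => ?_⟩
  · simp only [hy1]
    split_ifs
    · rw [natDegree_neg]
      exact (hd _ _ (hl _)).2
    · exact (hd _ _ (hl _)).1
  · simp only [hy2]
    split_ifs
    · exact (hd _ _ (hl _)).1
    · exact (hd _ _ (hl _)).2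
  · rw [key u, key v, cj_cx, cj_cx]
    have h3 : (pr y1 y2 fun i j => u i * v j - u j * v i) =
        (∑ j, y1 j * u j) * (∑ j, y2 j * v j) - (∑ j, y1 j * v j) * ∑ j, y2 j * u j := by
      unfold pr
      rw [Finset.sum_mul_sum, Finset.sum_mul_sum, ← Finset.sum_sub_distrib]
      refine Finset.sum_congr rfl fun i _ => ?_
      rw [← Finset.sum_sub_distrib]
      exact Finset.sum_congr rfl fun j _ => by ring
    rw [h3]
    simp only [map_sub, map_mul, cx]
    rw [show (C (2 : ℂ) : ℂ[X]) = 2 from rfl]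
    ring

end Pool.Agent.H53.DP
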