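import Pool.Agent.H53.DP.DetX

/-!
# Module DecX: the Plücker relations

PROOF of `om_plucker`. Let `M = Matrix.fromRows (Matrix.of ![a, b]) P`. Cramer's rule for the rows
(`Matrix.mulVec_cramer` for `Mᵀ`: `Mᵀ *ᵥ cramer Mᵀ e = M.det • e`, and `cramer Mᵀ e i` = determinant of
`M` with the row `i` replaced by `e`, `Matrix.cramer_transpose_apply`) gives
`om P a b • e = om P e b • a + om P a e • b + ∑ i, c i • P i`. Apply the map `om P · f`, which is
linear in the first argument (`om_expand`, or linearity of the determinant in a row) and vanishes at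
the rows `P i` (two equal rows): `om P a b * om P e f = om P e b * om P a f + om P a e * om P b f`.
`dec_XX`: `a, b, e, f` = unit vectors, `om_self`, `om_swap`.
-/

set_option autoImplicit false

open Polynomial

namespace Pool.Agent.H53.DP

theorem om_plucker {A : Type} [CommRing A] {m : ℕ} (P : Matrix (Fin m) (Fin 2 ⊕ Fin m) A)
    (a b e f : Fin 2 ⊕ Fin m → A) :
    om P a b * om P e f = om P e b * om P a f + om P a e * om P b f := by
  set M := Matrix.fromRows (Matrix.of ![a, b]) P with hM
  have h1 : M.transpose.mulVec (Matrix.cramer M.transpose e) = M.transpose.det • e := Matrix.mulVec_cramer _ _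
  rw [Matrix.det_transpose] at h1
  have h2 : om P a b • e = om P e b • a + om P a e • b +
      ∑ i : Fin m, Matrix.cramer M.transpose e (Sum.inr i) • P i := by
    show M.det • e = _
    rw [← h1]
    funext j
    rw [Matrix.mulVec, dotProduct, Fintype.sum_sum_type, Fin.sum_univ_two,
      Matrix.cramer_transpose_apply, Matrix.cramer_transpose_apply, hM, ← om_upd0, ← om_upd1]
    simp only [Pi.add_apply, Finset.sum_apply, Pi.smul_apply, smul_eq_mul,
      Matrix.transpose_apply]
    congr 1
    · congr 1
      · exact mul_comm _ _
      · exact mul_comm _ _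
    · exact Finset.sum_congr rfl fun i _ => mul_comm _ _
  have h3 := congrArg (omL P f) h2
  rw [map_smul, map_add, map_add, map_smul, map_smul, map_sum] at h3
  have h4 : ∑ i : Fin m, omL P f (Matrix.cramer M.transpose e (Sum.inr i) • P i) = 0 := by
    refine Finset.sum_eq_zero fun i _ => ?_
    rw [map_smul, omL_apply]
    have h5 : om P (P i) f = 0 :=
      Matrix.det_zero_of_row_eq (i := Sum.inl 0) (j := Sum.inr i) (by simp) rfl
    rw [h5, smul_zero]
  rw [h4, add_zero] at h3
  simpa only [omL_apply, smul_eq_mul] using h3

theorem dec_XX {A : Type} [CommRing A] {m : ℕ} (P : Matrix (Fin m) (Fin 2 ⊕ Fin m) A) :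
    Dec (XX P) := by
  refine ⟨fun i => om_self P _, fun i j => om_swap P _ _, fun i j k l => ?_⟩
  have h := om_plucker P (Pi.single i 1) (Pi.single j 1) (Pi.single k 1) (Pi.single l 1)
  have h2 := om_swap P (Pi.single k 1) (Pi.single j 1)
  change XX P i j * XX P k l = XX P k j * XX P i l + XX P i k * XX P j l at h
  change XX P k j = -XX P j k at h2
  rw [h2] at h
  linear_combination h

end Pool.Agent.H53.DP
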