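import Pool.Agent.H53.DP.DetX

/-!
# Module DegX: the coordinates of a compensator are its maximal minors

PROOF. `i = j`: `XX P i i = 0` (`om_self`). `i ≠ j`: choose a permutation `τ` of `Fin 2 ⊕ Fin m` with
`τ (Sum.inl 0) = i`, `τ (Sum.inl 1) = j` (two transpositions, or extend an injection). Permuting the
columns changes the determinant by a sign (`Matrix.det_permute'`), and
`(Matrix.fromRows (Matrix.of ![e_i, e_j]) P).submatrix id τ = Matrix.fromBlocks 1 0 _ (P.submatrix id
(τ ∘ Sum.inr))`, whose determinant is `(P.submatrix id (τ ∘ Sum.inr)).det`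
(`Matrix.det_fromBlocks_zero₁₂`).
-/

set_option autoImplicit false

open Polynomial

namespace Pool.Agent.H53.DP

theorem XX_natDegree {m q : ℕ} {P : Matrix (Fin m) (Fin 2 ⊕ Fin m) ℝ[X]}
    (h : ∀ e : Fin m → Fin 2 ⊕ Fin m, (P.submatrix id e).det.natDegree ≤ q)
    (i j : Fin 2 ⊕ Fin m) : (XX P i j).natDegree ≤ q := by
  rcases eq_or_ne i j with rfl | hij
  · have h0 : XX P i i = 0 := om_self P _
    rw [h0, natDegree_zero]
    exact Nat.zero_le _
  · obtain ⟨τ, h1, h2⟩ : ∃ τ : Equiv.Perm (Fin 2 ⊕ Fin m), τ (Sum.inl 0) = i ∧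
        τ (Sum.inl 1) = j := by
      set τ1 : Equiv.Perm (Fin 2 ⊕ Fin m) := Equiv.swap (Sum.inl 0) i with hτ1
      have e1 : τ1 (Sum.inl 0) = i := Equiv.swap_apply_left _ _
      have e2 : i ≠ τ1 (Sum.inl 1) := by
        rw [← e1]
        intro h
        have := τ1.injective h
        simp at this
      refine ⟨Equiv.swap (τ1 (Sum.inl 1)) j * τ1, ?_, ?_⟩
      · rw [Equiv.Perm.mul_apply, e1]
        exact Equiv.swap_apply_of_ne_of_ne e2 hij
      · rw [Equiv.Perm.mul_apply, Equiv.swap_apply_left]
    set M := Matrix.fromRows (Matrix.of ![Pi.single i (1 : ℝ[X]), Pi.single j 1]) P with hM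
    have hblock : M.submatrix id τ = Matrix.fromBlocks 1 0 (P.submatrix id (τ ∘ Sum.inl))
        (P.submatrix id (τ ∘ Sum.inr)) := by
      ext x y
      rcases x with x | x
      · rcases y with y | y
        · have h3 : ∀ x : Fin 2, M (Sum.inl x) = Pi.single (τ (Sum.inl x)) 1 := by
            intro x
            fin_cases x
            · show Pi.single i 1 = _
              rw [← h1]
              rfl
            · show Pi.single j 1 = _
              rw [← h2]
              rfl
          rw [Matrix.submatrix_apply, id, h3, Pi.single_apply, Matrix.fromBlocks_apply₁₁,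
            Matrix.one_apply]
          simp only [EmbeddingLike.apply_eq_iff_eq, Sum.inl.injEq, eq_comm]
        · have h3 : ∀ x : Fin 2, M (Sum.inl x) = Pi.single (τ (Sum.inl x)) 1 := by
            intro x
            fin_cases x
            · show Pi.single i 1 = _
              rw [← h1]
              rfl
            · show Pi.single j 1 = _
              rw [← h2]
              rfl
          rw [Matrix.submatrix_apply, id, h3, Pi.single_apply, Matrix.fromBlocks_apply₁₂,
            Matrix.zero_apply, if_neg]
          rw [EmbeddingLike.apply_eq_iff_eq]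
          simp
      · rcases y with y | y <;> rfl
    have hdet := Matrix.det_permute' τ M
    rw [hblock, Matrix.det_fromBlocks_zero₁₂, Matrix.det_one, one_mul] at hdet
    have hsq : ((Equiv.Perm.sign τ : ℤ) : ℝ[X]) * ((Equiv.Perm.sign τ : ℤ) : ℝ[X]) = 1 := by
      rw [← Int.cast_mul, ← Units.val_mul, Int.units_mul_self, Units.val_one, Int.cast_one]
    have h4 : XX P i j = ((Equiv.Perm.sign τ : ℤ) : ℝ[X]) *
        (P.submatrix id (τ ∘ Sum.inr)).det := by
      rw [hdet, ← mul_assoc, hsq, one_mul]
      rfl
    rw [h4]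
    refine natDegree_mul_le.trans ?_
    rw [natDegree_intCast, zero_add]
    exact h _

end Pool.Agent.H53.DP
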