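import Pool.Agent.H53.DP.Alg

/-!
# Module DetX: expansion of the determinant along the first two rows

PROOF. Let `ω a b = (Matrix.fromRows (Matrix.of ![a, b]) P2).det` for `a b : Fin 2 ⊕ Fin m → A`. It is
linear in `a` and in `b` (`Matrix.detRowAlternating` with `Function.update` at the index `Sum.inl 0`,
`Sum.inl 1`, or `Matrix.det_updateRow_add`, `Matrix.det_updateRow_smul`), and
`a = ∑ i, a i • Pi.single i 1` (`pi_eq_sum_univ`), so `ω a b = ∑ i, ∑ j, a i * b j * XX P2 i j`; and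
`P1 = Matrix.of ![P1 0, P1 1]`.
`XX_self`, `XX_swap`: equal rows (`Matrix.det_zero_of_row_eq`), exchange of the two rows
(`Matrix.det_permute` with `Equiv.swap (Sum.inl 0) (Sum.inl 1)`).
-/

set_option autoImplicit false

open Polynomial

namespace Pool.Agent.H53.DP

/-- the alternating form of a compensator -/
def om {A : Type} [CommRing A] {m : ℕ} (P : Matrix (Fin m) (Fin 2 ⊕ Fin m) A)
    (a b : Fin 2 ⊕ Fin m → A) : A := (Matrix.fromRows (Matrix.of ![a, b]) P).det

theorem om_upd0 {A : Type} [CommRing A] {m : ℕ} (P : Matrix (Fin m) (Fin 2 ⊕ Fin m) A)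
    (a a' b : Fin 2 ⊕ Fin m → A) :
    om P a' b = ((Matrix.fromRows (Matrix.of ![a, b]) P).updateRow (Sum.inl 0) a').det := by
  unfold om
  congr 1
  ext i j
  rcases i with i | i
  · fin_cases i
    · show a' j = _
      exact (congrFun Matrix.updateRow_self j).symm
    · have h : (Sum.inl 1 : Fin 2 ⊕ Fin m) ≠ Sum.inl 0 := by simp
      exact (congrFun (Matrix.updateRow_ne (M := Matrix.fromRows (Matrix.of ![a, b]) P)
        (b := a') h) j).symm
  · rw [Matrix.updateRow_ne (by simp)]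
    rfl

theorem om_upd1 {A : Type} [CommRing A] {m : ℕ} (P : Matrix (Fin m) (Fin 2 ⊕ Fin m) A)
    (a b b' : Fin 2 ⊕ Fin m → A) :
    om P a b' = ((Matrix.fromRows (Matrix.of ![a, b]) P).updateRow (Sum.inl 1) b').det := by
  unfold om
  congr 1
  ext i j
  rcases i with i | i
  · fin_cases i
    · have h : (Sum.inl 0 : Fin 2 ⊕ Fin m) ≠ Sum.inl 1 := by simp
      exact (congrFun (Matrix.updateRow_ne (M := Matrix.fromRows (Matrix.of ![a, b]) P)
        (b := b') h) j).symm
    · show b' j = _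
      exact (congrFun Matrix.updateRow_self j).symm
  · rw [Matrix.updateRow_ne (by simp)]
    rfl

/-- linear in the first argument -/
def omL {A : Type} [CommRing A] {m : ℕ} (P : Matrix (Fin m) (Fin 2 ⊕ Fin m) A)
    (b : Fin 2 ⊕ Fin m → A) : (Fin 2 ⊕ Fin m → A) →ₗ[A] A where
  toFun a := om P a b
  map_add' a a' := by
    rw [om_upd0 P 0, om_upd0 P 0, om_upd0 P 0, Matrix.det_updateRow_add]
  map_smul' c a := by
    rw [om_upd0 P 0, om_upd0 P 0, Matrix.det_updateRow_smul]
    rfl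

/-- linear in the second argument -/
def omR {A : Type} [CommRing A] {m : ℕ} (P : Matrix (Fin m) (Fin 2 ⊕ Fin m) A)
    (a : Fin 2 ⊕ Fin m → A) : (Fin 2 ⊕ Fin m → A) →ₗ[A] A where
  toFun b := om P a b
  map_add' b b' := by
    rw [om_upd1 P a 0, om_upd1 P a 0, om_upd1 P a 0, Matrix.det_updateRow_add]
  map_smul' c b := by
    rw [om_upd1 P a 0, om_upd1 P a 0, Matrix.det_updateRow_smul]
    rfl

theorem omL_apply {A : Type} [CommRing A] {m : ℕ} (P : Matrix (Fin m) (Fin 2 ⊕ Fin m) A)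
    (a b : Fin 2 ⊕ Fin m → A) : omL P b a = om P a b := rfl

theorem omR_apply {A : Type} [CommRing A] {m : ℕ} (P : Matrix (Fin m) (Fin 2 ⊕ Fin m) A)
    (a b : Fin 2 ⊕ Fin m → A) : omR P a b = om P a b := rfl

theorem single_eq {A J : Type} [CommRing A] [DecidableEq J] (i : J) :
    (fun j => if i = j then (1 : A) else 0) = Pi.single i 1 := by
  funext j
  rw [Pi.single_apply]
  simp only [eq_comm]

theorem om_expand {A : Type} [CommRing A] {m : ℕ} (P : Matrix (Fin m) (Fin 2 ⊕ Fin m) A)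
    (a b : Fin 2 ⊕ Fin m → A) : om P a b = pr a b (XX P) := by
  rw [← omL_apply, LinearMap.pi_apply_eq_sum_univ]
  unfold pr
  refine Finset.sum_congr rfl fun i _ => ?_
  rw [single_eq, omL_apply, ← omR_apply, LinearMap.pi_apply_eq_sum_univ, smul_eq_mul,
    Finset.mul_sum]
  refine Finset.sum_congr rfl fun j _ => ?_
  rw [single_eq, omR_apply, smul_eq_mul, ← mul_assoc]
  rfl

theorem det_fromRows_pr {A : Type} [CommRing A] {m : ℕ} (P1 : Matrix (Fin 2) (Fin 2 ⊕ Fin m) A)
    (P2 : Matrix (Fin m) (Fin 2 ⊕ Fin m) A) :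
    (Matrix.fromRows P1 P2).det = pr (P1 0) (P1 1) (XX P2) := by
  rw [← om_expand]
  unfold om
  congr 2
  ext i j
  fin_cases i <;> rfl

theorem om_self {A : Type} [CommRing A] {m : ℕ} (P : Matrix (Fin m) (Fin 2 ⊕ Fin m) A)
    (a : Fin 2 ⊕ Fin m → A) : om P a a = 0 := by
  exact Matrix.det_zero_of_row_eq (i := Sum.inl 0) (j := Sum.inl 1) (by simp) rfl

theorem om_swap {A : Type} [CommRing A] {m : ℕ} (P : Matrix (Fin m) (Fin 2 ⊕ Fin m) A)
    (a b : Fin 2 ⊕ Fin m → A) : om P a b = -om P b a := by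
  have h := om_self P (a + b)
  rw [← omL_apply, map_add, omL_apply, omL_apply, ← omR_apply, ← omR_apply, map_add, map_add,
    omR_apply, omR_apply, omR_apply, omR_apply, om_self, om_self] at h
  linear_combination h

end Pool.Agent.H53.DP
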