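import Mathlib

/-!
# Module Dim: a point outside finitely many small sets; ranges of smooth maps are small

PROOF. `exists_not_mem`: `dimH (⋃ i ∈ s, S i) < finrank Y` (`dimH_bUnion`, `dimH_iUnion`, a finite
supremum of numbers `< finrank Y`; or induction over the finite set with `dimH_union`), but
`dimH univ = finrank Y` (`Real.dimH_univ_eq_finrank`).
`dimH_small`: `ContDiff.dimH_range_le`.
`dimH_last`: the set is the range of the linear map `p ↦ Fin.snoc p 0` from `Fin n → ℝ`.
-/

set_option autoImplicit false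

open Module

namespace Pool.Agent.H53.DP

theorem exists_not_mem {Y ι : Type} [NormedAddCommGroup Y] [NormedSpace ℝ Y]
    [FiniteDimensional ℝ Y] (s : Set ι) (hs : s.Finite) (S : ι → Set Y)
    (hY : 0 < finrank ℝ Y) (h : ∀ i ∈ s, dimH (S i) < finrank ℝ Y) :
    ∃ y : Y, ∀ i ∈ s, y ∉ S i := by
  by_contra hcon
  push Not at hcon
  have h1 : (Set.univ : Set Y) ⊆ ⋃ i ∈ s, S i := fun y _ => by
    obtain ⟨i, hi, hy⟩ := hcon y
    exact Set.mem_biUnion hi hy
  have h2 : dimH (⋃ i ∈ s, S i) < finrank ℝ Y := by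
    clear hcon h1
    induction s, hs using Set.Finite.induction_on with
    | empty =>
      simp only [Set.mem_empty_iff_false, Set.iUnion_of_empty, Set.iUnion_empty, dimH_empty]
      exact_mod_cast hY
    | insert ha hs ih =>
      rw [Set.biUnion_insert, dimH_union]
      exact max_lt (h _ (Set.mem_insert _ _)) (ih fun i hi => h i (Set.mem_insert_of_mem _ hi))
  exact absurd (h2.trans_le' (dimH_mono h1)) (by rw [Real.dimH_univ_eq_finrank]; exact lt_irrefl _)

theorem dimH_small {E Y : Type} [NormedAddCommGroup E] [NormedSpace ℝ E] [FiniteDimensional ℝ E]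
    [NormedAddCommGroup Y] [NormedSpace ℝ Y] [FiniteDimensional ℝ Y] (f : E → Y)
    (hf : ContDiff ℝ 1 f) (h : finrank ℝ E < finrank ℝ Y) {S : Set Y} (hS : S ⊆ Set.range f) :
    dimH S < finrank ℝ Y := by
  calc dimH S ≤ dimH (Set.range f) := dimH_mono hS
    _ ≤ finrank ℝ E := hf.dimH_range_le
    _ < finrank ℝ Y := by exact_mod_cast h

theorem dimH_last (n : ℕ) : dimH {p : Fin (n + 1) → ℝ | p (Fin.last n) = 0} <
    finrank ℝ (Fin (n + 1) → ℝ) := by
  let f : (Fin n → ℝ) → (Fin (n + 1) → ℝ) := fun p i => if h : (i : ℕ) < n then p ⟨i, h⟩ else 0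
  refine dimH_small f ?_ ?_ ?_
  · rw [contDiff_pi]
    intro i
    by_cases h : (i : ℕ) < n
    · simp only [f, dif_pos h]
      exact contDiff_apply ℝ ℝ _
    · simp only [f, dif_neg h]
      exact contDiff_const
  · rw [finrank_fin_fun, finrank_fin_fun]
    omega
  · intro p hp
    refine ⟨fun i => p i.castSucc, ?_⟩
    funext i
    by_cases h : (i : ℕ) < n
    · simp only [f, dif_pos h]
      rfl
    · simp only [f, dif_neg h]
      have h1 : i = Fin.last n := Fin.ext (by have := i.2; simp; omega)
      rw [h1]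
      exact hp.symm

end Pool.Agent.H53.DP
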