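import Pool.Agent.H53.DP.ParW

/-!
# Module Par: decomposable arrays over `ℝ[X]` are wedge products of reduced vectors

PROOF of `exists_reduced`. For a nonzero vector `u` let `deg u = max natDegree (u j)`
(`Finset.univ.sup`). Choose `u, v` with `x = u ∧ v` and `deg u + deg v` minimal (`Nat.find` or
well-foundedness), w.l.o.g. `deg u ≤ deg v` (exchange: `x = v ∧ (-u)`). Let `q1 = deg u`, `q2 = deg v`.
`u ≠ 0`, so some coefficient of `X ^ q1` is not zero. If `s * u.coeff q1 + t * v.coeff q2 = 0` with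
`(s, t) ≠ 0` then `t ≠ 0`, and `v' = v + C (s / t) * X ^ (q2 - q1) * u` satisfies `x = u ∧ v'`; its
coefficients of `X ^ q2` vanish, so `deg v' < q2` or (`q2 = 0`) `v' = 0`, which gives `x = 0`: both are
contradictions. So the coefficient vectors are independent; hence some
`(u i).coeff q1 * (v j).coeff q2 - (u j).coeff q1 * (v i).coeff q2 ≠ 0` (otherwise fix `i` with
`(u i).coeff q1 ≠ 0`), this is the coefficient of `X ^ (q1 + q2)` of `x i j`
(`coeff_mul_add_eq_of_natDegree_le`), so `q1 + q2 ≤ q`.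
-/

set_option autoImplicit false

open Polynomial

namespace Pool.Agent.H53.DP

/-- the degree of a polynomial vector -/
noncomputable def vdeg {J : Type} [Fintype J] (u : J → ℝ[X]) : ℕ :=
  Finset.univ.sup fun j => (u j).natDegree

theorem le_vdeg {J : Type} [Fintype J] (u : J → ℝ[X]) (j : J) : (u j).natDegree ≤ vdeg u :=
  Finset.le_sup (f := fun j => (u j).natDegree) (Finset.mem_univ j)

theorem vdeg_lt {J : Type} [Fintype J] {w : J → ℝ[X]} {n : ℕ} (h1 : ∀ j, (w j).natDegree ≤ n)
    (h2 : ∀ j, (w j).coeff n = 0) (h0 : w ≠ 0) : vdeg w < n := by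
  have hn : 0 < n := by
    rcases Nat.eq_zero_or_pos n with rfl | hn
    · refine absurd (funext fun j => ?_) h0
      rw [eq_C_of_natDegree_le_zero (h1 j), h2 j, C_0]
      rfl
    · exact hn
  unfold vdeg
  rw [Finset.sup_lt_iff (by exact hn)]
  intro j _
  refine lt_of_le_of_ne (h1 j) fun h3 => ?_
  have h4 : (w j).leadingCoeff = 0 := by
    rw [leadingCoeff, h3, h2 j]
  rw [leadingCoeff_eq_zero.1 h4, natDegree_zero] at h3
  omega

theorem reduced_aux {J : Type} [Fintype J] {q : ℕ} {x : J → J → ℝ[X]} (h0 : x ≠ 0)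
    (hq : ∀ i j, (x i j).natDegree ≤ q) {u v : J → ℝ[X]}
    (hw : ∀ i j, x i j = u i * v j - u j * v i)
    (hmin : ∀ u' v' : J → ℝ[X], (∀ i j, x i j = u' i * v' j - u' j * v' i) →
      vdeg u + vdeg v ≤ vdeg u' + vdeg v') (huv : vdeg u ≤ vdeg v) :
    ∃ (q1 q2 : ℕ) (u v : J → ℝ[X]), q1 ≤ q2 ∧ q1 + q2 ≤ q ∧ (∀ j, (u j).natDegree ≤ q1) ∧
      (∀ j, (v j).natDegree ≤ q2) ∧ (∀ i j, x i j = u i * v j - u j * v i) ∧
      ∀ s t : ℝ, (∀ j, s * (u j).coeff q1 + t * (v j).coeff q2 = 0) → s = 0 ∧ t = 0 := by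
  have hu0 : u ≠ 0 := by
    rintro rfl
    exact h0 (funext fun i => funext fun j => by rw [hw]; simp)
  have hind : ∀ s t : ℝ, (∀ j, s * (u j).coeff (vdeg u) + t * (v j).coeff (vdeg v) = 0) →
      s = 0 ∧ t = 0 := by
    intro s t hst
    have ht : t = 0 := by
      by_contra ht
      let v' : J → ℝ[X] := fun j => v j + C (s / t) * (X ^ (vdeg v - vdeg u) * u j)
      have hw' : ∀ i j, x i j = u i * v' j - u j * v' i := by
        intro i j
        rw [hw i j]
        ring
      have h1 : ∀ j, (v' j).natDegree ≤ vdeg v := by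
        intro j
        refine natDegree_add_le_of_degree_le (le_vdeg v j) ?_
        refine (natDegree_C_mul_le _ _).trans ?_
        refine natDegree_mul_le.trans ?_
        rw [natDegree_X_pow]
        have := le_vdeg u j
        omega
      have h2 : ∀ j, (v' j).coeff (vdeg v) = 0 := by
        intro j
        have h3 : (X ^ (vdeg v - vdeg u) * u j).coeff (vdeg v) = (u j).coeff (vdeg u) := by
          rw [coeff_X_pow_mul', if_pos (Nat.sub_le _ _)]
          congr 1
          omega
        show (v j + C (s / t) * (X ^ (vdeg v - vdeg u) * u j)).coeff (vdeg v) = 0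
        rw [coeff_add, coeff_C_mul, h3]
        have h4 := hst j
        field_simp
        linarith
      have hv0 : v' ≠ 0 := by
        intro hv0
        exact h0 (funext fun i => funext fun j => by rw [hw', hv0]; simp)
      have h5 := vdeg_lt h1 h2 hv0
      have h6 := hmin u v' hw'
      omega
    subst ht
    refine ⟨?_, rfl⟩
    by_contra hs
    have h2 : ∀ j, (u j).coeff (vdeg u) = 0 := by
      intro j
      have := hst j
      rw [zero_mul, add_zero] at this
      exact (mul_eq_zero.1 this).resolve_left hs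
    exact lt_irrefl _ (vdeg_lt (le_vdeg u) h2 hu0)
  refine ⟨vdeg u, vdeg v, u, v, huv, ?_, le_vdeg u, le_vdeg v, hw, hind⟩
  by_contra hlt
  push Not at hlt
  have hz : ∀ i j, (u i).coeff (vdeg u) * (v j).coeff (vdeg v) -
      (u j).coeff (vdeg u) * (v i).coeff (vdeg v) = 0 := by
    intro i j
    have h1 : (x i j).coeff (vdeg u + vdeg v) = 0 :=
      coeff_eq_zero_of_natDegree_lt (lt_of_le_of_lt (hq i j) hlt)
    rw [hw, coeff_sub, coeff_mul_add_eq_of_natDegree_le (le_vdeg u i) (le_vdeg v j),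
      coeff_mul_add_eq_of_natDegree_le (le_vdeg u j) (le_vdeg v i)] at h1
    exact h1
  have h3 : ∀ i, (u i).coeff (vdeg u) = 0 := by
    intro i
    refine (hind (-(v i).coeff (vdeg v)) ((u i).coeff (vdeg u)) fun j => ?_).2
    linarith [hz i j]
  have := (hind 1 0 fun j => by rw [h3 j]; ring).1
  exact one_ne_zero this

theorem exists_reduced {J : Type} [Fintype J] {q : ℕ} {x : J → J → ℝ[X]} (hx : Dec x) (h0 : x ≠ 0)
    (hq : ∀ i j, (x i j).natDegree ≤ q) :
    ∃ (q1 q2 : ℕ) (u v : J → ℝ[X]), q1 ≤ q2 ∧ q1 + q2 ≤ q ∧ (∀ j, (u j).natDegree ≤ q1) ∧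
      (∀ j, (v j).natDegree ≤ q2) ∧ (∀ i j, x i j = u i * v j - u j * v i) ∧
      ∀ s t : ℝ, (∀ j, s * (u j).coeff q1 + t * (v j).coeff q2 = 0) → s = 0 ∧ t = 0 := by
  classical
  have hex : ∃ n : ℕ, ∃ u v : J → ℝ[X], (∀ i j, x i j = u i * v j - u j * v i) ∧
      vdeg u + vdeg v = n := by
    obtain ⟨u, v, h⟩ := exists_wedge hx h0
    exact ⟨_, u, v, h, rfl⟩
  obtain ⟨u, v, hw, hn⟩ := Nat.find_spec hex
  have hmin : ∀ u' v' : J → ℝ[X], (∀ i j, x i j = u' i * v' j - u' j * v' i) →
      vdeg u + vdeg v ≤ vdeg u' + vdeg v' := by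
    intro u' v' h
    rw [hn]
    exact Nat.find_min' hex ⟨u', v', h, rfl⟩
  rcases le_total (vdeg u) (vdeg v) with h | h
  · exact reduced_aux h0 hq hw hmin h
  · have hneg : vdeg (-u) = vdeg u := by
      unfold vdeg
      simp
    refine reduced_aux h0 hq (u := v) (v := -u) (fun i j => ?_) (fun u' v' h' => ?_) ?_
    · rw [hw i j]
      simp only [Pi.neg_apply]
      ring
    · rw [hneg, add_comm]
      exact hmin u' v' h'
    · rw [hneg]
      exact h

end Pool.Agent.H53.DP
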