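import Pool.Agent.H53.DP.Alg
import Pool.Agent.H69.PP.Robust

/-!
# Module Rob: robustness

PROOF. As `Pool.Agent.H69.PP.robust` (file `Pool/Agent/H69/PP/Robust.lean`, the case of four columns;
copy and adapt): the coefficient arrays `e = (c, a) : (J → J → Fin (q + 1) → ℝ) × ℝ`; for `s : ℝ` let
`ev (c i j) s = ∑ k, c i j k * s ^ k`. The set `K` of all `(t, e)` with `|t| ≤ 1`, `‖e‖ = 1`, such that for
all `s` the arrays `ev (c i j) s` satisfy the alternation and Plücker equations and
`pr (U(s)(t)) (V(s)(t)) (ev c s) = a * φ(s)` is compact (closed: intersection over `s` of closed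
conditions, all continuous in `(t, e)`; `pr` is a finite sum of products). Its projection to `t` is
compact and does not contain `0` by `hbase` (polynomials are determined by their values,
`Polynomial.funext`; `x = 0` and `C a * φ = 0`, `φ ≠ 0` give `e = 0`, not of norm one). So it misses
`|t| < δ`. A solution `x ≠ 0` for such a `t` gives after division by the norm of
`(coefficients of x, a)` (alternation and pairing are homogeneous of degree `1`, Plücker of degree
`2`) a point of `K`.
-/

set_option autoImplicit false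

open Polynomial Set Pool.Agent.H69.PP

namespace Pool.Agent.H53.DP

theorem eval_pr {J : Type} [Fintype J] (s : ℝ) (u v : J → ℝ[X]) (x : J → J → ℝ[X]) :
    (pr u v x).eval s = pr (fun j => (u j).eval s) (fun j => (v j).eval s)
      (fun i j => (x i j).eval s) := by
  simp [pr, eval_finsetSum]

/-- the space of solutions -/
abbrev EJ (J : Type) (q : ℕ) : Type := (J → J → Fin (q + 1) → ℝ) × ℝ

theorem rob {J : Type} [Fintype J] {q : ℕ} {φ : ℝ[X]} (hφ : φ ≠ 0) {y1 y2 : J → ℝ[X]}
    (hbase : ∀ x : J → J → ℝ[X], Dec x → (∀ i j, (x i j).natDegree ≤ q) → ∀ a : ℝ,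
      pr y1 y2 x = C a * φ → x = 0)
    {U V : J → ℝ[X][X]} (hU : ∀ j, sp 0 (U j) = y1 j) (hV : ∀ j, sp 0 (V j) = y2 j) :
    ∃ δ > 0, ∀ t : ℝ, |t| < δ → ∀ x : J → J → ℝ[X], Dec x → (∀ i j, (x i j).natDegree ≤ q) →
      ∀ a : ℝ, pr (fun j => sp t (U j)) (fun j => sp t (V j)) x = C a * φ → x = 0 := by
  let pe : ℝ → EJ J q → ℝ → ℝ := fun t e s =>
    pr (fun j => ((U j).eval (C s)).eval t) (fun j => ((V j).eval (C s)).eval t)
      (fun i j => ev (e.1 i j) s) - e.2 * φ.eval s
  let K : Set (ℝ × EJ J q) := (Icc (-1 : ℝ) 1 ×ˢ Metric.sphere (0 : EJ J q) 1) ∩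
    ⋂ s : ℝ, ((⋂ i, {z | ev (z.2.1 i i) s = 0}) ∩ ((⋂ i, ⋂ j, {z | ev (z.2.1 i j) s +
        ev (z.2.1 j i) s = 0}) ∩ ((⋂ i, ⋂ j, ⋂ k, ⋂ l, {z | ev (z.2.1 i j) s * ev (z.2.1 k l) s -
        ev (z.2.1 i k) s * ev (z.2.1 j l) s + ev (z.2.1 i l) s * ev (z.2.1 j k) s = 0}) ∩
        {z | pe z.1 z.2 s = 0})))
  have hevc : ∀ (i j : J) (s : ℝ), Continuous fun z : ℝ × EJ J q => ev (z.2.1 i j) s := by
    intro i j s
    unfold ev
    fun_prop
  have huc : ∀ (p : ℝ[X]), Continuous fun z : ℝ × EJ J q => p.eval z.1 := fun p =>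
    p.continuous.comp continuous_fst
  have hpc : ∀ s, Continuous fun z : ℝ × EJ J q => pe z.1 z.2 s := by
    intro s
    simp only [pe, pr]
    refine Continuous.sub ?_ (by fun_prop)
    exact continuous_finsetSum _ fun i _ => continuous_finsetSum _ fun j _ =>
      ((huc _).mul (huc _)).mul (hevc i j s)
  have hK : IsCompact K := by
    refine (isCompact_Icc.prod (isCompact_sphere _ _)).inter_right ?_
    refine isClosed_iInter fun s => ?_
    refine (isClosed_iInter fun i => isClosed_eq (hevc _ _ s) continuous_const).inter ?_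
    refine (isClosed_iInter fun i => isClosed_iInter fun j =>
      isClosed_eq ((hevc _ _ s).add (hevc _ _ s)) continuous_const).inter ?_
    refine (isClosed_iInter fun i => isClosed_iInter fun j => isClosed_iInter fun k =>
      isClosed_iInter fun l => isClosed_eq ((((hevc _ _ s).mul (hevc _ _ s)).sub
        ((hevc _ _ s).mul (hevc _ _ s))).add ((hevc _ _ s).mul (hevc _ _ s)))
        continuous_const).inter ?_
    exact isClosed_eq (hpc s) continuous_const
  have h0 : (0 : ℝ) ∉ Prod.fst '' K := by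
    rintro ⟨⟨t, e⟩, ⟨⟨-, he⟩, hz⟩, ht⟩
    simp only at ht
    subst ht
    rw [mem_iInter] at hz
    have h1 : ∀ i s, ev (e.1 i i) s = 0 := fun i s => mem_iInter.1 (hz s).1 i
    have h2 : ∀ i j s, ev (e.1 i j) s + ev (e.1 j i) s = 0 := fun i j s =>
      mem_iInter.1 (mem_iInter.1 (hz s).2.1 i) j
    have h3 : ∀ i j k l s, ev (e.1 i j) s * ev (e.1 k l) s - ev (e.1 i k) s * ev (e.1 j l) s +
        ev (e.1 i l) s * ev (e.1 j k) s = 0 := fun i j k l s =>
      mem_iInter.1 (mem_iInter.1 (mem_iInter.1 (mem_iInter.1 (hz s).2.2.1 i) j) k) l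
    have h4 : ∀ s, pe 0 e s = 0 := fun s => (hz s).2.2.2
    have hd : Dec fun i j => pol (e.1 i j) := by
      refine ⟨fun i => ?_, fun i j => ?_, fun i j k l => ?_⟩
      · refine Polynomial.funext fun s => ?_
        rw [eval_pol, h1, eval_zero]
      · refine Polynomial.funext fun s => ?_
        rw [eval_neg, eval_pol, eval_pol]
        linarith [h2 i j s]
      · refine Polynomial.funext fun s => ?_
        simp only [eval_add, eval_sub, eval_mul, eval_pol, eval_zero]
        exact h3 i j k l s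
    have hp : pr y1 y2 (fun i j => pol (e.1 i j)) = C e.2 * φ := by
      refine Polynomial.funext fun s => ?_
      rw [eval_pr, eval_mul, eval_C]
      simp only [eval_pol]
      have h5 := h4 s
      simp only [pe, ← eval_sp, hU, hV] at h5
      linarith
    have hx := hbase _ hd (fun i j => pol_natDegree (e.1 i j)) _ hp
    have ha : e.2 = 0 := by
      rw [hx] at hp
      have h6 : C e.2 * φ = 0 := by
        rw [← hp]
        simp [pr]
      rcases mul_eq_zero.1 h6 with h7 | h7
      · exact C_eq_zero.1 h7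
      · exact absurd h7 hφ
    have he0 : e = 0 := by
      refine Prod.ext ?_ ha
      funext i j k
      have h3 : pol (e.1 i j) = 0 := congrFun (congrFun hx i) j
      rw [← pol_coeff (e.1 i j) k, h3]
      simp
    rw [he0] at he
    simp at he
  have hcl : IsOpen (Prod.fst '' K)ᶜ := (hK.image continuous_fst).isClosed.isOpen_compl
  obtain ⟨δ, hδ, hball⟩ := Metric.isOpen_iff.1 hcl 0 h0
  refine ⟨min δ 1, lt_min hδ one_pos, ?_⟩
  intro t ht x hd hx a hp
  by_contra hne
  let e : EJ J q := (fun i j k => (x i j).coeff k, a)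
  have he : e ≠ 0 := by
    intro he
    apply hne
    funext i j
    ext k
    rcases Nat.lt_or_ge k (q + 1) with hk | hk
    · have := congrFun (congrFun (congrFun (congrArg Prod.fst he) i) j) ⟨k, hk⟩
      simpa [e] using this
    · rw [coeff_eq_zero_of_natDegree_lt (lt_of_le_of_lt (hx i j) hk)]
      simp
  have hr : 0 < ‖e‖ := norm_pos_iff.2 he
  have hev : ∀ i j s, ev ((‖e‖⁻¹ • e).1 i j) s = ‖e‖⁻¹ * (x i j).eval s := by
    intro i j s
    rw [← ev_coeff (hx i j) s]
    unfold ev
    rw [Finset.mul_sum]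
    refine Finset.sum_congr rfl fun k _ => ?_
    show ‖e‖⁻¹ * (x i j).coeff k * s ^ (k : ℕ) = ‖e‖⁻¹ * ((x i j).coeff k * s ^ (k : ℕ))
    ring
  have hmem : (t, ‖e‖⁻¹ • e) ∈ K := by
    refine ⟨⟨?_, ?_⟩, ?_⟩
    · have := abs_le.1 (ht.le.trans (min_le_right _ _))
      exact ⟨this.1, this.2⟩
    · rw [mem_sphere_zero_iff_norm, norm_smul, norm_inv, norm_norm, inv_mul_cancel₀ hr.ne']
    · rw [mem_iInter]
      intro s
      refine ⟨?_, ?_, ?_, ?_⟩
      · refine mem_iInter.2 fun i => ?_
        show ev ((‖e‖⁻¹ • e).1 i i) s = 0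
        rw [hev, hd.1 i, eval_zero, mul_zero]
      · refine mem_iInter.2 fun i => mem_iInter.2 fun j => ?_
        show ev ((‖e‖⁻¹ • e).1 i j) s + ev ((‖e‖⁻¹ • e).1 j i) s = 0
        rw [hev, hev, hd.2.1 i j, eval_neg]
        ring
      · refine mem_iInter.2 fun i => mem_iInter.2 fun j => mem_iInter.2 fun k =>
          mem_iInter.2 fun l => ?_
        show ev ((‖e‖⁻¹ • e).1 i j) s * ev ((‖e‖⁻¹ • e).1 k l) s -
          ev ((‖e‖⁻¹ • e).1 i k) s * ev ((‖e‖⁻¹ • e).1 j l) s +
          ev ((‖e‖⁻¹ • e).1 i l) s * ev ((‖e‖⁻¹ • e).1 j k) s = 0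
        have h1 := congrArg (eval s) (hd.2.2 i j k l)
        simp only [eval_add, eval_sub, eval_mul, eval_zero] at h1
        simp only [hev]
        linear_combination ‖e‖⁻¹ ^ 2 * h1
      · show pr _ _ (fun i j => ev ((‖e‖⁻¹ • e).1 i j) s) - (‖e‖⁻¹ • e).2 * φ.eval s = 0
        have h1 := congrArg (eval s) hp
        rw [eval_pr, eval_mul, eval_C] at h1
        simp only [eval_sp] at h1
        simp only [hev]
        have h3 : (‖e‖⁻¹ • e).2 = ‖e‖⁻¹ * a := rfl
        have h4 : ∀ (u v : J → ℝ) (w : J → J → ℝ),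
            pr u v (fun i j => ‖e‖⁻¹ * w i j) = ‖e‖⁻¹ * pr u v w := by
          intro u v w
          unfold pr
          rw [Finset.mul_sum]
          refine Finset.sum_congr rfl fun i _ => ?_
          rw [Finset.mul_sum]
          exact Finset.sum_congr rfl fun j _ => by ring
        rw [h3, h4, h1]
        ring
  have htb : t ∈ Metric.ball (0 : ℝ) δ := by
    rw [Metric.mem_ball, dist_zero_right, Real.norm_eq_abs]
    exact ht.trans_le (min_le_left _ _)
  exact hball htb ⟨_, hmem, rfl⟩

end Pool.Agent.H53.DP
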