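import Pool.Agent.H53.DP.BaseP
import Pool.Agent.H53.DP.DecX
import Pool.Agent.H53.DP.DegX
import Pool.Agent.H53.DP.Par
import Pool.Agent.H53.DP.Coord
import Pool.Agent.H53.DP.Rob

/-!
# Generic real pole placement by dynamic compensators, `p = 2`, `m` even

For `p = 2`, `m = 2 k` and every `q ≥ 1`, real pole placement by compensators of McMillan degree `q`
fails for an open set of real systems of McMillan degree `n`, for all `n ≥ q (m + 1) + 2 m`: the
necessary bound `n ≤ q (m + p - 1) + m p` is never attained. Together with the theorem of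
Rosenthal and Wang this determines the answer for `p = 2`, `m` and `q` even.
-/

set_option autoImplicit false

open Polynomial

namespace Pool.Agent.H53.DP.EvenInputs

/-- The polynomial matrix `P` has full row rank and McMillan degree `n`: the largest degree of a
full-size minor is `n` (and this minor is not zero). -/
def IsSystem {r : ℕ} {J : Type} (n : ℕ) (P : Matrix (Fin r) J ℝ[X]) : Prop :=
  (∀ e : Fin r → J, (P.submatrix id e).det.natDegree ≤ n) ∧
    ∃ e : Fin r → J, (P.submatrix id e).det ≠ 0 ∧ (P.submatrix id e).det.natDegree = n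

/-- There is a real system (of rank `m`) of McMillan degree `q` whose interconnection with the
system of `P₁` is regular and has the characteristic polynomial `φ` (up to a nonzero
constant). -/
def Assignable {m p : ℕ} (q : ℕ) (P₁ : Matrix (Fin p) (Fin p ⊕ Fin m) ℝ[X]) (φ : ℝ[X]) : Prop :=
  ∃ P₂ : Matrix (Fin m) (Fin p ⊕ Fin m) ℝ[X], IsSystem q P₂ ∧
    (Matrix.fromRows P₁ P₂).det ≠ 0 ∧
      ∃ c : ℝ, c ≠ 0 ∧ (Matrix.fromRows P₁ P₂).det = C c * φ

/-- The `p × (m + p)` matrices with entries of degree at most `n`, of full row rank, whose largest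
degree of a maximal minor is `n`. -/
def coeffSpace (m p n : ℕ) : Set (Matrix (Fin p) (Fin p ⊕ Fin m) ℝ[X]) :=
  {P | (∀ i j, (P i j).natDegree ≤ n) ∧ IsSystem n P}

/-- The value of a polynomial `f` at the coefficient vector of `P`. -/
noncomputable def evalAt {m p n : ℕ} (P : Matrix (Fin p) (Fin p ⊕ Fin m) ℝ[X])
    (f : MvPolynomial (Fin p × (Fin p ⊕ Fin m) × Fin (n + 1)) ℝ) : ℝ :=
  MvPolynomial.eval (fun v => (P v.1 v.2.1).coeff v.2.2) f

/-- The Zariski-open subset of `coeffSpace m p n` where some member of `F` does not vanish. -/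
def zariskiOpen (m p n : ℕ) (F : Set (MvPolynomial (Fin p × (Fin p ⊕ Fin m) × Fin (n + 1)) ℝ)) :
    Set (Matrix (Fin p) (Fin p ⊕ Fin m) ℝ[X]) :=
  {P | P ∈ coeffSpace m p n ∧ ∃ f ∈ F, evalAt P f ≠ 0}

/-- `U` is Zariski-dense in `coeffSpace m p n`: a polynomial in the coefficients which vanishes on
`U` vanishes on `coeffSpace m p n`. -/
def ZariskiDense (m p n : ℕ) (U : Set (Matrix (Fin p) (Fin p ⊕ Fin m) ℝ[X])) : Prop :=
  ∀ g : MvPolynomial (Fin p × (Fin p ⊕ Fin m) × Fin (n + 1)) ℝ,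
    (∀ P ∈ U, evalAt P g = 0) → ∀ P ∈ coeffSpace m p n, evalAt P g = 0

/-- The property of the question: for a generic set of real systems of rank `p` and McMillan
degree `n`, every real polynomial of degree `n + q` is assignable. -/
def PoleAssignable (m p n q : ℕ) : Prop :=
  ∃ F : Set (MvPolynomial (Fin p × (Fin p ⊕ Fin m) × Fin (n + 1)) ℝ),
    ZariskiDense m p n (zariskiOpen m p n F) ∧
      ∀ P₁ ∈ zariskiOpen m p n F, ∀ φ : ℝ[X], φ.natDegree = n + q → Assignable q P₁ φ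

open Pool.Agent.H69.PP Pool.Agent.H53.DP

theorem det_two {J : Type} (P : Matrix (Fin 2) J ℝ[X]) (e : Fin 2 → J) :
    (P.submatrix id e).det = P 0 (e 0) * P 1 (e 1) - P 0 (e 1) * P 1 (e 0) := by
  rw [Matrix.det_fin_two]
  rfl

theorem isSystem_of {J : Type} {n : ℕ} {P : Matrix (Fin 2) J ℝ[X]}
    (h : ∀ j k, (P 0 j * P 1 k - P 0 k * P 1 j).natDegree ≤ n) {j k : J}
    (hjk : (P 0 j * P 1 k - P 0 k * P 1 j).coeff n ≠ 0) : IsSystem n P := by
  refine ⟨fun e => by rw [det_two]; exact h _ _, ![j, k], ?_⟩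
  rw [det_two]
  have h0 : P 0 (![j, k] 0) * P 1 (![j, k] 1) - P 0 (![j, k] 1) * P 1 (![j, k] 0) =
      P 0 j * P 1 k - P 0 k * P 1 j := rfl
  rw [h0]
  refine ⟨?_, le_antisymm (h j k) (le_natDegree_of_ne_zero hjk)⟩
  intro h1
  rw [h1] at hjk
  simp at hjk

theorem IsSystem.wedge {J : Type} {n : ℕ} {P : Matrix (Fin 2) J ℝ[X]} (h : IsSystem n P)
    (j k : J) : (P 0 j * P 1 k - P 0 k * P 1 j).natDegree ≤ n := by
  have := h.1 ![j, k]
  rw [det_two] at this
  exact this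

theorem IsSystem.exists_wedge {J : Type} {n : ℕ} {P : Matrix (Fin 2) J ℝ[X]}
    (h : IsSystem n P) : ∃ j k, (P 0 j * P 1 k - P 0 k * P 1 j).coeff n ≠ 0 := by
  obtain ⟨e, he, hn⟩ := h.2
  rw [det_two] at he hn
  refine ⟨e 0, e 1, ?_⟩
  rw [← hn]
  exact leadingCoeff_ne_zero.2 he

theorem eval_aeval (t : ℝ) {σ : Type} (g : σ → ℝ[X]) (f : MvPolynomial σ ℝ) :
    (MvPolynomial.aeval g f).eval t = MvPolynomial.eval (fun v => (g v).eval t) f := by
  induction f using MvPolynomial.induction_on with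
  | C a => simp
  | add p q hp hq => rw [map_add, map_add, eval_add, hp, hq]
  | mul_X p v hp => rw [map_mul, map_mul, eval_mul, hp, MvPolynomial.aeval_X, MvPolynomial.eval_X]

/-- the special plant -/
theorem special {k n q : ℕ} (hk : 1 ≤ k) (hq : 1 ≤ q) (hn : q * (2 * k + 1) + 4 * k ≤ n) :
    ∃ (φ : ℝ[X]) (y1 y2 : Fin 2 ⊕ Fin (2 * k) → ℝ[X]), φ.natDegree = n + q ∧
      (∀ j, (y1 j).natDegree ≤ n / 2) ∧ (∀ j, (y2 j).natDegree ≤ n / 2) ∧
      ∀ x : Fin 2 ⊕ Fin (2 * k) → Fin 2 ⊕ Fin (2 * k) → ℝ[X], Dec x →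
        (∀ i j, (x i j).natDegree ≤ q) → ∀ a : ℝ, pr y1 y2 x = C a * φ → x = 0 := by
  obtain ⟨l, φ, hl, hφ, h⟩ := baseP hk hq hn
  have hcard : Fintype.card (Fin 2 ⊕ Fin (2 * k)) = Fintype.card (Fin (k + 1) × Bool) := by
    simp
    ring
  let σ : Fin 2 ⊕ Fin (2 * k) ≃ Fin (k + 1) × Bool := Fintype.equivOfCardEq hcard
  obtain ⟨y1, y2, h1, h2, h3⟩ := exists_rows σ hl
  refine ⟨φ, y1, y2, hφ, h1, h2, fun x hx hxq a ha => ?_⟩
  by_contra h0
  obtain ⟨q1, q2, u, v, h12, hqq, hu, hv, hx2, hT⟩ := exists_reduced hx h0 hxq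
  have hx3 : x = fun i j => u i * v j - u j * v i := by
    funext i j
    exact hx2 i j
  have h4 := h3 u v
  rw [← hx3, ha] at h4
  exact h q1 q2 h12 hqq (hat σ u) (hat σ v) (dg_hat σ hu) (dg_hat σ hv) (ti_hat σ hT) a h4

/-- **Theorem.** For `p = 2`, `m = 2 k` even (`k ≥ 1`) and all `q ≥ 1`, `n ≥ q (m + 1) + 2 m` the property of
the question fails. -/
theorem result (k q n : ℕ) (hk : 1 ≤ k) (hq : 1 ≤ q) (hn : q * (2 * k + 1) + 4 * k ≤ n) :
    ¬ PoleAssignable (2 * k) 2 n q := by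
  classical
  rintro ⟨F, hdense, hprop⟩
  obtain ⟨φ, y1, y2, hφ, hr0, hr1, hspec⟩ := special hk hq hn
  have hφ0 : φ ≠ 0 := by
    rintro rfl
    rw [natDegree_zero] at hφ
    omega
  -- the pivots as a polynomial
  obtain ⟨h, hh⟩ := exists_hpoly (J := Fin 2 ⊕ Fin (2 * k)) (Sum.inl 0) n n
  let s : Fin 2 × (Fin 2 ⊕ Fin (2 * k)) × ℕ →
      MvPolynomial (Fin 2 × (Fin 2 ⊕ Fin (2 * k)) × Fin (n + 1)) ℝ :=
    fun v => if hk : v.2.2 < n + 1 then MvPolynomial.X (v.1, v.2.1, ⟨v.2.2, hk⟩) else 0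
  have hg : ∀ P ∈ coeffSpace (2 * k) 2 n, evalAt P (MvPolynomial.bind₁ s h) =
      hval (Sum.inl 0) n n (P 0) (P 1) := by
    intro P hP
    rw [← hh]
    have h1 : evalAt P (MvPolynomial.bind₁ s h) = MvPolynomial.eval (fun v => evalAt P (s v)) h := by
      unfold evalAt
      simp only [← MvPolynomial.coe_aeval_eq_eval, RingHom.coe_coe]
      exact MvPolynomial.aeval_bind₁ _ _ _
    rw [h1]
    congr 2
    funext v
    obtain ⟨i, j, k⟩ := v
    have h2 : Pool.Agent.H69.PP.cf (P 0) (P 1) (i, j, k) = (P i j).coeff k := by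
      fin_cases i <;> simp [Pool.Agent.H69.PP.cf]
    rw [h2]
    by_cases hk : k < n + 1
    · have h3 : s (i, j, k) = MvPolynomial.X (i, j, ⟨k, hk⟩) := dif_pos hk
      rw [h3, evalAt, MvPolynomial.eval_X]
    · have h3 : s (i, j, k) = 0 := dif_neg hk
      rw [h3, evalAt, map_zero, coeff_eq_zero_of_natDegree_lt]
      have := hP.1 i j
      omega
  have hex : ∃ P ∈ zariskiOpen (2 * k) 2 n F, hval (Sum.inl 0) n n (P 0) (P 1) ≠ 0 := by
    by_contra hcon
    push Not at hcon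
    have h1 := hdense (MvPolynomial.bind₁ s h) (fun P hP => by rw [hg P hP.1]; exact hcon P hP)
    obtain ⟨u, v, hb, hne, -, -, hw⟩ := exists_point (J := Fin 2 ⊕ Fin (2 * k))
      (j0 := Sum.inl 0) (j1 := Sum.inl 1) (by simp) n n
    let P : Matrix (Fin 2) (Fin 2 ⊕ Fin (2 * k)) ℝ[X] := Matrix.of ![u, v]
    have hP : P ∈ coeffSpace (2 * k) 2 n := by
      refine ⟨?_, isSystem_of (j := Sum.inl 0) (k := Sum.inl 1) hb.2.2 ?_⟩
      · intro i j
        fin_cases i
        · exact (hb.1 j).trans (by omega)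
        · exact (hb.2.1 j).trans (by omega)
      · show (u (Sum.inl 0) * v (Sum.inl 1) - u (Sum.inl 1) * v (Sum.inl 0)).coeff n ≠ 0
        rw [hw]
        simp
    have h2 := h1 P hP
    rw [hg P hP] at h2
    exact hne h2
  obtain ⟨P, ⟨hP, f, hfF, hf⟩, hval0⟩ := hex
  have hBd : Bd n (n + n) (P 0) (P 1) := by
    refine ⟨fun j => (hP.1 0 j).trans (by omega), fun j => (hP.1 1 j).trans (by omega), ?_⟩
    exact hP.2.wedge
  obtain ⟨U, V, hUV, hU0, hV0, hU1, hV1⟩ := exists_path (j0 := Sum.inl 0) hr0 hr1 n _ _ hBd hval0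
  obtain ⟨δ, hδ, hrob⟩ := rob hφ0 hspec hU0 hV0
  let Pt : ℝ → Matrix (Fin 2) (Fin 2 ⊕ Fin (2 * k)) ℝ[X] := fun t =>
    Matrix.of ![fun j => sp t (U j), fun j => sp t (V j)]
  let g : Fin 2 × (Fin 2 ⊕ Fin (2 * k)) × Fin (n + 1) → ℝ[X] := fun v =>
    (if v.1 = 0 then U v.2.1 else V v.2.1).coeff v.2.2
  have hspc : ∀ (t : ℝ) (p : ℝ[X][X]) (k : ℕ), (sp t p).coeff k = (p.coeff k).eval t := by
    intro t p k
    simp [sp]
  have hF1 : ∀ t, (MvPolynomial.aeval g f).eval t = evalAt (Pt t) f := by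
    intro t
    rw [eval_aeval]
    unfold evalAt
    congr 2
    funext v
    obtain ⟨i, j, k⟩ := v
    fin_cases i
    · exact (hspc t (U j) k).symm
    · exact (hspc t (V j) k).symm
  have hPt1 : Pt 1 = P := by
    funext i j
    fin_cases i
    · exact hU1 j
    · exact hV1 j
  obtain ⟨j, k', hjk⟩ := hP.2.exists_wedge
  have hE1 : ∀ t, ((U j * V k' - U k' * V j).coeff n).eval t =
      (Pt t 0 j * Pt t 1 k' - Pt t 0 k' * Pt t 1 j).coeff n := by
    intro t
    rw [← hspc, map_sub, map_mul, map_mul]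
    rfl
  set Z : ℝ[X] := MvPolynomial.aeval g f * (U j * V k' - U k' * V j).coeff n with hZ
  have hZ0 : Z ≠ 0 := by
    intro h0
    have h1 := congrArg (eval 1) h0
    rw [hZ, eval_mul, hF1, hE1, hPt1, eval_zero] at h1
    rcases mul_eq_zero.1 h1 with h2 | h2
    · exact hf h2
    · exact hjk h2
  have hfin : (Z.roots.toFinset : Set ℝ).Finite := Finset.finite_toSet _
  obtain ⟨t, ⟨ht0, htδ⟩, hroot⟩ := ((Set.Ioo_infinite hδ).sdiff hfin).nonempty
  have hZt : Z.eval t ≠ 0 := by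
    intro h0
    apply hroot
    rw [Finset.mem_coe, Multiset.mem_toFinset, mem_roots hZ0]
    exact h0
  rw [hZ, eval_mul, hF1, hE1] at hZt
  have hsd : ∀ (p : ℝ[X][X]), (sp t p).natDegree ≤ p.natDegree := fun p => natDegree_map_le
  have hPt : Pt t ∈ zariskiOpen (2 * k) 2 n F := by
    refine ⟨⟨?_, isSystem_of ?_ (right_ne_zero_of_mul hZt)⟩, f, hfF, left_ne_zero_of_mul hZt⟩
    · intro i j
      fin_cases i
      · exact (hsd _).trans ((hUV.1 j).trans (by omega))
      · exact (hsd _).trans ((hUV.2.1 j).trans (by omega))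
    · intro a b
      have h1 : Pt t 0 a * Pt t 1 b - Pt t 0 b * Pt t 1 a = sp t (U a * V b - U b * V a) := by
        rw [map_sub, map_mul, map_mul]
        rfl
      rw [h1]
      exact (hsd _).trans (hUV.2.2 a b)
  obtain ⟨P₂, hP₂, hne, c, hc, hdet⟩ := hprop _ hPt φ hφ
  have habs : |t| < δ := by
    rw [abs_of_pos ht0]
    exact htδ
  rw [det_fromRows_pr] at hdet hne
  have hx0 : XX P₂ = 0 := hrob t habs (XX P₂) (dec_XX P₂) (XX_natDegree hP₂.1) c hdet
  apply hne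
  rw [hx0]
  simp [pr]

end Pool.Agent.H53.DP.EvenInputs
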