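import Pool.Agent.H53.DP.Base

/-!
# Module Fac: two complex polynomials with a real ratio

PROOF. Let `d = gcd a b` (`EuclideanDomain.gcd`, nonzero as `a ≠ 0`), normalised to be monic:
`g = C (leadingCoeff d)⁻¹ * d`, `a = a' * g`, `b = b' * g`, `IsCoprime a' b'`
(`EuclideanDomain.isCoprime_div_gcd_div_gcd` or Bezout). Cancel `g * cj g` (`cj g ≠ 0`) in
`cj a * b = a * cj b`: `cj a' * b' = a' * cj b'`. Hence `a' ∣ cj a'` (coprime to `b'`), equal degrees
(`natDegree_cj`), `a' ≠ 0`, so `cj a' = C c * a'` with `c ≠ 0`; then `cj b' = C c * b'` (cancel `a'`).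
Applying `cj` twice: `conj c * c = 1`, i.e. `‖c‖ = 1`. Choose `ω` with `ω ^ 2 = conj c`
(`IsAlgClosed.exists_pow_nat_eq` or `IsSquare`); `‖ω‖ = 1`, so `conj ω * ω = 1`. Then
`cj (C ω⁻¹ * a') = C ω * C c * a' = C (ω ^ 2 * c) * C ω⁻¹ * a' = C ω⁻¹ * a'`, the same for `b'`:
`real_of_cj` gives `α`, `β` with `C ω⁻¹ * a' = cc α`, `C ω⁻¹ * b' = cc β`.
Degrees: `natDegree_mul`, `natDegree_C_mul` (`ω ≠ 0`), `natDegree_cc`; `β = 0` is trivial.
-/

set_option autoImplicit false

open Polynomial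

namespace Pool.Agent.H53.DP

theorem real_ratio {a b : ℂ[X]} (ha : a ≠ 0) (h : cj a * b = a * cj b) :
    ∃ (g : ℂ[X]) (α β : ℝ[X]) (ω : ℂ), g.Monic ∧ (starRingEnd ℂ) ω * ω = 1 ∧
      a = C ω * (cc α * g) ∧ b = C ω * (cc β * g) ∧ α ≠ 0 ∧
      (∀ n, a.natDegree ≤ n → α.natDegree + g.natDegree ≤ n) ∧
      (∀ n, b.natDegree ≤ n → g.natDegree ≤ n → β.natDegree + g.natDegree ≤ n) := by
  set d := EuclideanDomain.gcd a b with hd
  have hd0 : d ≠ 0 := fun h0 => ha (EuclideanDomain.gcd_eq_zero_iff.1 h0).1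
  set g := d * C d.leadingCoeff⁻¹ with hgd
  have hg : g.Monic := monic_mul_leadingCoeff_inv hd0
  have hg0 : g ≠ 0 := hg.ne_zero
  have hlc : d.leadingCoeff ≠ 0 := leadingCoeff_ne_zero.2 hd0
  have hdg : d = g * C d.leadingCoeff := by
    rw [hgd, mul_assoc, ← C_mul, inv_mul_cancel₀ hlc, C_1, mul_one]
  have hga : g ∣ a := by
    obtain ⟨t, ht⟩ := EuclideanDomain.gcd_dvd_left a b
    exact ⟨C d.leadingCoeff * t, by rw [← mul_assoc, ← hdg]; exact ht⟩
  have hgb : g ∣ b := by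
    obtain ⟨t, ht⟩ := EuclideanDomain.gcd_dvd_right a b
    exact ⟨C d.leadingCoeff * t, by rw [← mul_assoc, ← hdg]; exact ht⟩
  obtain ⟨a', ha'⟩ := hga
  obtain ⟨b', hb'⟩ := hgb
  have hco : IsCoprime a' b' := by
    refine ⟨EuclideanDomain.gcdA a b * C d.leadingCoeff⁻¹,
      EuclideanDomain.gcdB a b * C d.leadingCoeff⁻¹, mul_left_cancel₀ hg0 ?_⟩
    have h1 : d = a * EuclideanDomain.gcdA a b + b * EuclideanDomain.gcdB a b :=
      EuclideanDomain.gcd_eq_gcd_ab a b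
    calc g * (EuclideanDomain.gcdA a b * C d.leadingCoeff⁻¹ * a' +
          EuclideanDomain.gcdB a b * C d.leadingCoeff⁻¹ * b')
        = ((g * a') * EuclideanDomain.gcdA a b + (g * b') * EuclideanDomain.gcdB a b) *
          C d.leadingCoeff⁻¹ := by ring
      _ = d * C d.leadingCoeff⁻¹ := by rw [← ha', ← hb', ← h1]
      _ = g * 1 := by rw [← hgd, mul_one]
  have ha0' : a' ≠ 0 := by
    rintro rfl
    exact ha (by rw [ha', mul_zero])
  have hcg0 : cj g ≠ 0 := fun h0 => hg0 (cj_injective (by rw [h0, map_zero]))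
  have h2 : cj a' * b' = a' * cj b' := by
    refine mul_left_cancel₀ (mul_ne_zero hg0 hcg0) ?_
    have h3 : cj a = cj g * cj a' := by rw [ha', map_mul]
    have h4 : cj b = cj g * cj b' := by rw [hb', map_mul]
    rw [h3, h4] at h
    calc g * cj g * (cj a' * b') = cj g * cj a' * (g * b') := by ring
      _ = cj g * cj a' * b := by rw [← hb']
      _ = a * (cj g * cj b') := h
      _ = g * a' * (cj g * cj b') := by rw [← ha']
      _ = g * cj g * (a' * cj b') := by ring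
  obtain ⟨s, hs⟩ : a' ∣ cj a' := hco.dvd_of_dvd_mul_right ⟨cj b', h2⟩
  have hca0 : cj a' ≠ 0 := fun h0 => ha0' (cj_injective (by rw [h0, map_zero]))
  have hs0 : s ≠ 0 := by
    rintro rfl
    exact hca0 (by rw [hs, mul_zero])
  obtain ⟨c, rfl⟩ : ∃ c, s = C c := by
    refine ⟨s.coeff 0, eq_C_of_natDegree_eq_zero ?_⟩
    have h3 := congrArg natDegree hs
    rw [natDegree_cj, natDegree_mul ha0' hs0] at h3
    omega
  have hb2 : cj b' = C c * b' := by
    refine mul_left_cancel₀ ha0' ?_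
    rw [← h2, hs]
    ring
  have hcc : (starRingEnd ℂ) c * c = 1 := by
    have h3 := congrArg cj hs
    rw [cj_cj, map_mul, cj_C, hs] at h3
    have h4 : a' * C ((starRingEnd ℂ) c * c) = a' * 1 := by
      rw [C_mul, mul_one]
      linear_combination -h3
    have h5 := mul_left_cancel₀ ha0' h4
    rw [← C_1] at h5
    exact C_injective h5
  obtain ⟨ω, hω⟩ := IsAlgClosed.exists_pow_nat_eq ((starRingEnd ℂ) c) (n := 2) two_pos
  have hωω : (starRingEnd ℂ) ω * ω = 1 := by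
    have h3 : ((starRingEnd ℂ) ω * ω) ^ 2 = 1 := by
      rw [mul_pow, ← map_pow, hω, Complex.conj_conj, mul_comm]
      exact hcc
    rw [← Complex.normSq_eq_conj_mul_self] at h3 ⊢
    have h4 : Complex.normSq ω ^ 2 = 1 := by exact_mod_cast h3
    have h5 : Complex.normSq ω = 1 := by
      have := Complex.normSq_nonneg ω
      nlinarith
    rw [h5, Complex.ofReal_one]
  have hω0 : ω ≠ 0 := by
    rintro rfl
    simp at hωω
  have hinv : (starRingEnd ℂ) ω⁻¹ = ω := by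
    rw [map_inv₀]
    exact inv_eq_of_mul_eq_one_right hωω
  have hωc : ω * c = ω⁻¹ := by
    refine eq_inv_of_mul_eq_one_left ?_
    calc ω * c * ω = ω ^ 2 * c := by ring
      _ = 1 := by rw [hω, hcc]
  have hreal : ∀ t : ℂ[X], cj t = C c * t → cj (C ω⁻¹ * t) = C ω⁻¹ * t := by
    intro t ht
    rw [map_mul, cj_C, hinv, ht, ← mul_assoc, ← C_mul, hωc]
  obtain ⟨α, hα⟩ := real_of_cj (hreal a' (by rw [hs]; ring))
  obtain ⟨β, hβ⟩ := real_of_cj (hreal b' hb2)
  have hback : ∀ t : ℂ[X], C ω * (C ω⁻¹ * t) = t := by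
    intro t
    rw [← mul_assoc, ← C_mul, mul_inv_cancel₀ hω0, C_1, one_mul]
  have e1 : a = C ω * (cc α * g) := by
    rw [← hα, ha']
    calc g * a' = (C ω * (C ω⁻¹ * a')) * g := by rw [hback]; ring
      _ = _ := by ring
  have e2 : b = C ω * (cc β * g) := by
    rw [← hβ, hb']
    calc g * b' = (C ω * (C ω⁻¹ * b')) * g := by rw [hback]; ring
      _ = _ := by ring
  have hα0 : α ≠ 0 := by
    rintro rfl
    exact ha (by rw [e1]; simp)
  have hdeg : ∀ (t : ℝ[X]), t ≠ 0 → (C ω * (cc t * g)).natDegree = t.natDegree + g.natDegree := by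
    intro t ht
    have h3 : cc t ≠ 0 := fun h0 => ht (cc_injective (by rw [h0, map_zero]))
    rw [natDegree_C_mul hω0, natDegree_mul h3 hg0, natDegree_cc]
  refine ⟨g, α, β, ω, hg, hωω, e1, e2, hα0, fun n hn => ?_, fun n hn hgn => ?_⟩
  · rw [e1, hdeg α hα0] at hn
    exact hn
  · rcases eq_or_ne β 0 with h0 | h0
    · rw [h0, natDegree_zero, zero_add]
      exact hgn
    · rw [e2, hdeg β h0] at hn
      exact hn

end Pool.Agent.H53.DP
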