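import Pool.Agent.H53.DP.Rho

/-!
# Module Gau: gauge directions reach all values of the normalisations

PROOF of `gauge_core`. Case `q1 = q2`: `x = ν 0`, `z = ν 1 / κ`, `w = C (ν 2)`, and component `3` of the result is
`y * κ`. Case `q1 < q2`: `x = ν 0`, `z = 0`, `w = C (ν 2) * X ^ d + C (ν 1 - ν 2 * s) * X ^ (d - 1)`; component `3` is
`ν 2 * rho c' q1 U + y * κ`; component `1` does not depend on `y` because `rho c (q2 - 1) V = 0`.
So for every `y` there is `e` (not depending on `y`) with component `3 = e + y * κ`.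
-/

set_option autoImplicit false

open Polynomial

namespace Pool.Agent.H53.DP

variable {k : ℕ}

theorem gauge_core {q1 q2 : ℕ} (hq : q1 ≤ q2) {U V : Fin (k + 1) → ℂ[X]} (hU : Dg q1 U)
    {c c' : Fin (k + 1) × Bool} {κ : ℝ} (hκ : κ ≠ 0) (h : LM q1 q2 c c' U V = ![1, 0, 0, κ])
    (ν : Fin 3 → ℝ) :
    ∃ (x z e : ℝ) (w : ℝ[X]), (q1 < q2 → z = 0) ∧ w.natDegree ≤ q2 - q1 ∧
      ∀ y : ℝ, LM q1 q2 c c' (aU x z U V) (aV w y U V) = ![ν 0, ν 1, ν 2, e + y * κ] := by
  have h0 : rho c q1 U = 1 := by rw [← LM_zero q1 q2 c c' U V, h]; rfl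
  have h2 : rho c q2 V = 0 := by rw [← LM_two q1 q2 c c' U V, h]; rfl
  have h3 : rho c' q2 V = κ := by rw [← LM_three q1 q2 c c' U V, h]; rfl
  rcases hq.lt_or_eq with hlt | heq
  · obtain ⟨d, rfl⟩ : ∃ d, q2 = q1 + d := ⟨q2 - q1, by omega⟩
    have hd : 1 ≤ d := by omega
    have h1 : rho c (q1 + d - 1) V = 0 := by
      rw [← LM_one_ne (by omega : q1 ≠ q1 + d) c c' U V, h]; rfl
    set s0 : ℝ := if q1 = 0 then 0 else rho c (q1 - 1) U with hs0
    refine ⟨ν 0, 0, ν 2 * rho c' q1 U, C (ν 2) * X ^ d + C (ν 1 - ν 2 * s0) * X ^ (d - 1),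
      fun _ => rfl, ?_, fun y => ?_⟩
    · rw [Nat.add_sub_cancel_left]
      refine (natDegree_add_le_of_le (n := d) ((natDegree_C_mul_X_pow_le _ _))
        ((natDegree_C_mul_X_pow_le _ _).trans (by omega))).trans (max_self d).le
    · funext i
      fin_cases i
      · show LM q1 (q1 + d) c c' _ _ 0 = ν 0
        rw [LM_zero, rho_aU, h0]
        ring
      · show LM q1 (q1 + d) c c' _ _ 1 = ν 1
        rw [LM_one_ne (by omega), rho_pre hd, ← hs0, h0, h1]
        ring
      · show LM q1 (q1 + d) c c' _ _ 2 = ν 2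
        rw [LM_two, rho_top hd hU, h0, h2]
        ring
      · show LM q1 (q1 + d) c c' _ _ 3 = ν 2 * rho c' q1 U + y * κ
        rw [LM_three, rho_top hd hU, h3]
  · subst heq
    have h1 : rho c' q1 U = 0 := by rw [← LM_one_eq rfl c c' U V, h]; rfl
    refine ⟨ν 0, ν 1 / κ, 0, C (ν 2), fun h => absurd h (lt_irrefl _), ?_, fun y => ?_⟩
    · rw [natDegree_C]
      exact Nat.zero_le _
    · funext i
      fin_cases i
      · show LM q1 q1 c c' _ _ 0 = ν 0
        rw [LM_zero, rho_aU, h0, h2]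
        ring
      · show LM q1 q1 c c' _ _ 1 = ν 1
        rw [LM_one_eq rfl, rho_aU, h1, h3]
        field_simp
        ring
      · show LM q1 q1 c c' _ _ 2 = ν 2
        rw [LM_two, rho_aV_C, h0, h2]
        ring
      · show LM q1 q1 c c' _ _ 3 = 0 + y * κ
        rw [LM_three, rho_aV_C, h1, h3]
        ring

end Pool.Agent.H53.DP
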