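import Pool.Agent.H53.DP.MemBad

/-!
# Module GoodL: a special plant without base points

PROOF of `goodL`. Finitely many sets: `BadII` for `q1 ≤ q2`, `q1 + q2 ≤ q`, `γ ≤ D + q1`, all `c, c'`;
`BadA` for `2 δ ≤ q` (`k (δ + 1) < D + 1` from `hn`: `2 k δ + 2 k ≤ k q + 2 k ≤ q (2 k + 1) + 4 k < 2 D + 2`),
and `BadB`. Use `exists_not_mem` with `ι = (ℕ × ℕ × ℕ × (Fin (k+1) × Bool) × (Fin (k+1) × Bool)) ⊕
(ℕ × Fin (k + 1)) ⊕ Unit` and the finite set of admissible indices. `0 < finrank Y`. Take `y` outside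
all, `l = lp y`, and apply `mem_bad`.
-/

set_option autoImplicit false

open Polynomial Module

namespace Pool.Agent.H53.DP

theorem goodL {k D q : ℕ} (hk : 1 ≤ k) (hn : q * (2 * k + 1) + 4 * k < 2 * D + 2) :
    ∃ l : Fin (k + 1) → ℂ[X], Dg D l ∧ ∀ q1 q2 : ℕ, q1 ≤ q2 → q1 + q2 ≤ q →
      ∀ U V : Fin (k + 1) → ℂ[X], Dg q1 U → Dg q2 V → TI q1 q2 U V →
        cj (dt l U) * dt l V ≠ dt l U * cj (dt l V) := by
  let ι := (ℕ × ℕ × ℕ × (Fin (k + 1) × Bool) × (Fin (k + 1) × Bool)) ⊕ (ℕ × Fin (k + 1)) ⊕ Unit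
  let S : ι → Set (Fin (k + 1) → Fin (D + 1) → ℂ) := Sum.elim
    (fun t => BadII k D t.1 t.2.1 t.2.2.1 t.2.2.2.1 t.2.2.2.2)
    (Sum.elim (fun t => BadA k D t.1 t.2) fun _ => BadB k D)
  let s1 : Set (ℕ × ℕ × ℕ × (Fin (k + 1) × Bool) × (Fin (k + 1) × Bool)) :=
    {t | t.1 ≤ t.2.1 ∧ t.1 + t.2.1 ≤ q ∧ t.2.2.1 ≤ D + t.1}
  let s2 : Set (ℕ × Fin (k + 1)) := {t | 2 * t.1 ≤ q}
  have hs1 : s1.Finite := by
    refine ((Set.finite_Iic q).prod ((Set.finite_Iic q).prod ((Set.finite_Iic (D + q)).prod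
      (Set.finite_univ (α := (Fin (k + 1) × Bool) × (Fin (k + 1) × Bool)))))).subset ?_
    rintro ⟨a, b, c, d⟩ ⟨h1, h2, h3⟩
    simp only [Set.mem_prod, Set.mem_Iic, Set.mem_univ, and_true]
    simp only at h1 h2 h3
    omega
  have hs2 : s2.Finite := by
    refine ((Set.finite_Iic q).prod (Set.finite_univ (α := Fin (k + 1)))).subset ?_
    rintro ⟨a, b⟩ h1
    simp only [s2, Set.mem_ofPred_eq] at h1
    simp only [Set.mem_prod, Set.mem_Iic, Set.mem_univ, and_true]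
    omega
  let s : Set ι := Sum.inl '' s1 ∪ (Sum.inr '' (Sum.inl '' s2) ∪ {Sum.inr (Sum.inr ())})
  have hs : s.Finite := (hs1.image _).union (((hs2.image _).image _).union (Set.finite_singleton _))
  have hY : 0 < finrank ℝ (Fin (k + 1) → Fin (D + 1) → ℂ) := by
    simp only [Module.finrank_pi_fintype, Complex.finrank_real_complex, Finset.sum_const,
      Finset.card_univ, Fintype.card_fin, smul_eq_mul]
    positivity
  obtain ⟨y, hy⟩ := exists_not_mem s hs S hY (by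
    rintro i (⟨⟨a, b, c, d, e⟩, ⟨h1, h2, h3⟩, rfl⟩ | ⟨_, ⟨⟨a, b⟩, h1, rfl⟩, rfl⟩ | hi)
    · refine dimH_BadII h1 h3 ?_ d e
      simp only at h2
      nlinarith
    · refine dimH_BadA ?_ b
      simp only [s2, Set.mem_ofPred_eq] at h1
      nlinarith
    · rw [Set.mem_singleton_iff] at hi
      subst hi
      exact dimH_BadB hk D)
  have h0 : Good0 D (lp y) := by
    by_contra hcon
    exact hy (Sum.inr (Sum.inr ())) (Or.inr (Or.inr rfl)) hcon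
  refine ⟨lp y, lp_dg y, fun q1 q2 hq hqq U V hU hV hT h => ?_⟩
  rcases mem_bad hq h0 hU hV hT h with ⟨a, ha⟩ | ⟨γ, c, c', hγ, hb⟩
  · refine hy (Sum.inr (Sum.inl (q1, a))) (Or.inr (Or.inl ⟨_, ⟨(q1, a), ?_, rfl⟩, rfl⟩)) ha
    show 2 * q1 ≤ q
    omega
  · exact hy (Sum.inl (q1, q2, γ, c, c')) (Or.inl ⟨_, ⟨hq, hqq, hγ⟩, rfl⟩) hb

end Pool.Agent.H53.DP
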