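import Pool.Agent.H53.DP.Base

/-!
# Module Ind: `U`, `V` are independent over `ℂ(X)` if `l·U`, `l·V` have a real ratio

PROOF. Otherwise `U a * V b = U b * V a` for all `a`, `b`; multiply by `l a` and sum over `a`:
`dt l U * V b = U b * dt l V` for all `b`. With `h1`, `h2`, `g ≠ 0` (`g` monic): `cc α * V b = cc β * U b`
for all `b` (cancel `g`). `α ≠ 0`. By `TI.ne_zero_left`, `TI.ne_zero_right` there are `a1` with
`(U a1).coeff q1 ≠ 0` (so `natDegree (U a1) = q1`) and `b1` with `(V b1).coeff q2 ≠ 0`. `β ≠ 0` as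
`V b1 ≠ 0`. Degrees in `cc α * V b = cc β * U b`: `b = b1`: `natDegree α + q2 = natDegree β +
natDegree (U b1) ≤ natDegree β + q1`; `b = a1`: `natDegree β + q1 = natDegree α + natDegree (V a1) ≤
natDegree α + q2`. So `n := natDegree α + q2 = natDegree β + q1`. The coefficient of `X ^ n`
(`coeff_mul_add_eq_of_natDegree_le`): `lc α * (V b).coeff q2 = lc β * (U b).coeff q1` for all `b`:
`TI` with `x = -lc β`, `y = lc α` gives `lc α = 0`, a contradiction.
-/

set_option autoImplicit false

open Polynomial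

namespace Pool.Agent.H53.DP

variable {k : ℕ}

theorem minor_ne_zero {q1 q2 : ℕ} {l U V : Fin (k + 1) → ℂ[X]} (hU : Dg q1 U) (hV : Dg q2 V)
    (hT : TI q1 q2 U V) {α β : ℝ[X]} {g : ℂ[X]} (hg : g ≠ 0) (hα : α ≠ 0)
    (h1 : dt l U = cc α * g) (h2 : dt l V = cc β * g) :
    ∃ a b, U a * V b - U b * V a ≠ 0 := by
  by_contra hcon
  push Not at hcon
  have hα' : cc α ≠ 0 := fun h0 => hα (cc_injective (by rw [h0, map_zero]))
  have key : ∀ b, cc α * V b = cc β * U b := by
    intro b
    refine mul_right_cancel₀ hg ?_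
    have h3 : dt l U * V b = U b * dt l V := by
      unfold dt
      rw [Finset.sum_mul, Finset.mul_sum]
      refine Finset.sum_congr rfl fun a _ => ?_
      linear_combination l a * hcon a b
    rw [h1, h2] at h3
    linear_combination h3
  obtain ⟨a1, ha1⟩ := hT.ne_zero_left
  obtain ⟨b1, hb1⟩ := hT.ne_zero_right
  have hUa : U a1 ≠ 0 := by
    rintro h0
    rw [h0, coeff_zero] at ha1
    exact ha1 rfl
  have hVb : V b1 ≠ 0 := by
    rintro h0
    rw [h0, coeff_zero] at hb1
    exact hb1 rfl
  have hUad : (U a1).natDegree = q1 := le_antisymm (hU a1) (le_natDegree_of_ne_zero ha1)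
  have hVbd : (V b1).natDegree = q2 := le_antisymm (hV b1) (le_natDegree_of_ne_zero hb1)
  have hβ : β ≠ 0 := by
    rintro rfl
    have := key b1
    rw [map_zero, zero_mul] at this
    exact mul_ne_zero hα' hVb this
  have hβ' : cc β ≠ 0 := fun h0 => hβ (cc_injective (by rw [h0, map_zero]))
  have hUb : U b1 ≠ 0 := by
    rintro h0
    have := key b1
    rw [h0, mul_zero] at this
    exact mul_ne_zero hα' hVb this
  have hVa : V a1 ≠ 0 := by
    rintro h0
    have := key a1
    rw [h0, mul_zero] at this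
    exact mul_ne_zero hβ' hUa this.symm
  have d1 := congrArg natDegree (key b1)
  rw [natDegree_mul hα' hVb, natDegree_mul hβ' hUb, natDegree_cc, natDegree_cc, hVbd] at d1
  have d2 := congrArg natDegree (key a1)
  rw [natDegree_mul hα' hVa, natDegree_mul hβ' hUa, natDegree_cc, natDegree_cc, hUad] at d2
  have hUb' := hU b1
  have hVa' := hV a1
  have hn : α.natDegree + q2 = β.natDegree + q1 := by omega
  have hlc : ∀ b, α.leadingCoeff * (V b).coeff q2 = β.leadingCoeff * (U b).coeff q1 := by
    intro b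
    have h3 := congrArg (fun p => p.coeff (α.natDegree + q2)) (key b)
    rw [coeff_mul_add_eq_of_natDegree_le (natDegree_cc α).le (hV b), hn,
      coeff_mul_add_eq_of_natDegree_le (natDegree_cc β).le (hU b), cc_coeff, cc_coeff] at h3
    exact h3
  have := (hT (-β.leadingCoeff) α.leadingCoeff fun b => by
    have h3 := hlc b
    push_cast
    linear_combination h3).2
  exact hα (leadingCoeff_eq_zero.1 this)

/-- independence is invariant under a complex factor -/
theorem TI.smul {q1 q2 : ℕ} {U V : Fin (k + 1) → ℂ[X]} (hT : TI q1 q2 U V) {w : ℂ} (hw : w ≠ 0) :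
    TI q1 q2 (fun a => C w * U a) (fun a => C w * V a) := by
  intro x y h
  refine hT x y fun a => ?_
  have := h a
  rw [coeff_C_mul, coeff_C_mul] at this
  have h2 : w * ((x : ℂ) * (U a).coeff q1 + (y : ℂ) * (V a).coeff q2) = 0 := by
    linear_combination this
  exact (mul_eq_zero.1 h2).resolve_left hw

theorem Dg.smul {n : ℕ} {U : Fin (k + 1) → ℂ[X]} (hU : Dg n U) (p : ℂ) :
    Dg n (fun a => C p * U a) := fun a => (natDegree_C_mul_le _ _).trans (hU a)

end Pool.Agent.H53.DP
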