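import Pool.Agent.H53.DP.Base

/-!
# Module Lam: a good combination of the entries of `l`

PROOF. Take `ε a = t ^ a`. The polynomial `∑ a, C ((l a).coeff D) * X ^ a` in `t` is not zero, and for
every root `z` of `P` the polynomial `∑ a, C ((l a).eval z) * X ^ a` is not zero. Choose `t` outside
the finitely many roots of these finitely many polynomials (`Set.Finite` union, `ℂ` is
infinite). Then `lam.coeff D ≠ 0`, so `natDegree = D` (`≤` from `Dg D l`), and `lam`, `P` have no common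
root: `Polynomial.isCoprime_iff_aeval_ne_zero_of_isAlgClosed` (or `EuclideanDomain.gcd` and
`IsAlgClosed.exists_root`).
-/

set_option autoImplicit false

open Polynomial

namespace Pool.Agent.H53.DP

variable {k : ℕ}

theorem exists_lam {D : ℕ} {l : Fin (k + 1) → ℂ[X]} (hl : Dg D l) (ht : ∃ a, (l a).coeff D ≠ 0)
    (hz : ∀ z : ℂ, ∃ a, (l a).eval z ≠ 0) {P : ℂ[X]} (hP : P ≠ 0) :
    ∃ e : Fin (k + 1) → ℂ, (dt l fun a => C (e a)).natDegree = D ∧ (dt l fun a => C (e a)) ≠ 0 ∧
      IsCoprime (dt l fun a => C (e a)) P := by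
  classical
  -- the values of the combination, as polynomials in the parameter `t`
  let Q0 : ℂ[X] := ∑ a : Fin (k + 1), C ((l a).coeff D) * X ^ (a : ℕ)
  let Q : ℂ → ℂ[X] := fun z => ∑ a : Fin (k + 1), C ((l a).eval z) * X ^ (a : ℕ)
  have hco : ∀ (f : Fin (k + 1) → ℂ) (b : Fin (k + 1)),
      (∑ a : Fin (k + 1), C (f a) * X ^ (a : ℕ) : ℂ[X]).coeff b = f b := by
    intro f b
    have := cp_coeff f b
    rw [cp_apply, dif_pos b.2] at this
    exact this
  have hQ0 : Q0 ≠ 0 := by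
    obtain ⟨a, ha⟩ := ht
    intro h
    apply ha
    rw [← hco (fun a => (l a).coeff D) a]
    show Q0.coeff a = 0
    rw [h, coeff_zero]
  have hQ : ∀ z, Q z ≠ 0 := by
    intro z h
    obtain ⟨a, ha⟩ := hz z
    apply ha
    rw [← hco (fun a => (l a).eval z) a]
    show (Q z).coeff a = 0
    rw [h, coeff_zero]
  let R : ℂ[X] := Q0 * ∏ z ∈ P.roots.toFinset, Q z
  have hR : R ≠ 0 := mul_ne_zero hQ0 (Finset.prod_ne_zero_iff.2 fun z _ => hQ z)
  obtain ⟨t, htR⟩ : ∃ t : ℂ, R.eval t ≠ 0 := by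
    by_contra h
    push Not at h
    exact hR (Polynomial.funext fun t => by rw [h t, eval_zero])
  rw [eval_mul, mul_ne_zero_iff, eval_prod, Finset.prod_ne_zero_iff] at htR
  refine ⟨fun a => t ^ (a : ℕ), ?_⟩
  set lam := dt l fun a => C (t ^ (a : ℕ)) with hlam
  have h1 : lam.coeff D ≠ 0 := by
    have : lam.coeff D = Q0.eval t := by
      simp only [hlam, dt, Q0, finsetSum_coeff, eval_finsetSum, eval_mul, eval_C, eval_pow,
        eval_X, coeff_mul_C]
    rw [this]
    exact htR.1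
  have h2 : lam.natDegree ≤ D := by
    have := dt_natDegree hl (u := fun a => C (t ^ (a : ℕ))) (n := 0) fun a => (natDegree_C _).le
    rwa [add_zero] at this
  have h3 : lam ≠ 0 := by
    intro h
    rw [h, coeff_zero] at h1
    exact h1 rfl
  refine ⟨le_antisymm h2 (le_natDegree_of_ne_zero h1), h3, ?_⟩
  have h4 : ∀ z, ¬ (lam.eval z = 0 ∧ P.eval z = 0) := by
    rintro z ⟨e1, e2⟩
    have h5 : z ∈ P.roots.toFinset := by
      rw [Multiset.mem_toFinset, mem_roots hP]
      exact e2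
    apply htR.2 z h5
    rw [← e1]
    simp only [hlam, dt, Q, eval_finsetSum, eval_mul, eval_C, eval_pow, eval_X]
  rw [← EuclideanDomain.gcd_isUnit_iff]
  by_contra hu
  have hg0 : EuclideanDomain.gcd lam P ≠ 0 := fun h => h3 (EuclideanDomain.gcd_eq_zero_iff.1 h).1
  obtain ⟨z, hz'⟩ := IsAlgClosed.exists_root (EuclideanDomain.gcd lam P) fun hd =>
    hu (isUnit_iff_degree_eq_zero.2 hd)
  refine h4 z ⟨?_, ?_⟩
  · obtain ⟨c, hc⟩ := EuclideanDomain.gcd_dvd_left lam P
    rw [hc, eval_mul, hz'.eq_zero, zero_mul]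
  · obtain ⟨c, hc⟩ := EuclideanDomain.gcd_dvd_right lam P
    rw [hc, eval_mul, hz'.eq_zero, zero_mul]

end Pool.Agent.H53.DP
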