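import Mathlib

/-!
# Module Man: parameters for which a quadratic system of too many equations has a regular zero

PROOF. Put `F z = B z z + L z + c` on `E = Y × X`, `F' z h = B z h + B h z + L h`. All linear maps are
continuous (finite dimension): `F` has the strict derivative `F' z` at `z`
(e.g. `LinearMap.mkContinuous₂OfFiniteDimensional`-like / `LinearMap.toContinuousLinearMap` and
`IsBoundedBilinearMap.hasStrictFDerivAt`, or `ContDiff` and `ContDiffAt.hasStrictFDerivAt`).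
Let `Z = {z | F z = 0 ∧ F' z onto}`.
(1) every `z ∈ Z` has a neighbourhood `U` with `dimH (Z ∩ U) ≤ finrank (Y × X) - finrank W`:
`HasStrictFDerivAt.implicitToOpenPartialHomeomorph` (or: choose a projection `π : E → ker (F' z)`,
`G = (F, π) : E → W × ker (F' z)` has an invertible strict derivative, so it has a local
inverse which is Lipschitz near `G z`, `HasStrictFDerivAt.toOpenPartialHomeomorph`,
`HasStrictFDerivAt.to_localInverse`, `HasStrictFDerivAt.exists_lipschitzOnWith`); `Z ∩ U` is in the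
image under a Lipschitz map of a subset of `{0} × ker (F' z)`, whose dimension is
`finrank (ker (F' z)) = finrank E - finrank W` (`LinearMap.finrank_range_add_finrank_ker`;
`Real.dimH_univ_eq_finrank`, `LipschitzOnWith.dimH_image_le`).
(2) `dimH Z ≤ finrank E - finrank W` (contrapositive of
`exists_mem_nhdsWithin_lt_dimH_of_lt_dimH`).
(3) the set is `Prod.fst '' Z`; `LipschitzWith.prod_fst`, `LipschitzWith.dimH_image_le`; and
`finrank E - finrank W = finrank Y + finrank X - finrank W < finrank Y` (if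
`finrank E < finrank W` then `Z = ∅`; `dimH ∅ = 0 < finrank Y`).
-/

set_option autoImplicit false

open Module Topology NNReal

namespace Pool.Agent.H53.DP

section

variable {E W : Type} [NormedAddCommGroup E] [NormedSpace ℝ E] [FiniteDimensional ℝ E]
  [NormedAddCommGroup W] [NormedSpace ℝ W] [FiniteDimensional ℝ W]

/-- near a regular zero the zero set has dimension at most the dimension of the kernel -/
theorem dimH_zero_near (F : E → W) {F' : E →L[ℝ] W} {z : E} (hF : HasStrictFDerivAt F F' z)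
    (hs : Function.Surjective F') :
    ∃ s ∈ 𝓝 z, dimH ({x | F x = 0} ∩ s) ≤ ((finrank ℝ E - finrank ℝ W : ℕ) : ENNReal) := by
  obtain ⟨p, hp⟩ := (F' : E →ₗ[ℝ] W).ker.subtype.exists_leftInverse_of_injective
    (LinearMap.ker_eq_bot.2 (Submodule.injective_subtype _))
  have hp' : ∀ h (hh : F' h = 0), p h = ⟨h, hh⟩ := fun h hh =>
    LinearMap.congr_fun hp ⟨h, hh⟩
  let G' : E →L[ℝ] W × (F' : E →ₗ[ℝ] W).ker := F'.prod (LinearMap.toContinuousLinearMap p)
  have hG'a : ∀ h, G' h = (F' h, p h) := fun h => rfl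
  have hinj : Function.Injective (G' : E →ₗ[ℝ] W × (F' : E →ₗ[ℝ] W).ker) := by
    rw [← LinearMap.ker_eq_bot, LinearMap.ker_eq_bot']
    intro h hh
    have h1 : G' h = 0 := hh
    rw [hG'a, Prod.mk_eq_zero] at h1
    have h2 : (0 : (F' : E →ₗ[ℝ] W).ker) = ⟨h, h1.1⟩ := h1.2.symm.trans (hp' h h1.1)
    exact (congrArg Subtype.val h2).symm
  have hsur : Function.Surjective (G' : E →ₗ[ℝ] W × (F' : E →ₗ[ℝ] W).ker) := by
    rintro ⟨w, k⟩
    obtain ⟨h0, h0w⟩ := hs w
    refine ⟨h0 + ((k - p h0 : (F' : E →ₗ[ℝ] W).ker) : E), ?_⟩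
    have e1 : F' ((k - p h0 : (F' : E →ₗ[ℝ] W).ker) : E) = 0 := (k - p h0).2
    have e2 := hp' _ e1
    show G' _ = _
    rw [hG'a, map_add, map_add, e1, e2, h0w, add_zero]
    refine Prod.ext rfl ?_
    show p h0 + (k - p h0) = k
    abel
  let e : E ≃L[ℝ] W × (F' : E →ₗ[ℝ] W).ker :=
    (LinearEquiv.ofBijective (G' : E →ₗ[ℝ] W × (F' : E →ₗ[ℝ] W).ker)
      ⟨hinj, hsur⟩).toContinuousLinearEquiv
  have he : (e : E →L[ℝ] W × (F' : E →ₗ[ℝ] W).ker) = G' := by
    ext x <;> rfl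
  let G : E → W × (F' : E →ₗ[ℝ] W).ker := fun x => (F x, p x)
  have hG : HasStrictFDerivAt G (e : E →L[ℝ] W × (F' : E →ₗ[ℝ] W).ker) z := by
    rw [he]
    exact hF.prodMk (LinearMap.toContinuousLinearMap p).hasStrictFDerivAt
  have hker : finrank ℝ (F' : E →ₗ[ℝ] W).ker = finrank ℝ E - finrank ℝ W := by
    have h1 := (F' : E →ₗ[ℝ] W).finrank_range_add_finrank_ker
    rw [LinearMap.range_eq_top.2 hs, finrank_top] at h1
    omega
  obtain ⟨c, hc, hc2⟩ : ∃ c : ℝ≥0, (Subsingleton E ∨ 0 < c) ∧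
      (Subsingleton E ∨ c < ‖(e.symm : W × (F' : E →ₗ[ℝ] W).ker →L[ℝ] E)‖₊⁻¹) := by
    rcases e.subsingleton_or_nnnorm_symm_pos with h | h
    · exact ⟨0, Or.inl h, Or.inl h⟩
    · exact ⟨_, Or.inr (half_pos (inv_pos.2 h)), Or.inr (NNReal.half_lt_self (inv_pos.2 h).ne')⟩
  obtain ⟨s, hsz, hap⟩ := hG.approximates_deriv_on_nhds hc
  refine ⟨s, hsz, ?_⟩
  have hanti := hap.antilipschitz hc2
  -- the projection is antilipschitz on the zero set
  let T : Set E := {x | F x = 0} ∩ s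
  let f : T → (F' : E →ₗ[ℝ] W).ker := fun x => p (x : E)
  have hf : AntilipschitzWith (‖(e.symm : W × (F' : E →ₗ[ℝ] W).ker →L[ℝ] E)‖₊⁻¹ - c)⁻¹ f := by
    intro x y
    have h1 := hanti ⟨x.1, x.2.2⟩ ⟨y.1, y.2.2⟩
    refine h1.trans (mul_le_mul_right ?_ _)
    have hx : F x.1 = 0 := x.2.1
    have hy : F y.1 = 0 := y.2.1
    show edist (G x.1) (G y.1) ≤ edist (f x) (f y)
    rw [Prod.edist_eq]
    show max (edist (F x.1) (F y.1)) _ ≤ _
    rw [hx, hy, edist_self]
    exact max_le (zero_le) le_rfl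
  have h2 : dimH T = dimH (Set.univ : Set T) := by
    have := (isometry_subtype_coe (s := T)).dimH_image Set.univ
    rw [Set.image_univ, Subtype.range_coe] at this
    exact this
  calc dimH T = dimH (Set.univ : Set T) := h2
    _ ≤ dimH (f '' Set.univ) := hf.le_dimH_image _
    _ ≤ dimH (Set.univ : Set (F' : E →ₗ[ℝ] W).ker) := dimH_mono (Set.subset_univ _)
    _ = ((finrank ℝ E - finrank ℝ W : ℕ) : ENNReal) := by
      rw [Real.dimH_univ_eq_finrank, hker]

end

theorem man {Y X W : Type} [NormedAddCommGroup Y] [NormedSpace ℝ Y] [FiniteDimensional ℝ Y]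
    [NormedAddCommGroup X] [NormedSpace ℝ X] [FiniteDimensional ℝ X]
    [NormedAddCommGroup W] [NormedSpace ℝ W] [FiniteDimensional ℝ W]
    (B : (Y × X) →ₗ[ℝ] (Y × X) →ₗ[ℝ] W) (L : (Y × X) →ₗ[ℝ] W) (c : W)
    (hY : 0 < finrank ℝ Y) (hX : finrank ℝ X < finrank ℝ W) :
    dimH {y : Y | ∃ x : X, B (y, x) (y, x) + L (y, x) + c = 0 ∧
      ∀ w : W, ∃ h : Y × X, B (y, x) h + B h (y, x) + L h = w} < finrank ℝ Y := by
  -- continuous versions
  let B0 : (Y × X) →ₗ[ℝ] (Y × X) →L[ℝ] W :=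
    (LinearMap.toContinuousLinearMap (𝕜 := ℝ) (E := Y × X) (F' := W)).toLinearMap ∘ₗ B
  let Bc : (Y × X) →L[ℝ] (Y × X) →L[ℝ] W := LinearMap.toContinuousLinearMap B0
  have hBc : ∀ z h, Bc z h = B z h := fun z h => rfl
  let Lc : (Y × X) →L[ℝ] W := LinearMap.toContinuousLinearMap L
  let F : Y × X → W := fun z => B z z + L z + c
  let F' : Y × X → (Y × X) →L[ℝ] W := fun z => (Bc z).comp (ContinuousLinearMap.id ℝ _) +
    Bc.flip z + Lc
  have hF' : ∀ z h, F' z h = B z h + B h z + L h := fun z h => rfl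
  have hF : ∀ z, HasStrictFDerivAt F (F' z) z := fun z =>
    ((Bc.hasStrictFDerivAt.clm_apply (hasStrictFDerivAt_id z)).add
      Lc.hasStrictFDerivAt).add_const c
  let Z : Set (Y × X) := {z | F z = 0 ∧ Function.Surjective (F' z)}
  have hsub : {y : Y | ∃ x : X, B (y, x) (y, x) + L (y, x) + c = 0 ∧
      ∀ w : W, ∃ h : Y × X, B (y, x) h + B h (y, x) + L h = w} ⊆ Prod.fst '' Z := by
    rintro y ⟨x, h0, hs⟩
    exact ⟨(y, x), ⟨h0, hs⟩, rfl⟩
  have hZ : dimH Z ≤ ((finrank ℝ Y - 1 : ℕ) : ENNReal) := by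
    by_contra hcon
    obtain ⟨z, hz, ht⟩ := exists_mem_nhdsWithin_lt_dimH_of_lt_dimH (not_le.1 hcon)
    obtain ⟨s, hs, hd⟩ := dimH_zero_near F (hF z) hz.2
    have h1 := ht (Z ∩ s) (Filter.inter_mem self_mem_nhdsWithin (mem_nhdsWithin_of_mem_nhds hs))
    refine absurd (h1.trans_le (dimH_mono (t := {x | F x = 0} ∩ s) ?_)) (not_lt.2 (hd.trans ?_))
    · exact fun x hx => ⟨hx.1.1, hx.2⟩
    · rw [Module.finrank_prod]
      exact_mod_cast (by omega : finrank ℝ Y + finrank ℝ X - finrank ℝ W ≤ finrank ℝ Y - 1)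
  calc dimH _ ≤ dimH (Prod.fst '' Z) := dimH_mono hsub
    _ ≤ dimH Z := LipschitzWith.prod_fst.dimH_image_le Z
    _ ≤ ((finrank ℝ Y - 1 : ℕ) : ENNReal) := hZ
    _ < finrank ℝ Y := by exact_mod_cast (by omega : finrank ℝ Y - 1 < finrank ℝ Y)

end Pool.Agent.H53.DP
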