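import Pool.Agent.H53.DP.Rho

/-!
# Module Nrm: normalisation by a real gauge transformation of determinant one

PROOF of `norm_core`. `exists_cc` gives `c`, `c'` with `p := rho c q1 U ≠ 0` and
`κ := rho c q1 U * rho c' q2 V - rho c' q1 U * rho c q2 V ≠ 0`.
Case `q1 = q2`: `x = rho c' q2 V / κ`, `z = - rho c' q1 U / κ`, `w = C (- rho c q2 V)`, `y = rho c q1 U`
(`rho_aU`, `rho_aV_C`, `LM_one_eq`); `x * y - z * w = 1`.
Case `q1 < q2`, `d = q2 - q1`: `x = 1 / p`, `z = 0`, `y = p`, `w = C (- rho c q2 V) * X ^ d + C r1 * X ^ (d - 1)`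
with `r1` such that the component `1` (`LM_one_ne`, `rho_pre`) vanishes: `r1 = (rho c q2 V * s -
p * rho c (q2 - 1) V) / p`, where `s = if q1 = 0 then 0 else rho c (q1 - 1) U`; `rho_top` gives the
components `2` and `3`: `0` and `κ`.
-/

set_option autoImplicit false

open Polynomial

namespace Pool.Agent.H53.DP

variable {k : ℕ}

theorem norm_core {q1 q2 : ℕ} (hq : q1 ≤ q2) {U V : Fin (k + 1) → ℂ[X]} (hU : Dg q1 U)
    (hT : TI q1 q2 U V) :
    ∃ (c c' : Fin (k + 1) × Bool) (x z y κ : ℝ) (w : ℝ[X]), (q1 < q2 → z = 0) ∧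
      w.natDegree ≤ q2 - q1 ∧ C x * C y - C z * w = 1 ∧ κ ≠ 0 ∧
      LM q1 q2 c c' (aU x z U V) (aV w y U V) = ![1, 0, 0, κ] := by
  obtain ⟨c, c', hp, hκ⟩ := exists_cc hT
  set p := rho c q1 U with hpd
  set κ := p * rho c' q2 V - rho c' q1 U * rho c q2 V with hκd
  rcases hq.lt_or_eq with h | h
  · obtain ⟨d, rfl⟩ : ∃ d, q2 = q1 + d := ⟨q2 - q1, by omega⟩
    have hd : 1 ≤ d := by omega
    set s0 : ℝ := if q1 = 0 then 0 else rho c (q1 - 1) U with hs0
    set r0 : ℝ := -rho c (q1 + d) V with hr0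
    set r1 : ℝ := -(r0 * s0 + p * rho c (q1 + d - 1) V) / p with hr1
    refine ⟨c, c', p⁻¹, 0, p, κ, C r0 * X ^ d + C r1 * X ^ (d - 1), fun _ => rfl, ?_, ?_, hκ, ?_⟩
    · rw [Nat.add_sub_cancel_left]
      refine (natDegree_add_le_of_le (n := d) ((natDegree_C_mul_X_pow_le _ _))
        ((natDegree_C_mul_X_pow_le _ _).trans (by omega))).trans (max_self d).le
    · rw [C_0, zero_mul, sub_zero, ← C_mul, inv_mul_cancel₀ hp, C_1]
    · funext i
      fin_cases i
      · show LM q1 (q1 + d) c c' _ _ 0 = 1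
        rw [LM_zero, rho_aU, zero_mul, add_zero, ← hpd, inv_mul_cancel₀ hp]
      · show LM q1 (q1 + d) c c' _ _ 1 = 0
        rw [LM_one_ne (by omega), rho_pre hd, ← hpd, ← hs0, hr1]
        field_simp
        ring
      · show LM q1 (q1 + d) c c' _ _ 2 = 0
        rw [LM_two, rho_top hd hU, ← hpd, hr0]
        ring
      · show LM q1 (q1 + d) c c' _ _ 3 = κ
        rw [LM_three, rho_top hd hU, hr0, hκd]
        ring
  · subst h
    refine ⟨c, c', rho c' q1 V / κ, -rho c' q1 U / κ, p, κ, C (-rho c q1 V),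
      fun h => absurd h (lt_irrefl _), ?_, ?_, hκ, ?_⟩
    · rw [natDegree_C]
      exact Nat.zero_le _
    · rw [← C_mul, ← C_mul, ← C_sub, ← C_1]
      congr 1
      field_simp
      rw [hκd]
      ring
    · funext i
      fin_cases i
      · show LM q1 q1 c c' _ _ 0 = 1
        rw [LM_zero, rho_aU, ← hpd]
        field_simp
        rw [hκd]
        ring
      · show LM q1 q1 c c' _ _ 1 = 0
        rw [LM_one_eq rfl, rho_aU]
        ring
      · show LM q1 q1 c c' _ _ 2 = 0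
        rw [LM_two, rho_aV_C, ← hpd]
        ring
      · show LM q1 q1 c c' _ _ 3 = κ
        rw [LM_three, rho_aV_C, hκd]
        ring

end Pool.Agent.H53.DP
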