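import Pool.Agent.H53.DP.S1
import Pool.Agent.H53.DP.Lam

/-!
# The linearised equations are solvable
-/

set_option autoImplicit false

open Polynomial

namespace Pool.Agent.H53.DP

variable {k : ℕ}

theorem dt_single (x : ℂ[X]) (u : Fin (k + 1) → ℂ[X]) (a : Fin (k + 1)) :
    dt (Pi.single a x) u = x * u a := by
  unfold dt
  rw [Finset.sum_eq_single a]
  · rw [Pi.single_eq_same]
  · intro b _ hb
    rw [Pi.single_eq_of_ne hb, zero_mul]
  · intro h
    exact absurd (Finset.mem_univ _) h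

theorem dg_single {n : ℕ} {x : ℂ[X]} (h : x.natDegree ≤ n) (a : Fin (k + 1)) :
    Dg n (Pi.single a x : Fin (k + 1) → ℂ[X]) := by
  intro b
  rcases eq_or_ne b a with rfl | hb
  · rwa [Pi.single_eq_same]
  · rw [Pi.single_eq_of_ne hb, natDegree_zero]
    exact Nat.zero_le _

theorem Dg.add {n : ℕ} {u v : Fin (k + 1) → ℂ[X]} (hu : Dg n u) (hv : Dg n v) : Dg n (u + v) :=
  fun a => (natDegree_add_le_of_le (hu a) (hv a)).trans (max_self n).le

theorem onto1 {D q : ℕ} {l U : Fin (k + 1) → ℂ[X]} (hl : Dg D l) (ht : ∃ a, (l a).coeff D ≠ 0)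
    (hz : ∀ z : ℂ, ∃ a, (l a).eval z ≠ 0) (hU : Dg q U) {a : Fin (k + 1)} (ha : U a ≠ 0)
    {w : ℂ[X]} (hw : w.natDegree ≤ D + q) :
    ∃ dl dU : Fin (k + 1) → ℂ[X], Dg D dl ∧ Dg q dU ∧ dt dl U + dt l dU = w := by
  obtain ⟨e, he1, he2, he3⟩ := exists_lam hl ht hz ha
  obtain ⟨x, p, hx, hp, hxp⟩ := s_one (hU a) he1 he2 he3 hw
  refine ⟨Pi.single a x, fun b => p * C (e b), dg_single hx a, fun b => ?_, ?_⟩
  · refine natDegree_mul_le.trans ?_
    rw [natDegree_C]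
    exact hp
  · rw [dt_single, dt_mul_right, hxp]
    ring

theorem onto2 {D q1 q2 : ℕ} {l U V : Fin (k + 1) → ℂ[X]} (hl : Dg D l)
    (ht : ∃ a, (l a).coeff D ≠ 0) (hz : ∀ z : ℂ, ∃ a, (l a).eval z ≠ 0) (hU : Dg q1 U)
    (hV : Dg q2 V) {a b : Fin (k + 1)} (hab : U a * V b - U b * V a ≠ 0) {w1 w2 : ℂ[X]}
    (hw1 : w1.natDegree ≤ D + q1) (hw2 : w2.natDegree ≤ D + q2) :
    ∃ dl dU dV : Fin (k + 1) → ℂ[X], Dg D dl ∧ Dg q1 dU ∧ Dg q2 dV ∧ dt dl U + dt l dU = w1 ∧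
      dt dl V + dt l dV = w2 := by
  obtain ⟨e, he1, he2, he3⟩ := exists_lam hl ht hz hab
  obtain ⟨x1, x2, p1, p2, hx1, hx2, hp1, hp2, e1, e2⟩ :=
    s_two (hU a) (hU b) (hV a) (hV b) he1 he2 he3 hw1 hw2
  refine ⟨Pi.single a x1 + Pi.single b x2, fun c => p1 * C (e c), fun c => p2 * C (e c),
    (dg_single hx1 a).add (dg_single hx2 b), fun c => ?_, fun c => ?_, ?_, ?_⟩
  · refine natDegree_mul_le.trans ?_
    rw [natDegree_C]
    exact hp1
  · refine natDegree_mul_le.trans ?_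
    rw [natDegree_C]
    exact hp2
  · rw [dt_add_left, dt_single, dt_single, dt_mul_right, e1]
    ring
  · rw [dt_add_left, dt_single, dt_single, dt_mul_right, e2]
    ring

end Pool.Agent.H53.DP
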