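import Pool.Agent.H53.DP.Man
import Pool.Agent.H53.DP.Onto
import Pool.Agent.H53.DP.Gau

/-!
# Module StrII: the bad set for the base locus is small

`BadII` = the `l` (of degree exactly `D`, without common zero) such that `l·U = α g`, `l·V = β g` has a
solution with `g` monic of degree `γ`, `α`, `β` real, `U`, `V` normalised and independent over `ℂ(X)`.

PROOF. `A = D + q1 - γ`, `A' = D + q2 - γ`. Use `man` with
`Y = Fin (k + 1) → Fin (D + 1) → ℂ`,
`X = (Fin (k+1) → Fin (q1+1) → ℂ) × (Fin (k+1) → Fin (q2+1) → ℂ) × (Fin (A+1) → ℝ) × (Fin (A'+1) → ℝ) ×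
(Fin γ → ℂ)`, `W = (Fin (D+q1+1) → ℂ) × (Fin (D+q2+1) → ℂ) × (Fin 4 → ℝ)`,
`B (y, u, v, a, b, g) (y', u', v', a', b', g') = (cf _ (dt (lp y) (lp u') - cc (rp a) * cp g'),
cf _ (dt (lp y) (lp v') - cc (rp b) * cp g'), 0)` (build it with `LinearMap.mk₂`),
`L (y, u, v, a, b, g) = (cf _ (- cc (rp a) * X ^ γ), cf _ (- cc (rp b) * X ^ γ), LM q1 q2 c c' (lp u) (lp v))`
(for the additivity in `(u, v)`: `LM` is `LML`, a linear map), constant `(0, 0, - ![1, 0, 0, 1])`.
Dimensions: `dim W - dim X = 2 D + 2 - (q1 + q2) (2 k + 1) - 4 k > 0` (`Module.finrank_pi`,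
`Module.finrank_prod`, `Complex.finrank_real_complex`; `A + γ = D + q1`, `A' + γ = D + q2`).
Surjectivity at a bad `(y, x)`: given `(w1, w2, ν)`: `onto2` for `cp w1`, `cp w2`
(`cp_natDegree`) gives `dl`, `dU`, `dV` (`exists_lp`), `h1 = (dl, dU, dV, 0, 0, 0)`; the derivative of the system
in direction `h1` is `(w1, w2, LM dU dV)` (`cf_cp`). Put `ν' = ν - LM dU dV`. `gauge_core` with `κ = 1`
and `y = ν' 3 - e` gives `x, z, w, y` with `LM (aU x z U V) (aV w y U V) = ν'`; direction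
`h2 = (0, aU x z U V, aV w y U V, x α + z β, w α + y β, 0)`: `dt l (aU x z U V) = (x α + z β) g`
(`dt_aU`), so the first component of the derivative vanishes, the same for the second; the degrees are
allowed (`z = 0` if `q1 < q2`; `natDegree (w α) ≤ q2 - q1 + A = A'`), use `exists_lp`, `rp_rf`.
The bad set is contained in the set of `man`: `g = X ^ γ + cp g0` with `g0 = cf γ (g - X ^ γ)`
(`cp_cf'`, monic of degree `γ`).
-/

set_option autoImplicit false

open Polynomial Module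

namespace Pool.Agent.H53.DP

/-- `l` has degree exactly `D` and no common zero -/
def Good0 {k : ℕ} (D : ℕ) (l : Fin (k + 1) → ℂ[X]) : Prop :=
  (∃ a, (l a).coeff D ≠ 0) ∧ ∀ z : ℂ, ∃ a, (l a).eval z ≠ 0

def BadII (k D q1 q2 γ : ℕ) (c c' : Fin (k + 1) × Bool) : Set (Fin (k + 1) → Fin (D + 1) → ℂ) :=
  {y | Good0 D (lp y) ∧ ∃ (U V : Fin (k + 1) → ℂ[X]) (α β : ℝ[X]) (g : ℂ[X]),
    Dg q1 U ∧ Dg q2 V ∧ α.natDegree ≤ D + q1 - γ ∧ β.natDegree ≤ D + q2 - γ ∧ g.Monic ∧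
    g.natDegree = γ ∧ dt (lp y) U = cc α * g ∧ dt (lp y) V = cc β * g ∧
    LM q1 q2 c c' U V = ![1, 0, 0, 1] ∧ ∃ a b, U a * V b - U b * V a ≠ 0}

section Prep

variable {k : ℕ}

theorem lp_add {n : ℕ} (y y' : Fin (k + 1) → Fin n → ℂ) : lp (y + y') = lp y + lp y' := by
  funext a
  exact map_add cp _ _

theorem lp_smul {n : ℕ} (x : ℝ) (y : Fin (k + 1) → Fin n → ℂ) : lp (x • y) = x • lp y := by
  funext a
  exact map_smul cp _ _

theorem dt_smul_left (x : ℝ) (l u : Fin (k + 1) → ℂ[X]) : dt (x • l) u = x • dt l u := by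
  unfold dt
  rw [Finset.smul_sum]
  exact Finset.sum_congr rfl fun a _ => by rw [Pi.smul_apply, smul_mul_assoc]

theorem dt_smul_right (x : ℝ) (l u : Fin (k + 1) → ℂ[X]) : dt l (x • u) = x • dt l u := by
  unfold dt
  rw [Finset.smul_sum]
  exact Finset.sum_congr rfl fun a _ => by rw [Pi.smul_apply, mul_smul_comm]

/-- the bilinear expression `l·u - α g` -/
noncomputable def qf (l : Fin (k + 1) → ℂ[X]) (α : ℝ[X]) (u : Fin (k + 1) → ℂ[X]) (g : ℂ[X]) :
    ℂ[X] := dt l u - cc α * g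

theorem qf_add_left (l l' : Fin (k + 1) → ℂ[X]) (α α' : ℝ[X]) (u : Fin (k + 1) → ℂ[X])
    (g : ℂ[X]) : qf (l + l') (α + α') u g = qf l α u g + qf l' α' u g := by
  unfold qf
  rw [dt_add_left, map_add]
  ring

theorem qf_add_right (l : Fin (k + 1) → ℂ[X]) (α : ℝ[X]) (u u' : Fin (k + 1) → ℂ[X])
    (g g' : ℂ[X]) : qf l α (u + u') (g + g') = qf l α u g + qf l α u' g' := by
  unfold qf
  rw [dt_add_right]
  ring

theorem qf_smul_left (x : ℝ) (l : Fin (k + 1) → ℂ[X]) (α : ℝ[X]) (u : Fin (k + 1) → ℂ[X])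
    (g : ℂ[X]) : qf (x • l) (x • α) u g = x • qf l α u g := by
  unfold qf
  rw [dt_smul_left, cc_smul, smul_mul_assoc, smul_sub]

theorem qf_smul_right (x : ℝ) (l : Fin (k + 1) → ℂ[X]) (α : ℝ[X]) (u : Fin (k + 1) → ℂ[X])
    (g : ℂ[X]) : qf l α (x • u) (x • g) = x • qf l α u g := by
  unfold qf
  rw [dt_smul_right, mul_smul_comm, smul_sub]

end Prep

section Sys

variable (k D q1 q2 γ : ℕ) (c c' : Fin (k + 1) × Bool)

/-- parameters -/
abbrev YY : Type := Fin (k + 1) → Fin (D + 1) → ℂ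

/-- unknowns -/
abbrev XS : Type := (Fin (k + 1) → Fin (q1 + 1) → ℂ) × (Fin (k + 1) → Fin (q2 + 1) → ℂ) ×
  (Fin (D + q1 - γ + 1) → ℝ) × (Fin (D + q2 - γ + 1) → ℝ) × (Fin γ → ℂ)

/-- equations -/
abbrev WS : Type := (Fin (D + q1 + 1) → ℂ) × (Fin (D + q2 + 1) → ℂ) × (Fin 4 → ℝ)

/-- the quadratic part -/
noncomputable def BS : (YY k D × XS k D q1 q2 γ) →ₗ[ℝ] (YY k D × XS k D q1 q2 γ) →ₗ[ℝ]
    WS D q1 q2 :=
  LinearMap.mk₂ ℝ (fun z w =>
    (cf (D + q1 + 1) (qf (lp z.1) (rp z.2.2.2.1) (lp w.2.1) (cp w.2.2.2.2.2)),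
      cf (D + q2 + 1) (qf (lp z.1) (rp z.2.2.2.2.1) (lp w.2.2.1) (cp w.2.2.2.2.2)), 0))
    (fun z z' w => by
      simp only [Prod.fst_add, Prod.snd_add, lp_add, map_add, qf_add_left, Prod.mk_add_mk,
        add_zero])
    (fun x z w => by
      simp only [Prod.smul_fst, Prod.smul_snd, lp_smul, map_smul, qf_smul_left, Prod.smul_mk,
        smul_zero])
    (fun z w w' => by
      simp only [Prod.fst_add, Prod.snd_add, lp_add, map_add, qf_add_right, Prod.mk_add_mk,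
        add_zero])
    (fun x z w => by
      simp only [Prod.smul_fst, Prod.smul_snd, lp_smul, map_smul, qf_smul_right, Prod.smul_mk,
        smul_zero])

theorem BS_apply (z w : YY k D × XS k D q1 q2 γ) : BS k D q1 q2 γ z w =
    (cf (D + q1 + 1) (qf (lp z.1) (rp z.2.2.2.1) (lp w.2.1) (cp w.2.2.2.2.2)),
      cf (D + q2 + 1) (qf (lp z.1) (rp z.2.2.2.2.1) (lp w.2.2.1) (cp w.2.2.2.2.2)), 0) := rfl

/-- the linear part -/
noncomputable def LS : (YY k D × XS k D q1 q2 γ) →ₗ[ℝ] WS D q1 q2 where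
  toFun z := (cf (D + q1 + 1) (-(cc (rp z.2.2.2.1) * X ^ γ)),
    cf (D + q2 + 1) (-(cc (rp z.2.2.2.2.1) * X ^ γ)), LML q1 q2 c c' (lp z.2.1, lp z.2.2.1))
  map_add' z z' := by
    have h : (lp (z + z').2.1, lp (z + z').2.2.1) = (lp z.2.1, lp z.2.2.1) +
        (lp z'.2.1, lp z'.2.2.1) := by
      simp only [Prod.fst_add, Prod.snd_add, lp_add, Prod.mk_add_mk]
    rw [h, map_add]
    simp only [Prod.fst_add, Prod.snd_add, map_add, add_mul, neg_add, Prod.mk_add_mk]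
  map_smul' x z := by
    have h : (lp (x • z).2.1, lp (x • z).2.2.1) = x • (lp z.2.1, lp z.2.2.1) := by
      simp only [Prod.smul_fst, Prod.smul_snd, lp_smul, Prod.smul_mk]
    rw [h, map_smul]
    simp only [Prod.smul_fst, Prod.smul_snd, map_smul, cc_smul, smul_mul_assoc, ← smul_neg,
      Prod.smul_mk, RingHom.id_apply]

theorem LS_apply (z : YY k D × XS k D q1 q2 γ) : LS k D q1 q2 γ c c' z =
    (cf (D + q1 + 1) (-(cc (rp z.2.2.2.1) * X ^ γ)),
      cf (D + q2 + 1) (-(cc (rp z.2.2.2.2.1) * X ^ γ)), LM q1 q2 c c' (lp z.2.1) (lp z.2.2.1)) :=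
  rfl

end Sys

theorem dimH_BadII {k D q1 q2 γ : ℕ} (hq : q1 ≤ q2) (hγ : γ ≤ D + q1)
    (hn : (q1 + q2) * (2 * k + 1) + 4 * k < 2 * D + 2) (c c' : Fin (k + 1) × Bool) :
    dimH (BadII k D q1 q2 γ c c') < finrank ℝ (Fin (k + 1) → Fin (D + 1) → ℂ) := by
  have hY : 0 < finrank ℝ (YY k D) := by
    simp only [Module.finrank_pi_fintype, Complex.finrank_real_complex, Finset.sum_const,
      Finset.card_univ, Fintype.card_fin, smul_eq_mul]
    positivity
  have hX : finrank ℝ (XS k D q1 q2 γ) < finrank ℝ (WS D q1 q2) := by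
    simp only [Module.finrank_prod, Module.finrank_pi_fintype, Complex.finrank_real_complex,
      Module.finrank_self, Finset.sum_const, Finset.card_univ, Fintype.card_fin, smul_eq_mul]
    obtain ⟨A, hA⟩ : ∃ A, D + q1 = γ + A := ⟨D + q1 - γ, by omega⟩
    obtain ⟨A', hA'⟩ : ∃ A', D + q2 = γ + A' := ⟨D + q2 - γ, by omega⟩
    rw [hA, hA', Nat.add_sub_cancel_left, Nat.add_sub_cancel_left]
    nlinarith
  refine lt_of_le_of_lt (dimH_mono ?_) (man (BS k D q1 q2 γ) (LS k D q1 q2 γ c c')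
    (0, 0, -![1, 0, 0, 1]) hY hX)
  rintro y ⟨⟨ht, hz⟩, U, V, α, β, g, hU, hV, hα, hβ, hg, hgd, h1, h2, hLM, a, b, hab⟩
  obtain ⟨u, rfl⟩ := exists_lp hU
  obtain ⟨v, rfl⟩ := exists_lp hV
  have hαr := rp_rf hα
  have hβr := rp_rf hβ
  -- the nonleading part of `g`
  have hg0 : (g - X ^ γ).degree < ((γ : ℕ) : WithBot ℕ) := by
    have h3 : g.degree = ((γ : ℕ) : WithBot ℕ) := by rw [degree_eq_natDegree hg.ne_zero, hgd]
    have h4 := degree_sub_lt_left (p := g) (q := X ^ γ) (by rw [h3, degree_X_pow]) hg.ne_zero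
      (by rw [hg.leadingCoeff, leadingCoeff_X_pow])
    rwa [h3] at h4
  have hgr := cp_cf' hg0
  refine ⟨(u, v, rf _ α, rf _ β, cf γ (g - X ^ γ)), ?_, ?_⟩
  · rw [BS_apply, LS_apply]
    simp only [hαr, hβr, hgr, hLM]
    have e1 : qf (lp y) α (lp u) (g - X ^ γ) + -(cc α * X ^ γ) = 0 := by
      unfold qf
      rw [h1]
      ring
    have e2 : qf (lp y) β (lp v) (g - X ^ γ) + -(cc β * X ^ γ) = 0 := by
      unfold qf
      rw [h2]
      ring
    simp only [Prod.mk_add_mk, add_zero, zero_add, ← map_add, e1, e2, map_zero, add_neg_cancel]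
    rfl
  · rintro ⟨w1, w2, ν⟩
    obtain ⟨dl, dU, dV, hdl, hdU, hdV, e1, e2⟩ := onto2 (lp_dg y) ht hz hU hV hab
      (cp_natDegree w1) (cp_natDegree w2)
    obtain ⟨x, z, e, w, hz0, hw, hgau⟩ := gauge_core (c := c) (c' := c') hq hU one_ne_zero hLM
      ![(ν - LM q1 q2 c c' dU dV) 0, (ν - LM q1 q2 c c' dU dV) 1, (ν - LM q1 q2 c c' dU dV) 2]
    set yy : ℝ := (ν - LM q1 q2 c c' dU dV) 3 - e with hyy
    have hgau2 := hgau yy
    -- gauge direction
    set U2 := aU x z (lp u) (lp v) with hU2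
    set V2 := aV w yy (lp u) (lp v) with hV2
    have hU2d : Dg q1 U2 := by
      rcases hq.lt_or_eq with h | h
      · rw [hU2, hz0 h]
        exact dg_aU_zero hU x
      · subst h
        exact dg_aU hU hV x z
    have hV2d : Dg q2 V2 := dg_aV hU hV hq hw yy
    set α2 : ℝ[X] := C x * α + C z * β with hα2
    set β2 : ℝ[X] := w * α + C yy * β with hβ2
    have hα2d : α2.natDegree ≤ D + q1 - γ := by
      rcases hq.lt_or_eq with h | h
      · rw [hα2, hz0 h, C_0, zero_mul, add_zero]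
        exact (natDegree_C_mul_le _ _).trans hα
      · subst h
        exact (natDegree_add_le_of_le ((natDegree_C_mul_le _ _).trans hα)
          ((natDegree_C_mul_le _ _).trans hβ)).trans (max_self _).le
    have hβ2d : β2.natDegree ≤ D + q2 - γ := by
      refine (natDegree_add_le_of_le (n := D + q2 - γ) (natDegree_mul_le.trans ?_)
        ((natDegree_C_mul_le _ _).trans hβ)).trans (max_self _).le
      omega
    have f1 : dt (lp y) U2 = cc α2 * g := by
      rw [hU2, dt_aU, h1, h2, hα2, map_add, map_mul, map_mul, cc_C, cc_C]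
      ring
    have f2 : dt (lp y) V2 = cc β2 * g := by
      rw [hV2, dt_aV, h1, h2, hβ2, map_add, map_mul, map_mul, cc_C]
      ring
    obtain ⟨dy, rfl⟩ := exists_lp hdl
    obtain ⟨du, hdu⟩ := exists_lp (hdU.add hU2d)
    obtain ⟨dv, hdv⟩ := exists_lp (hdV.add hV2d)
    refine ⟨(dy, du, dv, rf _ α2, rf _ β2, 0), ?_⟩
    rw [BS_apply, BS_apply, LS_apply]
    have hα2r := rp_rf hα2d
    have hβ2r := rp_rf hβ2d
    simp only [hαr, hβr, hgr, hα2r, hβ2r, hdu, hdv, map_zero]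
    have g1 : qf (lp y) α (dU + U2) 0 + qf (lp dy) α2 (lp u) (g - X ^ γ) + -(cc α2 * X ^ γ) =
        cp w1 := by
      unfold qf
      rw [dt_add_right, f1, ← e1]
      ring
    have g2 : qf (lp y) β (dV + V2) 0 + qf (lp dy) β2 (lp v) (g - X ^ γ) + -(cc β2 * X ^ γ) =
        cp w2 := by
      unfold qf
      rw [dt_add_right, f2, ← e2]
      ring
    have g3 : LM q1 q2 c c' (dU + U2) (dV + V2) = ν := by
      have h3 : LM q1 q2 c c' (dU + U2) (dV + V2) = LM q1 q2 c c' dU dV + LM q1 q2 c c' U2 V2 :=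
        map_add (LML q1 q2 c c') (dU, dV) (U2, V2)
      rw [h3, hgau2]
      funext i
      fin_cases i
      · simp
      · simp
      · simp
      · simp [hyy]
    simp only [Prod.mk_add_mk, add_zero, zero_add, ← map_add, g1, g2, g3, cf_cp]

end Pool.Agent.H53.DP
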