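import Pool.Agent.H53.DP.Dim
import Pool.Agent.H53.DP.StrII

/-!
# Module StrB: a generic `l` has degree exactly `D` and no common zero

PROOF. The complement of `Good0` is the union of
(1) `{y | ∀ a, y a (Fin.last D) = 0}`, contained in the range of the linear map
`(Fin (k + 1) → Fin D → ℂ) → Y`, `m ↦ cf (D + 1) (cp (m a))` (`lp y a` has `natDegree < D`... its coefficients
are those of `cp (cf D (lp y a))`), `2 (k + 1) D < 2 (k + 1) (D + 1)`;
(2) `{y | ∃ z, ∀ a, (lp y a).eval z = 0}`, contained in the range of the polynomial map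
`ℂ × (Fin (k + 1) → Fin D → ℂ) → Y`, `(z, m) ↦ cf (D + 1) ((X - C z) * cp (m a))`: the quotient
`p /ₘ (X - C z)` (`mul_divByMonic_eq_iff_isRoot`) has degree `< D` (`natDegree_divByMonic`), `cp_cf'`;
`2 + 2 (k + 1) D < 2 (k + 1) (D + 1)` since `k ≥ 1`.
Both maps are `C^1` (coordinates: `coeff ((X - C z) * cp m) i = m (i - 1) - z m i`: continuous linear
or products; `contDiff_pi`), `dimH_small`; `dimH_union`.
-/

set_option autoImplicit false

open Polynomial Module

namespace Pool.Agent.H53.DP

def BadB (k D : ℕ) : Set (Fin (k + 1) → Fin (D + 1) → ℂ) := {y | ¬ Good0 D (lp y)}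

theorem dimH_BadB {k : ℕ} (hk : 1 ≤ k) (D : ℕ) :
    dimH (BadB k D) < finrank ℝ (Fin (k + 1) → Fin (D + 1) → ℂ) := by
  have hsub : BadB k D ⊆ {y | ∀ a, y a (Fin.last D) = 0} ∪
      {y | ∃ z : ℂ, ∀ a, (lp y a).eval z = 0} := by
    intro y hy
    by_contra hcon
    apply hy
    have h1 : ¬ ∀ a, y a (Fin.last D) = 0 := fun h => hcon (Or.inl h)
    have h2 : ¬ ∃ z : ℂ, ∀ a, (lp y a).eval z = 0 := fun h => hcon (Or.inr h)
    push Not at h1 h2
    refine ⟨?_, h2⟩
    obtain ⟨a, ha⟩ := h1
    refine ⟨a, ?_⟩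
    show (cp (y a)).coeff D ≠ 0
    rw [cp_coeff, dif_pos (Nat.lt_succ_self D)]
    exact ha
  refine lt_of_le_of_lt (dimH_mono hsub) ?_
  rw [dimH_union]
  refine max_lt ?_ ?_
  · let f : (Fin (k + 1) → Fin D → ℂ) → (Fin (k + 1) → Fin (D + 1) → ℂ) := fun m a i =>
      if h : (i : ℕ) < D then m a ⟨i, h⟩ else 0
    refine dimH_small f ?_ ?_ ?_
    · rw [contDiff_pi]
      intro a
      rw [contDiff_pi]
      intro i
      by_cases h : (i : ℕ) < D
      · simp only [f, dif_pos h]
        fun_prop
      · simp only [f, dif_neg h]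
        exact contDiff_const
    · simp only [Module.finrank_pi_fintype, Complex.finrank_real_complex, Finset.sum_const,
        Finset.card_univ, Fintype.card_fin, smul_eq_mul]
      nlinarith
    · intro y hy
      refine ⟨fun a i => y a i.castSucc, ?_⟩
      funext a i
      by_cases h : (i : ℕ) < D
      · simp only [f, dif_pos h]
        rfl
      · simp only [f, dif_neg h]
        have h1 : i = Fin.last D := Fin.ext (by have := i.2; simp; omega)
        rw [h1]
        exact (hy a).symm
  · let f : ℂ × (Fin (k + 1) → Fin D → ℂ) → (Fin (k + 1) → Fin (D + 1) → ℂ) := fun p a i =>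
      (if h : 0 < (i : ℕ) then p.2 a ⟨(i : ℕ) - 1, by omega⟩ else 0) -
        p.1 * (if h : (i : ℕ) < D then p.2 a ⟨i, h⟩ else 0)
    refine dimH_small f ?_ ?_ ?_
    · rw [contDiff_pi]
      intro a
      rw [contDiff_pi]
      intro i
      refine ContDiff.sub ?_ (ContDiff.mul contDiff_fst ?_)
      · by_cases h : 0 < (i : ℕ)
        · simp only [dif_pos h]
          fun_prop
        · simp only [dif_neg h]
          exact contDiff_const
      · by_cases h : (i : ℕ) < D
        · simp only [dif_pos h]
          fun_prop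
        · simp only [dif_neg h]
          exact contDiff_const
    · simp only [Module.finrank_prod, Module.finrank_pi_fintype, Complex.finrank_real_complex,
        Finset.sum_const, Finset.card_univ, Fintype.card_fin, smul_eq_mul]
      nlinarith
    · rintro y ⟨z, hz⟩
      let Q : Fin (k + 1) → ℂ[X] := fun a => cp (y a) /ₘ (X - C z)
      have hQ : ∀ a, (X - C z) * Q a = cp (y a) := fun a =>
        mul_divByMonic_eq_iff_isRoot.2 (hz a)
      have hQd : ∀ a, (Q a).degree < D := by
        intro a
        rcases eq_or_ne (Q a) 0 with h0 | h0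
        · rw [h0, degree_zero]
          exact WithBot.bot_lt_coe D
        · rw [degree_eq_natDegree h0]
          have h1 := congrArg natDegree (hQ a)
          rw [natDegree_mul (X_sub_C_ne_zero z) h0, natDegree_X_sub_C] at h1
          have h2 := cp_natDegree (y a)
          exact_mod_cast (by omega : (Q a).natDegree < D)
      refine ⟨(z, fun a => cf D (Q a)), ?_⟩
      funext a i
      have h1 : y a i = (cp (y a)).coeff i := by
        rw [cp_coeff, dif_pos i.2]
      have h2 : ∀ n, (Q a).coeff n = if h : n < D then cf D (Q a) ⟨n, h⟩ else 0 := by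
        intro n
        rw [← cp_coeff, cp_cf' (hQd a)]
      rw [h1, ← hQ a, sub_mul, coeff_sub, coeff_C_mul]
      have h3 : (X * Q a).coeff (i : ℕ) = if h : 0 < (i : ℕ) then
          cf D (Q a) ⟨(i : ℕ) - 1, by omega⟩ else 0 := by
        rcases Nat.eq_zero_or_pos (i : ℕ) with h | h
        · rw [dif_neg (by omega : ¬ 0 < (i : ℕ))]
          have h4 : (X * Q a).coeff (i : ℕ) = (X * Q a).coeff 0 := by rw [h]
          rw [h4, coeff_X_mul_zero]
        · rw [dif_pos h]
          obtain ⟨j, hj⟩ : ∃ j, (i : ℕ) = j + 1 := ⟨(i : ℕ) - 1, by omega⟩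
          simp only [hj, coeff_X_mul, Nat.add_sub_cancel, cf_apply]
      rw [h3, h2 i]

end Pool.Agent.H53.DP
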