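import Pool.Agent.H53.DP.StrA
import Pool.Agent.H53.DP.StrB
import Pool.Agent.H53.DP.Fac
import Pool.Agent.H53.DP.Ind
import Pool.Agent.H53.DP.Nrm

/-!
# Module MemBad: a base point puts the plant into a bad set

PROOF of `mem_bad`. Let `l = lp y`, `a = dt l U`, `b = dt l V`.
(1) If `a = 0`: `TI.ne_zero_left` gives an entry `i` with `(U i).coeff q1 = t ≠ 0`, and
`C t⁻¹ * U` shows `y ∈ BadA k D q1 i`.
(2) If `a ≠ 0`, `real_ratio`: `a = C ω * (cc α * g)`, `b = C ω * (cc β * g)`, `conj ω * ω = 1`. Put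
`U1 = C ω⁻¹ * U`, `V1 = C ω⁻¹ * V` (`TI.smul`, `Dg.smul`, `dt_mul_right`): `dt l U1 = cc α * g`,
`dt l V1 = cc β * g`, `γ := natDegree g ≤ D + q1`, `natDegree α ≤ D + q1 - γ`,
`natDegree β ≤ D + q2 - γ` (`dt_natDegree`, `lp_dg`).
(3) `minor_ne_zero` (with `g ≠ 0`, `α ≠ 0`): a minor of `U1, V1` is not zero.
(4) `norm_core`: `c, c', x, z, y, κ, w`. Put `U2 = aU x z U1 V1`, `V2 = C κ⁻¹ * aV w y U1 V1
= aV (C κ⁻¹ * w) (κ⁻¹ * y) U1 V1`, `α2 = C x * α + C z * β`, `β2 = C κ⁻¹ * w * α + C (κ⁻¹ * y) * β`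
(`dt_aU`, `dt_aV`); degrees as `z = 0` if `q1 < q2`; `LM U2 V2 = ![1, 0, 0, 1]` (component `1`: if
`q1 < q2` it is `κ⁻¹ * 0`); the minor is multiplied by `κ⁻¹ * (C x * C y - C z * w) = κ⁻¹ ≠ 0`
(`minor_act`). So `y ∈ BadII k D q1 q2 γ c c'`.
-/

set_option autoImplicit false

open Polynomial Module

namespace Pool.Agent.H53.DP

theorem mem_bad {k D q1 q2 : ℕ} (hq : q1 ≤ q2) {y : Fin (k + 1) → Fin (D + 1) → ℂ}
    (h0 : Good0 D (lp y)) {U V : Fin (k + 1) → ℂ[X]} (hU : Dg q1 U) (hV : Dg q2 V)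
    (hT : TI q1 q2 U V)
    (h : cj (dt (lp y) U) * dt (lp y) V = dt (lp y) U * cj (dt (lp y) V)) :
    (∃ a, y ∈ BadA k D q1 a) ∨
      ∃ (γ : ℕ) (c c' : Fin (k + 1) × Bool), γ ≤ D + q1 ∧ y ∈ BadII k D q1 q2 γ c c' := by
  set l := lp y with hl
  have hld : Dg D l := lp_dg y
  rcases eq_or_ne (dt l U) 0 with ha | ha
  · obtain ⟨i, hi⟩ := hT.ne_zero_left
    refine Or.inl ⟨i, h0, fun j => C ((U i).coeff q1)⁻¹ * U j, hU.smul _, ?_, ?_⟩
    · rw [dt_mul_right, ← hl, ha, mul_zero]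
    · show (C ((U i).coeff q1)⁻¹ * U i).coeff q1 = 1
      rw [coeff_C_mul, inv_mul_cancel₀ hi]
  · obtain ⟨g, α, β, ω, hg, hω, e1, e2, hα0, hαd, hβd⟩ := real_ratio ha h
    have hω0 : ω ≠ 0 := by
      rintro rfl
      simp at hω
    have hωi : ω⁻¹ ≠ 0 := inv_ne_zero hω0
    set U1 : Fin (k + 1) → ℂ[X] := fun j => C ω⁻¹ * U j with hU1
    set V1 : Fin (k + 1) → ℂ[X] := fun j => C ω⁻¹ * V j with hV1
    have hU1d : Dg q1 U1 := hU.smul _
    have hV1d : Dg q2 V1 := hV.smul _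
    have hT1 : TI q1 q2 U1 V1 := hT.smul hωi
    have f1 : dt l U1 = cc α * g := by
      rw [hU1, dt_mul_right, e1, ← mul_assoc, ← C_mul, inv_mul_cancel₀ hω0, C_1, one_mul]
    have f2 : dt l V1 = cc β * g := by
      rw [hV1, dt_mul_right, e2, ← mul_assoc, ← C_mul, inv_mul_cancel₀ hω0, C_1, one_mul]
    obtain ⟨a, b, hab⟩ := minor_ne_zero hU1d hV1d hT1 hg.ne_zero hα0 f1 f2
    have hαd' := hαd _ (dt_natDegree hld hU)
    have hγ : g.natDegree ≤ D + q1 := by omega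
    have hβd' := hβd _ (dt_natDegree hld hV) (by omega)
    obtain ⟨c, c', x, z, y', κ, w, hz, hw, hdet, hκ, hLM⟩ := norm_core hq hU1d hT1
    have hdet' : C (x : ℂ) * C (y' : ℂ) - C (z : ℂ) * cc w = 1 := by
      have := congrArg cc hdet
      rw [map_sub, map_mul, map_mul, map_one, cc_C, cc_C, cc_C] at this
      exact this
    have hV2 : aV (C κ⁻¹ * w) (κ⁻¹ * y') U1 V1 = κ⁻¹ • aV w y' U1 V1 := by
      funext j
      simp only [aV, Pi.smul_apply, rsmul, map_mul, cc_C, Complex.ofReal_mul]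
      ring
    have h0' : rho c q1 (aU x z U1 V1) = 1 := by
      rw [← LM_zero q1 q2 c c' _ (aV w y' U1 V1), hLM]; rfl
    have h2' : rho c q2 (aV w y' U1 V1) = 0 := by
      rw [← LM_two q1 q2 c c' (aU x z U1 V1), hLM]; rfl
    have h3' : rho c' q2 (aV w y' U1 V1) = κ := by
      rw [← LM_three q1 q2 c c' (aU x z U1 V1), hLM]; rfl
    have hκ' : κ⁻¹ ≠ 0 := inv_ne_zero hκ
    refine Or.inr ⟨g.natDegree, c, c', hγ, h0, aU x z U1 V1, aV (C κ⁻¹ * w) (κ⁻¹ * y') U1 V1,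
      C x * α + C z * β, C κ⁻¹ * w * α + C (κ⁻¹ * y') * β, g, ?_, ?_, ?_, ?_, hg, rfl, ?_, ?_, ?_,
      a, b, ?_⟩
    · rcases hq.lt_or_eq with h' | h'
      · rw [hz h']
        exact dg_aU_zero hU1d x
      · subst h'
        exact dg_aU hU1d hV1d x z
    · exact dg_aV hU1d hV1d hq ((natDegree_C_mul_le _ _).trans hw) _
    · rcases hq.lt_or_eq with h' | h'
      · rw [hz h', C_0, zero_mul, add_zero]
        exact (natDegree_C_mul_le _ _).trans (by omega)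
      · subst h'
        exact (natDegree_add_le_of_le (n := D + q1 - g.natDegree)
          ((natDegree_C_mul_le _ _).trans (by omega))
          ((natDegree_C_mul_le _ _).trans (by omega))).trans (max_self _).le
    · refine (natDegree_add_le_of_le (n := D + q2 - g.natDegree) (natDegree_mul_le.trans ?_)
        ((natDegree_C_mul_le _ _).trans (by omega))).trans (max_self _).le
      have := natDegree_C_mul_le κ⁻¹ w
      omega
    · rw [← hl, dt_aU, f1, f2, map_add, map_mul, map_mul, cc_C, cc_C]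
      ring
    · rw [← hl, dt_aV, f1, f2]
      simp only [map_add, map_mul, cc_C, Complex.ofReal_mul]
      ring
    · funext i
      fin_cases i
      · show LM q1 q2 c c' _ _ 0 = 1
        rw [LM_zero, h0']
      · show LM q1 q2 c c' _ _ 1 = 0
        rcases hq.lt_or_eq with h' | h'
        · rw [LM_one_ne h'.ne, hV2, map_smul, ← LM_one_ne h'.ne c c' (aU x z U1 V1), hLM]
          simp
        · rw [LM_one_eq h', ← LM_one_eq h' c c' _ (aV w y' U1 V1), hLM]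
          rfl
      · show LM q1 q2 c c' _ _ 2 = 0
        rw [LM_two, hV2, map_smul, h2', smul_zero]
      · show LM q1 q2 c c' _ _ 3 = 1
        rw [LM_three, hV2, map_smul, h3', smul_eq_mul, inv_mul_cancel₀ hκ]
    · rw [minor_act]
      have e3 : C (x : ℂ) * C ((κ⁻¹ * y' : ℝ) : ℂ) - C (z : ℂ) * cc (C κ⁻¹ * w) =
          C ((κ⁻¹ : ℝ) : ℂ) := by
        rw [map_mul, cc_C, Complex.ofReal_mul, C_mul]
        linear_combination C ((κ⁻¹ : ℝ) : ℂ) * hdet'
      rw [e3]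
      refine mul_ne_zero ?_ hab
      rw [Ne, C_eq_zero]
      exact_mod_cast hκ'

end Pool.Agent.H53.DP
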