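import Pool.Agent.H53.DP.Dim
import Pool.Agent.H53.DP.Base

/-!
# Module StrC: the polynomials of the second kind form a small set

PROOF. `BadIC` is contained in the range of the map
`E = (Fin (k + 1) → Fin (ε + 1) → ℂ) × (Fin (q - 2 * ε + 1) → ℝ) → (Fin (2 * D + q + 1) → ℝ)`,
`(e, h) ↦ (n ↦ Re ((cc (rp h) * (cj (dt l (lp e)) * dt l (lp e))).coeff n))`
(`exists_lp`, `rp_rf`, `cc_coeff`, `rf_rp`). It is `C^1`: `contDiff_pi`, every coordinate is a finite
sum of products of real linear functions (`coeff_mul`, `dt`, `cp_apply`, `rp_apply`); e.g. prove: if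
`P, Q : E → ℂ[X]` have all coefficients `C^1` then so has `P * Q` (`coeff_mul`, `ContDiff.sum`).
Dimension: `2 (k + 1) (ε + 1) + (q - 2 ε + 1) < 2 D + q + 1` since `2 k ε + 2 k + 2 ≤ k q + 2 k + 2 <
q (2 k + 1) + 4 k ≤ 2 D` (`k, q ≥ 1`). `dimH_small`.
-/

set_option autoImplicit false

open Polynomial Module

namespace Pool.Agent.H53.DP

def BadIC (k D q ε : ℕ) (l : Fin (k + 1) → ℂ[X]) : Set (Fin (2 * D + q + 1) → ℝ) :=
  {p | ∃ (e : Fin (k + 1) → ℂ[X]) (h : ℝ[X]), Dg ε e ∧ h.natDegree ≤ q - 2 * ε ∧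
    cc (rp p) = cc h * (cj (dt l e) * dt l e)}

section

variable {E : Type} [NormedAddCommGroup E] [NormedSpace ℝ E]

/-- all coefficients are `C^1` -/
def CD (P : E → ℂ[X]) : Prop := ∀ n, ContDiff ℝ 1 fun x => (P x).coeff n

theorem CD.mul {P Q : E → ℂ[X]} (hP : CD P) (hQ : CD Q) : CD fun x => P x * Q x := by
  intro n
  simp only [coeff_mul]
  exact ContDiff.sum fun i _ => (hP _).mul (hQ _)

theorem CD.sum {ι : Type} {s : Finset ι} {P : ι → E → ℂ[X]} (h : ∀ i ∈ s, CD (P i)) :
    CD fun x => ∑ i ∈ s, P i x := by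
  intro n
  simp only [finsetSum_coeff]
  exact ContDiff.sum fun i hi => h i hi n

theorem CD.const (P : ℂ[X]) : CD fun _ : E => P := fun _ => contDiff_const

theorem CD.cj {P : E → ℂ[X]} (hP : CD P) : CD fun x => cj (P x) := by
  intro n
  simp only [cj_coeff]
  exact Complex.conjCLE.contDiff.comp (hP n)

end

/-- arrays of the coefficients of `e` and `h` -/
abbrev EC (k ε q : ℕ) : Type := (Fin (k + 1) → Fin (ε + 1) → ℂ) × (Fin (q - 2 * ε + 1) → ℝ)

theorem dimH_BadIC {k D q ε : ℕ} (hk : 1 ≤ k) (hq : 1 ≤ q) (hε : 2 * ε ≤ q)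
    (hn : q * (2 * k + 1) + 4 * k ≤ 2 * D) (l : Fin (k + 1) → ℂ[X]) :
    dimH (BadIC k D q ε l) < finrank ℝ (Fin (2 * D + q + 1) → ℝ) := by
  let f : EC k ε q → (Fin (2 * D + q + 1) → ℝ) := fun x n =>
    ((cc (rp x.2) * (cj (dt l (lp x.1)) * dt l (lp x.1))).coeff (n : ℕ)).re
  refine dimH_small f ?_ ?_ ?_
  · rw [contDiff_pi]
    intro n
    have h1 : CD fun x : EC k ε q => dt l (lp x.1) := by
      unfold dt
      refine CD.sum fun a _ => (CD.const (l a)).mul ?_
      intro i
      simp only [lp, cp_coeff]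
      by_cases h : i < ε + 1
      · simp only [dif_pos h]
        fun_prop
      · simp only [dif_neg h]
        exact contDiff_const
    have h2 : CD fun x : EC k ε q => cc (rp x.2) := by
      intro i
      have h3 : ContDiff ℝ 1 fun x : EC k ε q => (rp x.2).coeff i := by
        simp only [rp_coeff]
        by_cases h : i < q - 2 * ε + 1
        · simp only [dif_pos h]
          fun_prop
        · simp only [dif_neg h]
          exact contDiff_const
      simp only [cc_coeff]
      exact Complex.ofRealCLM.contDiff.comp h3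
    exact Complex.reCLM.contDiff.comp ((h2.mul (h1.cj.mul h1)) n)
  · simp only [Module.finrank_prod, Module.finrank_pi_fintype, Complex.finrank_real_complex,
      Module.finrank_self, Finset.sum_const, Finset.card_univ, Fintype.card_fin, smul_eq_mul]
    obtain ⟨t, rfl⟩ : ∃ t, q = 2 * ε + t := ⟨q - 2 * ε, by omega⟩
    rw [Nat.add_sub_cancel_left]
    nlinarith
  · rintro p ⟨e, h, he, hh, hp⟩
    obtain ⟨e', rfl⟩ := exists_lp he
    refine ⟨(e', rf _ h), ?_⟩
    funext n
    simp only [f, rp_rf hh, ← hp, cc_coeff, Complex.ofReal_re]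
    rw [← rf_apply (n := 2 * D + q + 1), rf_rp]

end Pool.Agent.H53.DP
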