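import Pool.Agent.H53.DP.StrI
import Pool.Agent.H53.DP.StrC
import Pool.Agent.H53.DP.CFac
import Pool.Agent.H53.DP.Ind
import Pool.Agent.H53.DP.Nrm

/-!
# Module MemBadI: an assignable polynomial lies in a bad set

PROOF of `mem_badI`. Case 1: all minors vanish. `exists_common`: `U = x e`, `V = y e`, so
`dt l U = x * dt l e`, `dt l V = y * dt l e` (`dt_mul_right`) and
`conj (l·U) (l·V) - (l·U) conj (l·V) = (cj x * y - x * cj y) * (cj (dt l e) * dt l e)`; `exists_im`
gives `h`; cancel `C (2 I)`: `cc (rp p) = cc h * (...)`; `natDegree h ≤ (q1 - ε) + (q2 - ε) = q - 2 ε`,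
`2 ε ≤ q`. So `p ∈ BadIC k D q ε l`.
Case 2: a coefficient `z = (U a * V b - U b * V a).coeff r ≠ 0`; `r ≤ q` (`natDegree ≤ q1 + q2`).
Choose `ω` with `ω ^ 2 = conj z / ‖z‖` (`‖ω‖ = 1`), `U1 = C ω * U`, `V1 = C ω * V`: the form is
unchanged (`conj ω * ω = 1`), the coefficient becomes `ω ^ 2 z = ‖z‖`, `TI.smul`, `Dg.smul`. `norm_core`
gives `c, c', x, z', y, κ, w`, `U2 = aU x z' U1 V1`, `V2 = aV w y U1 V1`: degrees `dg_aU` (`q1 = q2`),
`dg_aU_zero` (`q1 < q2`), `dg_aV`; minors unchanged (`minor_act`, determinant `1`, apply `cc` to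
`C x * C y - C z * w = 1`); the form is multiplied by the determinant: with `A = l·U1`, `B = l·V1`,
`(x A + z B, w A + y B)`, `w` real (`cj_cc`, `cj_C`): `ring` after `dt_aU`, `dt_aV`.
So `p ∈ BadI k D q q1 q2 l c c' a b r`.
-/

set_option autoImplicit false

open Polynomial Module

namespace Pool.Agent.H53.DP

theorem mem_badI {k D q q1 q2 : ℕ} (hq : q1 ≤ q2) (hqq : q1 + q2 = q)
    {l : Fin (k + 1) → ℂ[X]} {U V : Fin (k + 1) → ℂ[X]} (hU : Dg q1 U) (hV : Dg q2 V)
    (hT : TI q1 q2 U V) {p : Fin (2 * D + q + 1) → ℝ}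
    (h : cj (dt l U) * dt l V - dt l U * cj (dt l V) = C (2 * Complex.I) * cc (rp p)) :
    (∃ ε, 2 * ε ≤ q ∧ p ∈ BadIC k D q ε l) ∨
      ∃ (c c' : Fin (k + 1) × Bool) (a b : Fin (k + 1)) (r : ℕ), r ≤ q ∧
        p ∈ BadI k D q q1 q2 l c c' a b r := by
  have hI2 : (C (2 * Complex.I) : ℂ[X]) ≠ 0 := by
    rw [Ne, C_eq_zero]
    simp
  by_cases hm : ∀ a b, U a * V b - U b * V a = 0
  · obtain ⟨ε, e, x, y, he, hx, hy, hUe, hVe⟩ := exists_common hU hV hT hm
    obtain ⟨hh, hh1, hh2⟩ := exists_im x y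
    have e1 : dt l U = x * dt l e := by
      rw [← dt_mul_right]
      congr 1
      funext a
      exact hUe a
    have e2 : dt l V = y * dt l e := by
      rw [← dt_mul_right]
      congr 1
      funext a
      exact hVe a
    refine Or.inl ⟨ε, by omega, e, hh, he, by omega, ?_⟩
    refine mul_left_cancel₀ hI2 ?_
    rw [← h, e1, e2, map_mul, map_mul]
    linear_combination (cj (dt l e) * dt l e) * hh1
  · push Not at hm
    obtain ⟨a, b, hab⟩ := hm
    set m := U a * V b - U b * V a with hmd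
    have hr : m.natDegree ≤ q := by
      refine (natDegree_sub_le_of_le (natDegree_mul_le_of_le (hU a) (hV b))
        (natDegree_mul_le_of_le (hU b) (hV a))).trans ?_
      rw [max_self]
      omega
    set r := m.natDegree with hrd
    set z := m.coeff r with hz
    have hz0 : z ≠ 0 := leadingCoeff_ne_zero.2 hab
    have hzn : ((‖z‖ : ℝ) : ℂ) ≠ 0 := by exact_mod_cast (norm_pos_iff.2 hz0).ne'
    obtain ⟨ω, hω⟩ := IsAlgClosed.exists_pow_nat_eq ((starRingEnd ℂ) z / ((‖z‖ : ℝ) : ℂ))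
      (n := 2) two_pos
    have hzz : (starRingEnd ℂ) z * z = ((‖z‖ : ℝ) : ℂ) ^ 2 := by
      rw [mul_comm, Complex.mul_conj, Complex.normSq_eq_norm_sq]
      push_cast
      rfl
    have hωω : (starRingEnd ℂ) ω * ω = 1 := by
      have h3 : ((starRingEnd ℂ) ω * ω) ^ 2 = 1 := by
        rw [mul_pow, ← map_pow, hω, map_div₀, Complex.conj_conj, Complex.conj_ofReal,
          div_mul_div_comm, mul_comm z, hzz, ← pow_two, div_self (pow_ne_zero 2 hzn)]
      rw [← Complex.normSq_eq_conj_mul_self] at h3 ⊢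
      have h4 : Complex.normSq ω ^ 2 = 1 := by exact_mod_cast h3
      have h5 : Complex.normSq ω = 1 := by
        have := Complex.normSq_nonneg ω
        nlinarith
      rw [h5, Complex.ofReal_one]
    have hω0 : ω ≠ 0 := by
      rintro rfl
      simp at hωω
    have hωz : ω * ω * z = ((‖z‖ : ℝ) : ℂ) := by
      rw [← pow_two, hω, div_mul_eq_mul_div, hzz, pow_two, mul_div_assoc, div_self hzn, mul_one]
    set U1 : Fin (k + 1) → ℂ[X] := fun j => C ω * U j with hU1
    set V1 : Fin (k + 1) → ℂ[X] := fun j => C ω * V j with hV1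
    have hU1d : Dg q1 U1 := hU.smul _
    have hV1d : Dg q2 V1 := hV.smul _
    have hT1 : TI q1 q2 U1 V1 := hT.smul hω0
    obtain ⟨c, c', x, z', y', κ, w, hz', hw, hdet, hκ, hLM⟩ := norm_core hq hU1d hT1
    have hdet' : C (x : ℂ) * C (y' : ℂ) - C (z' : ℂ) * cc w = 1 := by
      have := congrArg cc hdet
      rw [map_sub, map_mul, map_mul, map_one, cc_C, cc_C, cc_C] at this
      exact this
    have hmin : aU x z' U1 V1 a * aV w y' U1 V1 b - aU x z' U1 V1 b * aV w y' U1 V1 a =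
        C (ω * ω) * m := by
      rw [minor_act, hdet', one_mul, hU1, hV1, hmd, C_mul]
      ring
    have hcoef : (aU x z' U1 V1 a * aV w y' U1 V1 b - aU x z' U1 V1 b * aV w y' U1 V1 a).coeff r =
        ((‖z‖ : ℝ) : ℂ) := by
      rw [hmin, coeff_C_mul, ← hz, hωz]
    refine Or.inr ⟨c, c', a, b, r, hr, aU x z' U1 V1, aV w y' U1 V1, ?_, ?_, ⟨κ, hκ, hLM⟩,
      ?_, ?_, ?_⟩
    · rcases hq.lt_or_eq with h' | h'
      · rw [hz' h']
        exact dg_aU_zero hU1d x
      · subst h'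
        exact dg_aU hU1d hV1d x z'
    · exact dg_aV hU1d hV1d hq hw _
    · rw [hcoef, Complex.ofReal_im]
    · rw [hcoef]
      exact hzn
    · have hW : C ((starRingEnd ℂ) ω) * C ω = 1 := by
        rw [← C_mul, hωω, C_1]
      rw [dt_aU, dt_aV, hU1, hV1, dt_mul_right, dt_mul_right]
      rw [C_mul] at h
      simp only [map_add, map_mul, cj_C, cj_cc, Complex.conj_ofReal]
      linear_combination (C ((starRingEnd ℂ) ω) * C ω *
        (cj (dt l U) * dt l V - dt l U * cj (dt l V))) * hdet' +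
        (cj (dt l U) * dt l V - dt l U * cj (dt l V)) * hW + h

end Pool.Agent.H53.DP
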