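import Pool.Agent.H53.DP.Alg

/-!
# Module ParW: decomposable arrays over `ℝ[X]` are wedge products

PROOF of `exists_wedge`. Let `x i0 j0 ≠ 0`. The Plücker relation for `(i0, j0, j, k)` gives
`x i0 j0 * x j k = u j * v k - u k * v j` with `u = x i0`, `v = x j0` (up to signs). Claim (strong
induction on `natDegree P`): if `P ≠ 0`, `P * x j k = u j * v k - u k * v j` for all `j, k` then `x` is a
wedge. If `natDegree P = 0`, `P = C c`, take `C c⁻¹ * u`, `v`. Otherwise let `π` be an irreducible (prime)
factor of `P` (`Polynomial.exists_irreducible_of_natDegree_pos` or `WfDvdMonoid.exists_irreducible_factor`),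
`P = π * P'`. If `π ∣ v j` for all `j`: replace `v` by `v / π`. Otherwise let `π ∤ v j0`, so
`s * v j0 + t * π = 1` (coprime, `Irreducible.coprime_iff_not_dvd`). Put `β = s * u j0`. Then
`π ∣ u j - β * v j` for all `j`: modulo `π`: `u j = u j * (s * v j0) = s * (u j0 * v j)` because
`π ∣ u j * v j0 - u j0 * v j`. Replace `u` by `(u - β v) / π`: `(u - β v) ∧ v = u ∧ v`. Cancel `π`.
-/

set_option autoImplicit false

open Polynomial

namespace Pool.Agent.H53.DP

theorem wedge_aux {J : Type} {x : J → J → ℝ[X]} : ∀ (n : ℕ) (P : ℝ[X]) (u v : J → ℝ[X]),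
    P.natDegree ≤ n → P ≠ 0 → (∀ i j, P * x i j = u i * v j - u j * v i) →
    ∃ u v : J → ℝ[X], ∀ i j, x i j = u i * v j - u j * v i := by
  intro n
  induction n with
  | zero =>
    intro P u v hP hP0 h
    have hc : P = C (P.coeff 0) := eq_C_of_natDegree_le_zero hP
    have hc0 : P.coeff 0 ≠ 0 := fun h0 => hP0 (by rw [hc, h0, C_0])
    refine ⟨fun j => C (P.coeff 0)⁻¹ * u j, v, fun i j => ?_⟩
    have h1 : C (P.coeff 0)⁻¹ * P = 1 := by
      nth_rewrite 2 [hc]
      rw [← C_mul, inv_mul_cancel₀ hc0, C_1]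
    have h2 := h i j
    calc x i j = (C (P.coeff 0)⁻¹ * P) * x i j := by rw [h1, one_mul]
      _ = C (P.coeff 0)⁻¹ * (P * x i j) := by ring
      _ = _ := by rw [h2]; ring
  | succ n ih =>
    intro P u v hP hP0 h
    by_cases hPn : P.natDegree ≤ n
    · exact ih P u v hPn hP0 h
    have hPd : 0 < P.natDegree := by omega
    have hu : ¬ IsUnit P := fun hu => by
      have := natDegree_eq_zero_of_isUnit hu
      omega
    obtain ⟨π, hπ, P', hP'⟩ := WfDvdMonoid.exists_irreducible_factor hu hP0
    have hπ0 : π ≠ 0 := hπ.ne_zero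
    have hP'0 : P' ≠ 0 := fun h0 => hP0 (by rw [hP', h0, mul_zero])
    have hdeg : P'.natDegree ≤ n := by
      have h1 : P.natDegree = π.natDegree + P'.natDegree := by
        rw [hP', natDegree_mul hπ0 hP'0]
      have h2 := hπ.natDegree_pos
      omega
    by_cases hv : ∀ j, π ∣ v j
    · choose w hw using hv
      refine ih P' u w hdeg hP'0 fun i j => ?_
      have h1 := h i j
      refine mul_left_cancel₀ hπ0 ?_
      rw [hP', hw i, hw j] at h1
      linear_combination h1
    · push Not at hv
      obtain ⟨j0, hj0⟩ := hv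
      obtain ⟨t, s, hst⟩ := (hπ.coprime_iff_not_dvd).2 hj0
      have hd : ∀ j, π ∣ u j - s * u j0 * v j := by
        intro j
        have h1 := h j j0
        refine ⟨t * u j + s * P' * x j j0, ?_⟩
        rw [hP'] at h1
        linear_combination (-u j) * hst - s * h1
      choose w hw using hd
      refine ih P' w v hdeg hP'0 fun i j => ?_
      have h1 := h i j
      refine mul_left_cancel₀ hπ0 ?_
      rw [hP'] at h1
      linear_combination h1 + v j * hw i - v i * hw j

theorem exists_wedge {J : Type} {x : J → J → ℝ[X]} (hx : Dec x) (h0 : x ≠ 0) :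
    ∃ u v : J → ℝ[X], ∀ i j, x i j = u i * v j - u j * v i := by
  have h1 : ∃ i0 j0, x i0 j0 ≠ 0 := by
    by_contra hc
    push Not at hc
    exact h0 (funext fun i => funext fun j => hc i j)
  obtain ⟨i0, j0, h2⟩ := h1
  refine wedge_aux (x := x) _ (x i0 j0) (fun j => x i0 j) (fun j => x j0 j) le_rfl h2
    fun i j => ?_
  have h3 := hx.2.2 i0 j0 i j
  linear_combination h3

end Pool.Agent.H53.DP
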