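import Pool.Agent.H53.DP.Base

/-!
# Module Rho: real coordinates of the coefficient vectors, the real gauge transformations

`rho c n U`: real (`c.2 = false`) or imaginary (`c.2 = true`) part of the coefficient of `X ^ n` of the
entry `U c.1`. `aU x z U V = x U + z V`, `aV w y U V = w U + y V` (`x`, `y`, `z` real, `w` a real
polynomial). `LM` = the four normalisations.

PROOFS. `rho_aU`: coefficients, real and imaginary parts of a real multiple.
`rho_top`: `coeff (X ^ d * U) (q1 + d) = coeff U q1` (`coeff_X_pow_mul`, `coeff_mul_X_pow`) and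
`coeff (X ^ (d - 1) * U) (q1 + d) = coeff U (q1 + 1) = 0` by `Dg q1 U`.
`rho_pre`: the coefficient of `X ^ (q1 + d - 1)` in `X ^ d * U` is `coeff U (q1 - 1)` (`0` if `q1 = 0`), in
`X ^ (d - 1) * U` it is `coeff U q1`.
-/

set_option autoImplicit false

open Polynomial

namespace Pool.Agent.H53.DP

variable {k : ℕ}

/-- real and imaginary parts of the coefficients -/
noncomputable def rho (c : Fin (k + 1) × Bool) (n : ℕ) : (Fin (k + 1) → ℂ[X]) →ₗ[ℝ] ℝ where
  toFun U := if c.2 then ((U c.1).coeff n).im else ((U c.1).coeff n).re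
  map_add' U V := by
    split_ifs
    · rw [Pi.add_apply, coeff_add, Complex.add_im]
    · rw [Pi.add_apply, coeff_add, Complex.add_re]
  map_smul' x U := by
    simp only [Pi.smul_apply, coeff_smul, RingHom.id_apply, Complex.real_smul, smul_eq_mul]
    split_ifs <;> simp

theorem rho_apply (c : Fin (k + 1) × Bool) (n : ℕ) (U : Fin (k + 1) → ℂ[X]) :
    rho c n U = if c.2 then ((U c.1).coeff n).im else ((U c.1).coeff n).re := rfl

/-- `x U + z V` -/
noncomputable def aU (x z : ℝ) (U V : Fin (k + 1) → ℂ[X]) : Fin (k + 1) → ℂ[X] := fun a =>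
  C (x : ℂ) * U a + C (z : ℂ) * V a

/-- `w U + y V` -/
noncomputable def aV (w : ℝ[X]) (y : ℝ) (U V : Fin (k + 1) → ℂ[X]) : Fin (k + 1) → ℂ[X] := fun a =>
  cc w * U a + C (y : ℂ) * V a

/-- the four normalisations, a linear map -/
noncomputable def LML (q1 q2 : ℕ) (c c' : Fin (k + 1) × Bool) :
    ((Fin (k + 1) → ℂ[X]) × (Fin (k + 1) → ℂ[X])) →ₗ[ℝ] (Fin 4 → ℝ) :=
  LinearMap.pi ![(rho c q1).comp (LinearMap.fst ℝ _ _),
    if q1 = q2 then (rho c' q1).comp (LinearMap.fst ℝ _ _)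
      else (rho c (q2 - 1)).comp (LinearMap.snd ℝ _ _),
    (rho c q2).comp (LinearMap.snd ℝ _ _), (rho c' q2).comp (LinearMap.snd ℝ _ _)]

/-- the four normalisations -/
noncomputable def LM (q1 q2 : ℕ) (c c' : Fin (k + 1) × Bool) (U V : Fin (k + 1) → ℂ[X]) :
    Fin 4 → ℝ := LML q1 q2 c c' (U, V)

theorem LM_zero (q1 q2 : ℕ) (c c' : Fin (k + 1) × Bool) (U V : Fin (k + 1) → ℂ[X]) :
    LM q1 q2 c c' U V 0 = rho c q1 U := rfl

theorem LM_two (q1 q2 : ℕ) (c c' : Fin (k + 1) × Bool) (U V : Fin (k + 1) → ℂ[X]) :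
    LM q1 q2 c c' U V 2 = rho c q2 V := rfl

theorem LM_three (q1 q2 : ℕ) (c c' : Fin (k + 1) × Bool) (U V : Fin (k + 1) → ℂ[X]) :
    LM q1 q2 c c' U V 3 = rho c' q2 V := rfl

theorem LM_one_eq {q1 q2 : ℕ} (h : q1 = q2) (c c' : Fin (k + 1) × Bool)
    (U V : Fin (k + 1) → ℂ[X]) : LM q1 q2 c c' U V 1 = rho c' q1 U := by
  show (if q1 = q2 then (rho c' q1).comp (LinearMap.fst ℝ _ _)
      else (rho c (q2 - 1)).comp (LinearMap.snd ℝ _ _)) (U, V) = _
  rw [if_pos h]
  rfl

theorem LM_one_ne {q1 q2 : ℕ} (h : q1 ≠ q2) (c c' : Fin (k + 1) × Bool)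
    (U V : Fin (k + 1) → ℂ[X]) : LM q1 q2 c c' U V 1 = rho c (q2 - 1) V := by
  show (if q1 = q2 then (rho c' q1).comp (LinearMap.fst ℝ _ _)
      else (rho c (q2 - 1)).comp (LinearMap.snd ℝ _ _)) (U, V) = _
  rw [if_neg h]
  rfl

theorem rho_aU (c : Fin (k + 1) × Bool) (n : ℕ) (x z : ℝ) (U V : Fin (k + 1) → ℂ[X]) :
    rho c n (aU x z U V) = x * rho c n U + z * rho c n V := by
  have h : aU x z U V = x • U + z • V := by
    funext a
    simp only [aU, Pi.add_apply, Pi.smul_apply, rsmul]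
  rw [h, map_add, map_smul, map_smul, smul_eq_mul, smul_eq_mul]

theorem rho_aV_C (c : Fin (k + 1) × Bool) (n : ℕ) (w y : ℝ) (U V : Fin (k + 1) → ℂ[X]) :
    rho c n (aV (C w) y U V) = w * rho c n U + y * rho c n V := by
  have h : aV (C w) y U V = w • U + y • V := by
    funext a
    simp only [aV, Pi.add_apply, Pi.smul_apply, rsmul, cc_C]
  rw [h, map_add, map_smul, map_smul, smul_eq_mul, smul_eq_mul]

/-- the coefficients of `aV` for a binomial `w` -/
theorem aV_coeff {d : ℕ} (U V : Fin (k + 1) → ℂ[X]) (r0 r1 y : ℝ) :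
    aV (C r0 * X ^ d + C r1 * X ^ (d - 1)) y U V =
      r0 • (fun a => X ^ d * U a) + r1 • (fun a => X ^ (d - 1) * U a) + y • V := by
  funext a
  simp only [aV, Pi.add_apply, Pi.smul_apply, rsmul, cc_C, map_add, map_mul, map_pow, cc_X]
  ring

theorem rho_shift (c : Fin (k + 1) × Bool) (n d : ℕ) (U : Fin (k + 1) → ℂ[X]) :
    rho c n (fun a => X ^ d * U a) = if d ≤ n then rho c (n - d) U else 0 := by
  simp only [rho_apply]
  have h : (X ^ d * U c.1).coeff n = if d ≤ n then (U c.1).coeff (n - d) else 0 := by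
    rw [mul_comm, coeff_mul_X_pow']
  rw [h]
  split_ifs <;> simp

theorem rho_top {q1 d : ℕ} (hd : 1 ≤ d) {U : Fin (k + 1) → ℂ[X]} (hU : Dg q1 U)
    (V : Fin (k + 1) → ℂ[X]) (c : Fin (k + 1) × Bool) (r0 r1 y : ℝ) :
    rho c (q1 + d) (aV (C r0 * X ^ d + C r1 * X ^ (d - 1)) y U V) =
      r0 * rho c q1 U + y * rho c (q1 + d) V := by
  rw [aV_coeff, map_add, map_add, map_smul, map_smul, map_smul, rho_shift, rho_shift,
    if_pos (by omega), if_pos (by omega), Nat.add_sub_cancel,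
    show q1 + d - (d - 1) = q1 + 1 by omega]
  have h : rho c (q1 + 1) U = 0 := by
    rw [rho_apply, coeff_eq_zero_of_natDegree_lt (lt_of_le_of_lt (hU c.1) (Nat.lt_succ_self q1))]
    simp
  rw [h]
  simp

theorem rho_pre {q1 d : ℕ} (hd : 1 ≤ d) {U : Fin (k + 1) → ℂ[X]}
    (V : Fin (k + 1) → ℂ[X]) (c : Fin (k + 1) × Bool) (r0 r1 y : ℝ) :
    rho c (q1 + d - 1) (aV (C r0 * X ^ d + C r1 * X ^ (d - 1)) y U V) =
      r0 * (if q1 = 0 then 0 else rho c (q1 - 1) U) + r1 * rho c q1 U +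
        y * rho c (q1 + d - 1) V := by
  rw [aV_coeff, map_add, map_add, map_smul, map_smul, map_smul, rho_shift, rho_shift,
    if_pos (show d - 1 ≤ q1 + d - 1 by omega), show q1 + d - 1 - (d - 1) = q1 by omega]
  simp only [smul_eq_mul]
  rcases Nat.eq_zero_or_pos q1 with h | h
  · rw [if_neg (by omega), if_pos h]
  · rw [if_pos (by omega), if_neg (by omega), show q1 + d - 1 - d = q1 - 1 by omega]

/-- two vectors which are independent over `ℝ` have a nonzero `2 × 2` minor. PROOF: otherwise choose `c`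
with `rho c q1 U ≠ 0` (`TI.ne_zero_left`) and use `TI` with `x = - rho c q2 V`, `y = rho c q1 U`. If the
minor of `(c, c')` is not zero but `rho c q1 U = 0`, exchange `c` and `c'`. -/
theorem exists_cc {q1 q2 : ℕ} {U V : Fin (k + 1) → ℂ[X]} (hT : TI q1 q2 U V) :
    ∃ c c' : Fin (k + 1) × Bool, rho c q1 U ≠ 0 ∧
      rho c q1 U * rho c' q2 V - rho c' q1 U * rho c q2 V ≠ 0 := by
  obtain ⟨a, ha⟩ := hT.ne_zero_left
  obtain ⟨c, hc⟩ : ∃ c : Fin (k + 1) × Bool, rho c q1 U ≠ 0 := by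
    by_contra h
    push Not at h
    apply ha
    have h1 := h (a, false)
    have h2 := h (a, true)
    rw [rho_apply] at h1 h2
    exact Complex.ext (by simpa using h1) (by simpa using h2)
  by_contra hcon
  push Not at hcon
  have h := hcon c
  have h3 : ∀ c', rho c q1 U * rho c' q2 V - rho c' q1 U * rho c q2 V = 0 := fun c' => h c' hc
  have h4 := (hT (-rho c q2 V) (rho c q1 U) fun b => ?_).2
  · exact hc h4
  · have e1 := h3 (b, false)
    have e2 := h3 (b, true)
    rw [rho_apply (b, false), rho_apply (b, false)] at e1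
    rw [rho_apply (b, true), rho_apply (b, true)] at e2
    apply Complex.ext
    · simp at e1 ⊢
      linarith
    · simp at e2 ⊢
      linarith

theorem dt_aU (l U V : Fin (k + 1) → ℂ[X]) (x z : ℝ) :
    dt l (aU x z U V) = C (x : ℂ) * dt l U + C (z : ℂ) * dt l V := by
  rw [← dt_mul_right, ← dt_mul_right, ← dt_add_right]
  rfl

theorem dt_aV (l U V : Fin (k + 1) → ℂ[X]) (w : ℝ[X]) (y : ℝ) :
    dt l (aV w y U V) = cc w * dt l U + C (y : ℂ) * dt l V := by
  rw [← dt_mul_right, ← dt_mul_right, ← dt_add_right]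
  rfl

theorem minor_act (U V : Fin (k + 1) → ℂ[X]) (x z y : ℝ) (w : ℝ[X]) (a b : Fin (k + 1)) :
    aU x z U V a * aV w y U V b - aU x z U V b * aV w y U V a =
      (C (x : ℂ) * C (y : ℂ) - C (z : ℂ) * cc w) * (U a * V b - U b * V a) := by
  unfold aU aV
  ring

theorem dg_aU {q : ℕ} {U V : Fin (k + 1) → ℂ[X]} (hU : Dg q U) (hV : Dg q V) (x z : ℝ) :
    Dg q (aU x z U V) := fun a =>
  (natDegree_add_le_of_le ((natDegree_C_mul_le _ _).trans (hU a))
    ((natDegree_C_mul_le _ _).trans (hV a))).trans (max_self q).le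

theorem dg_aU_zero {q : ℕ} {U V : Fin (k + 1) → ℂ[X]} (hU : Dg q U) (x : ℝ) :
    Dg q (aU x 0 U V) := fun a => by
  unfold aU
  rw [Complex.ofReal_zero, C_0, zero_mul, add_zero]
  exact (natDegree_C_mul_le _ _).trans (hU a)

theorem dg_aV {q1 q2 : ℕ} {U V : Fin (k + 1) → ℂ[X]} (hU : Dg q1 U) (hV : Dg q2 V)
    (hq : q1 ≤ q2) {w : ℝ[X]} (hw : w.natDegree ≤ q2 - q1) (y : ℝ) :
    Dg q2 (aV w y U V) := fun a => by
  refine (natDegree_add_le_of_le (n := q2) (natDegree_mul_le.trans ?_)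
    ((natDegree_C_mul_le _ _).trans (hV a))).trans (max_self q2).le
  rw [natDegree_cc]
  have := hU a
  omega

end Pool.Agent.H53.DP
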