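import Pool.Agent.H53.DP.Base

/-!
# Lemma S1: the linearised equations are solvable

`M = (ua ub; va vb)`, `Δ = det M` is prime to `lam`, `lam` has degree exactly `D`.
Modulo `lam` the matrix `M` is invertible: choose `x` with `M x ≡ w (mod lam)`, `deg x ≤ D`;
the quotients `(w - M x)/lam` have degrees `≤ q1`, `≤ q2` automatically.
-/

set_option autoImplicit false

open Polynomial

namespace Pool.Agent.H53.DP

theorem quot_deg {D q : ℕ} {lam p w : ℂ[X]} (hl : lam.natDegree = D) (hl0 : lam ≠ 0)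
    (hw : w.natDegree ≤ D + q) (h : w = lam * p) : p.natDegree ≤ q := by
  rcases eq_or_ne p 0 with rfl | hp
  · simp
  · rw [h, natDegree_mul hl0 hp, hl] at hw
    omega

theorem s_two {D q1 q2 : ℕ} {ua ub va vb lam : ℂ[X]} (hua : ua.natDegree ≤ q1)
    (hub : ub.natDegree ≤ q1) (hva : va.natDegree ≤ q2) (hvb : vb.natDegree ≤ q2)
    (hl : lam.natDegree = D) (hl0 : lam ≠ 0)
    (hc : IsCoprime lam (ua * vb - ub * va)) {w1 w2 : ℂ[X]} (hw1 : w1.natDegree ≤ D + q1)
    (hw2 : w2.natDegree ≤ D + q2) :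
    ∃ x1 x2 p1 p2 : ℂ[X], x1.natDegree ≤ D ∧ x2.natDegree ≤ D ∧ p1.natDegree ≤ q1 ∧
      p2.natDegree ≤ q2 ∧ w1 = x1 * ua + x2 * ub + lam * p1 ∧
      w2 = x1 * va + x2 * vb + lam * p2 := by
  obtain ⟨s, t, hst⟩ := hc
  set y1 := t * (vb * w1 - ub * w2) with hy1
  set y2 := t * (ua * w2 - va * w1) with hy2
  have hd : ∀ y : ℂ[X], (y % lam).natDegree ≤ D := fun y => by
    rw [← hl]
    exact natDegree_le_natDegree (EuclideanDomain.mod_lt y hl0).le
  have hm : ∀ y : ℂ[X], y % lam = y - lam * (y / lam) := fun y => by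
    rw [eq_sub_iff_add_eq]
    exact EuclideanDomain.mod_add_div y lam
  have e1 : w1 - ((y1 % lam) * ua + (y2 % lam) * ub) =
      lam * (s * w1 + (y1 / lam) * ua + (y2 / lam) * ub) := by
    rw [hm y1, hm y2, hy1, hy2]
    linear_combination (-w1) * hst
  have e2 : w2 - ((y1 % lam) * va + (y2 % lam) * vb) =
      lam * (s * w2 + (y1 / lam) * va + (y2 / lam) * vb) := by
    rw [hm y1, hm y2, hy1, hy2]
    linear_combination (-w2) * hst
  refine ⟨y1 % lam, y2 % lam, s * w1 + (y1 / lam) * ua + (y2 / lam) * ub,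
    s * w2 + (y1 / lam) * va + (y2 / lam) * vb, hd _, hd _, ?_, ?_, ?_, ?_⟩
  · refine quot_deg hl hl0 ?_ e1
    exact (natDegree_sub_le_of_le hw1 (natDegree_add_le_of_le (natDegree_mul_le_of_le (hd _) hua)
      (natDegree_mul_le_of_le (hd _) hub))).trans (by simp)
  · refine quot_deg hl hl0 ?_ e2
    exact (natDegree_sub_le_of_le hw2 (natDegree_add_le_of_le (natDegree_mul_le_of_le (hd _) hva)
      (natDegree_mul_le_of_le (hd _) hvb))).trans (by simp)
  · linear_combination e1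
  · linear_combination e2

theorem s_one {D q : ℕ} {ua lam : ℂ[X]} (hua : ua.natDegree ≤ q)
    (hl : lam.natDegree = D) (hl0 : lam ≠ 0)
    (hc : IsCoprime lam ua) {w : ℂ[X]} (hw : w.natDegree ≤ D + q) :
    ∃ x p : ℂ[X], x.natDegree ≤ D ∧ p.natDegree ≤ q ∧ w = x * ua + lam * p := by
  obtain ⟨s, t, hst⟩ := hc
  have hd : ∀ y : ℂ[X], (y % lam).natDegree ≤ D := fun y => by
    rw [← hl]
    exact natDegree_le_natDegree (EuclideanDomain.mod_lt y hl0).le
  have hm : ∀ y : ℂ[X], y % lam = y - lam * (y / lam) := fun y => by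
    rw [eq_sub_iff_add_eq]
    exact EuclideanDomain.mod_add_div y lam
  have e1 : w - ((t * w) % lam) * ua = lam * (s * w + ((t * w) / lam) * ua) := by
    rw [hm]
    linear_combination (-w) * hst
  refine ⟨(t * w) % lam, s * w + ((t * w) / lam) * ua, hd _, ?_, by linear_combination e1⟩
  refine quot_deg hl hl0 ?_ e1
  exact (natDegree_sub_le_of_le hw (natDegree_mul_le_of_le (hd _) hua)).trans (by simp)

end Pool.Agent.H53.DP
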