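import Pool.Agent.H53.DP.Man
import Pool.Agent.H53.DP.Onto
import Pool.Agent.H53.DP.StrII

/-!
# Module StrA: no vector of small degree is orthogonal to a generic `l`

PROOF. `man` with `Y = Fin (k + 1) → Fin (D + 1) → ℂ`, `X = Fin (k + 1) → Fin (δ + 1) → ℂ`,
`W = (Fin (D + δ + 1) → ℂ) × ℂ`, `B (y, u) (y', u') = (cf _ (dt (lp y) (lp u')), 0)` (`LinearMap.mk₂`),
`L (y, u) = (0, (lp u a).coeff δ)`, constant `(0, -1)`. Dimensions `2 (k + 1) (δ + 1) < 2 (D + δ + 1) + 2`.
Surjectivity: given `(w, ν)`: `onto1` (`U a ≠ 0` as its coefficient of `X ^ δ` is `1`) for `cp w`: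
`h1 = (dl, dU)`, then `h2 = (0, C z * U)`, `z = ν - (dU a).coeff δ`: `dt l (C z * U) = 0`.
-/

set_option autoImplicit false

open Polynomial Module

namespace Pool.Agent.H53.DP

def BadA (k D δ : ℕ) (a : Fin (k + 1)) : Set (Fin (k + 1) → Fin (D + 1) → ℂ) :=
  {y | Good0 D (lp y) ∧ ∃ U : Fin (k + 1) → ℂ[X], Dg δ U ∧ dt (lp y) U = 0 ∧
    (U a).coeff δ = 1}

section Sys

variable (k D δ : ℕ) (a : Fin (k + 1))

/-- the quadratic part -/
noncomputable def BA : (YY k D × (Fin (k + 1) → Fin (δ + 1) → ℂ)) →ₗ[ℝ]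
    (YY k D × (Fin (k + 1) → Fin (δ + 1) → ℂ)) →ₗ[ℝ] ((Fin (D + δ + 1) → ℂ) × ℂ) :=
  LinearMap.mk₂ ℝ (fun z w => (cf (D + δ + 1) (dt (lp z.1) (lp w.2)), 0))
    (fun z z' w => by
      simp only [Prod.fst_add, lp_add, dt_add_left, map_add, Prod.mk_add_mk, add_zero])
    (fun x z w => by
      simp only [Prod.smul_fst, lp_smul, dt_smul_left, map_smul, Prod.smul_mk, smul_zero])
    (fun z w w' => by
      simp only [Prod.snd_add, lp_add, dt_add_right, map_add, Prod.mk_add_mk, add_zero])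
    (fun x z w => by
      simp only [Prod.smul_snd, lp_smul, dt_smul_right, map_smul, Prod.smul_mk, smul_zero])

theorem BA_apply (z w : YY k D × (Fin (k + 1) → Fin (δ + 1) → ℂ)) : BA k D δ z w =
    (cf (D + δ + 1) (dt (lp z.1) (lp w.2)), 0) := rfl

/-- the linear part -/
noncomputable def LA : (YY k D × (Fin (k + 1) → Fin (δ + 1) → ℂ)) →ₗ[ℝ]
    ((Fin (D + δ + 1) → ℂ) × ℂ) where
  toFun z := (0, (lp z.2 a).coeff δ)
  map_add' z z' := by
    simp only [Prod.snd_add, lp_add, Pi.add_apply, coeff_add, Prod.mk_add_mk, add_zero]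
  map_smul' x z := by
    simp only [Prod.smul_snd, lp_smul, Pi.smul_apply, coeff_smul, Prod.smul_mk, smul_zero,
      RingHom.id_apply]

theorem LA_apply (z : YY k D × (Fin (k + 1) → Fin (δ + 1) → ℂ)) : LA k D δ a z =
    (0, (lp z.2 a).coeff δ) := rfl

end Sys

theorem dimH_BadA {k D δ : ℕ} (hn : k * (δ + 1) < D + 1) (a : Fin (k + 1)) :
    dimH (BadA k D δ a) < finrank ℝ (Fin (k + 1) → Fin (D + 1) → ℂ) := by
  have hY : 0 < finrank ℝ (YY k D) := by
    simp only [Module.finrank_pi_fintype, Complex.finrank_real_complex, Finset.sum_const,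
      Finset.card_univ, Fintype.card_fin, smul_eq_mul]
    positivity
  have hX : finrank ℝ (Fin (k + 1) → Fin (δ + 1) → ℂ) <
      finrank ℝ ((Fin (D + δ + 1) → ℂ) × ℂ) := by
    simp only [Module.finrank_prod, Module.finrank_pi_fintype, Complex.finrank_real_complex,
      Finset.sum_const, Finset.card_univ, Fintype.card_fin, smul_eq_mul]
    nlinarith
  refine lt_of_le_of_lt (dimH_mono ?_) (man (BA k D δ) (LA k D δ a) (0, -1) hY hX)
  rintro y ⟨⟨ht, hz⟩, U, hU, h1, hUa⟩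
  obtain ⟨u, rfl⟩ := exists_lp hU
  refine ⟨u, ?_, ?_⟩
  · rw [BA_apply, LA_apply]
    simp only [h1, hUa, map_zero, Prod.mk_add_mk, add_zero, zero_add, add_neg_cancel]
    rfl
  · rintro ⟨w, ν⟩
    have hUa0 : lp u a ≠ 0 := by
      intro h
      rw [h, coeff_zero] at hUa
      exact zero_ne_one hUa
    obtain ⟨dl, dU, hdl, hdU, e1⟩ := onto1 (lp_dg y) ht hz hU hUa0 (cp_natDegree w)
    obtain ⟨dy, rfl⟩ := exists_lp hdl
    set x : ℂ := ν - (dU a).coeff δ with hx
    have hd : Dg δ (dU + fun b => C x * lp u b) :=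
      hdU.add fun b => (natDegree_C_mul_le _ _).trans (hU b)
    obtain ⟨du, hdu⟩ := exists_lp hd
    refine ⟨(dy, du), ?_⟩
    rw [BA_apply, BA_apply, LA_apply]
    simp only [hdu]
    have g1 : dt (lp y) (dU + fun b => C x * lp u b) + dt (lp dy) (lp u) = cp w := by
      rw [dt_add_right, dt_mul_right, h1, ← e1]
      ring
    have g2 : ((dU + fun b => C x * lp u b) a).coeff δ = ν := by
      rw [Pi.add_apply, coeff_add, coeff_C_mul, hUa, hx]
      ring
    simp only [Prod.mk_add_mk, add_zero, zero_add, ← map_add, g1, g2, cf_cp]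

end Pool.Agent.H53.DP
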