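import Pool.Agent.H53.DP.Man
import Pool.Agent.H53.DP.Gau
import Pool.Agent.H53.DP.StrII

/-!
# Module StrI: the polynomials of the first kind form a small set

`BadI` = the real polynomials `φ` (arrays `p`) with `2 i φ = conj (l·U) (l·V) - (l·U) conj (l·V)` for
normalised `U`, `V` such that the coefficient `z` of `X ^ r` in the minor `(a, b)` is real and not zero.

PROOF. `man` with `Y = Fin (2 * D + q + 1) → ℝ`,
`X = (Fin (k + 1) → Fin (q1 + 1) → ℂ) × (Fin (k + 1) → Fin (q2 + 1) → ℂ)`,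
`W = (Fin (2 * D + q + 1) → ℝ) × (Fin 3 → ℝ) × ℝ`. The equations are
`p n - Im ((cj (dt l U) * dt l V).coeff n) = 0` (the coefficient of `X ^ n` of
`conj (l·U) (l·V) - (l·U) conj (l·V)` is `w - conj w = 2 i Im w`, `w = (cj (dt l U) * dt l V).coeff n`),
`LM q1 q2 c c' U V i = ![1, 0, 0] i` (`i = 0, 1, 2`), `Im ((U a * V b - U b * V a).coeff r) = 0`, with
`U = lp u`, `V = lp v`. So
`B (p, u, v) (p', u', v') = (- Im ((cj (dt l (lp u)) * dt l (lp v')).coeff ·), 0,
Im ((lp u a * lp v' b - lp u b * lp v' a).coeff r))`, `L (p, u, v) = (p, LM (lp u) (lp v) (0, 1, 2), 0)`.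
Dimensions: `2 (k + 1) (q1 + q2 + 2) < 2 D + q + 5` by `hn`.
Surjectivity at a point of `BadI`: given `(w, ν, μ)`. Direction `t (i U, i V)`: the derivative of the last
equation is `t Im (2 i z) = 2 t Re z`, choose `t = μ / (2 Re z)` (`z` is real, `z ≠ 0`). Then
`gauge_core` (`κ = LM U V 3 ≠ 0`) for `ν - t LM (i U) (i V) (0, 1, 2)`: `x, z', w', e`, direction
`(aU x z' U V, aV w' (- x) U V)`: the derivative of the minor is `0` (`x - x = 0`, the other terms
cancel), so the last component is unchanged. Finally choose the direction in `p` to correct the first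
component (`w` is arbitrary). No condition on `l` except the degree (needed for nothing but the
direction arrays: `exists_lp` for `C I * U` etc.).
-/

set_option autoImplicit false

open Polynomial Module

namespace Pool.Agent.H53.DP

def BadI (k D q q1 q2 : ℕ) (l : Fin (k + 1) → ℂ[X]) (c c' : Fin (k + 1) × Bool)
    (a b : Fin (k + 1)) (r : ℕ) : Set (Fin (2 * D + q + 1) → ℝ) :=
  {p | ∃ U V : Fin (k + 1) → ℂ[X], Dg q1 U ∧ Dg q2 V ∧
    (∃ κ : ℝ, κ ≠ 0 ∧ LM q1 q2 c c' U V = ![1, 0, 0, κ]) ∧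
    ((U a * V b - U b * V a).coeff r).im = 0 ∧ (U a * V b - U b * V a).coeff r ≠ 0 ∧
    cj (dt l U) * dt l V - dt l U * cj (dt l V) = C (2 * Complex.I) * cc (rp p)}

section Sys

theorem cj_smul (x : ℝ) (p : ℂ[X]) : cj (x • p) = x • cj p := by
  rw [rsmul, rsmul, map_mul, cj_C, Complex.conj_ofReal]

/-- imaginary parts of the first `n` coefficients -/
noncomputable def imf (n : ℕ) : ℂ[X] →ₗ[ℝ] (Fin n → ℝ) where
  toFun p i := (p.coeff i).im
  map_add' p q := by
    funext i
    simp only [coeff_add, Complex.add_im, Pi.add_apply]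
  map_smul' x p := by
    funext i
    simp only [coeff_smul, Complex.real_smul, Complex.im_ofReal_mul, Pi.smul_apply, smul_eq_mul,
      RingHom.id_apply]

/-- imaginary part of one coefficient -/
noncomputable def imc (r : ℕ) : ℂ[X] →ₗ[ℝ] ℝ where
  toFun p := (p.coeff r).im
  map_add' p q := by
    simp only [coeff_add, Complex.add_im]
  map_smul' x p := by
    simp only [coeff_smul, Complex.real_smul, Complex.im_ofReal_mul, smul_eq_mul,
      RingHom.id_apply]

theorem imf_apply (n : ℕ) (p : ℂ[X]) (i : Fin n) : imf n p i = (p.coeff i).im := rfl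
theorem imc_apply (r : ℕ) (p : ℂ[X]) : imc r p = (p.coeff r).im := rfl

variable {k : ℕ} (D q q1 q2 : ℕ) (l : Fin (k + 1) → ℂ[X]) (c c' : Fin (k + 1) × Bool)
  (a b : Fin (k + 1)) (r : ℕ)

/-- unknowns and parameters -/
abbrev EI (k D q q1 q2 : ℕ) : Type := (Fin (2 * D + q + 1) → ℝ) ×
  (Fin (k + 1) → Fin (q1 + 1) → ℂ) × (Fin (k + 1) → Fin (q2 + 1) → ℂ)

/-- the quadratic part -/
noncomputable def BI : EI k D q q1 q2 →ₗ[ℝ] EI k D q q1 q2 →ₗ[ℝ]
    ((Fin (2 * D + q + 1) → ℝ) × (Fin 3 → ℝ) × ℝ) :=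
  LinearMap.mk₂ ℝ (fun z w =>
    (-imf (2 * D + q + 1) (cj (dt l (lp z.2.1)) * dt l (lp w.2.2)), 0,
      imc r (lp z.2.1 a * lp w.2.2 b - lp z.2.1 b * lp w.2.2 a)))
    (fun z z' w => by
      have h : lp (z + z').2.1 a * lp w.2.2 b - lp (z + z').2.1 b * lp w.2.2 a =
          (lp z.2.1 a * lp w.2.2 b - lp z.2.1 b * lp w.2.2 a) +
            (lp z'.2.1 a * lp w.2.2 b - lp z'.2.1 b * lp w.2.2 a) := by
        simp only [Prod.snd_add, Prod.fst_add, lp_add, Pi.add_apply]
        ring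
      rw [h]
      simp only [Prod.snd_add, Prod.fst_add, lp_add, dt_add_right, map_add, add_mul, neg_add,
        Prod.mk_add_mk, add_zero])
    (fun x z w => by
      simp only [Prod.smul_snd, Prod.smul_fst, lp_smul, dt_smul_right, cj_smul, smul_mul_assoc,
        map_smul, Pi.smul_apply, ← smul_sub, ← smul_neg, Prod.smul_mk, smul_zero])
    (fun z w w' => by
      have h : lp z.2.1 a * lp (w + w').2.2 b - lp z.2.1 b * lp (w + w').2.2 a =
          (lp z.2.1 a * lp w.2.2 b - lp z.2.1 b * lp w.2.2 a) +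
            (lp z.2.1 a * lp w'.2.2 b - lp z.2.1 b * lp w'.2.2 a) := by
        simp only [Prod.snd_add, lp_add, Pi.add_apply]
        ring
      rw [h]
      simp only [Prod.snd_add, lp_add, dt_add_right, map_add, mul_add, neg_add,
        Prod.mk_add_mk, add_zero])
    (fun x z w => by
      simp only [Prod.smul_snd, lp_smul, dt_smul_right, mul_smul_comm,
        map_smul, Pi.smul_apply, ← smul_sub, ← smul_neg, Prod.smul_mk, smul_zero])

theorem BI_apply (z w : EI k D q q1 q2) : BI D q q1 q2 l a b r z w =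
    (-imf (2 * D + q + 1) (cj (dt l (lp z.2.1)) * dt l (lp w.2.2)), 0,
      imc r (lp z.2.1 a * lp w.2.2 b - lp z.2.1 b * lp w.2.2 a)) := rfl

/-- the linear part -/
noncomputable def LI : EI k D q q1 q2 →ₗ[ℝ]
    ((Fin (2 * D + q + 1) → ℝ) × (Fin 3 → ℝ) × ℝ) where
  toFun z := (z.1, (fun i => LML q1 q2 c c' (lp z.2.1, lp z.2.2) i.castSucc), 0)
  map_add' z z' := by
    have h : (lp (z + z').2.1, lp (z + z').2.2) = (lp z.2.1, lp z.2.2) +
        (lp z'.2.1, lp z'.2.2) := by
      simp only [Prod.fst_add, Prod.snd_add, lp_add, Prod.mk_add_mk]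
    rw [h, map_add]
    simp only [Prod.fst_add, Prod.mk_add_mk, add_zero]
    rfl
  map_smul' x z := by
    have h : (lp (x • z).2.1, lp (x • z).2.2) = x • (lp z.2.1, lp z.2.2) := by
      simp only [Prod.smul_fst, Prod.smul_snd, lp_smul, Prod.smul_mk]
    rw [h, map_smul]
    simp only [Prod.smul_fst, Prod.smul_mk, RingHom.id_apply, smul_zero]
    rfl

theorem LI_apply (z : EI k D q q1 q2) : LI D q q1 q2 c c' z =
    (z.1, (fun i => LM q1 q2 c c' (lp z.2.1) (lp z.2.2) i.castSucc), 0) := rfl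

end Sys

theorem dimH_BadI {k D q q1 q2 : ℕ} (hq : q1 ≤ q2) (hqq : q1 + q2 = q)
    (hn : q * (2 * k + 1) + 4 * k ≤ 2 * D) {l : Fin (k + 1) → ℂ[X]} (hl : Dg D l)
    (c c' : Fin (k + 1) × Bool) (a b : Fin (k + 1)) (r : ℕ) :
    dimH (BadI k D q q1 q2 l c c' a b r) < finrank ℝ (Fin (2 * D + q + 1) → ℝ) := by
  have hY : 0 < finrank ℝ (Fin (2 * D + q + 1) → ℝ) := by
    rw [Module.finrank_fin_fun]
    omega
  have hX : finrank ℝ ((Fin (k + 1) → Fin (q1 + 1) → ℂ) × (Fin (k + 1) → Fin (q2 + 1) → ℂ)) <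
      finrank ℝ ((Fin (2 * D + q + 1) → ℝ) × (Fin 3 → ℝ) × ℝ) := by
    simp only [Module.finrank_prod, Module.finrank_pi_fintype, Complex.finrank_real_complex,
      Module.finrank_self, Finset.sum_const, Finset.card_univ, Fintype.card_fin, smul_eq_mul]
    subst hqq
    nlinarith
  refine lt_of_le_of_lt (dimH_mono ?_) (man (BI D q q1 q2 l a b r) (LI D q q1 q2 c c')
    (0, -![1, 0, 0], 0) hY hX)
  rintro p ⟨U, V, hU, hV, ⟨κ, hκ, hLM⟩, hz, hz0, hf⟩
  obtain ⟨u, rfl⟩ := exists_lp hU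
  obtain ⟨v, rfl⟩ := exists_lp hV
  set A := dt l (lp u) with hA
  set B := dt l (lp v) with hB
  have hp : p = imf (2 * D + q + 1) (cj A * B) := by
    funext n
    rw [imf_apply]
    have h1 := congrArg (fun P => P.coeff (n : ℕ)) hf
    have h2 : A * cj B = cj (cj A * B) := by rw [map_mul, cj_cj]
    have h3 : (rp p).coeff (n : ℕ) = p n := by
      rw [← rf_apply (n := 2 * D + q + 1), rf_rp]
    rw [h2, coeff_sub, cj_coeff, coeff_C_mul, cc_coeff, h3] at h1
    have h4 := congrArg Complex.im h1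
    simp at h4
    linarith
  refine ⟨(u, v), ?_, ?_⟩
  · rw [BI_apply, LI_apply]
    simp only [← hA, ← hB, imc_apply, hz, hLM]
    refine Prod.ext ?_ (Prod.ext ?_ ?_)
    · show -imf (2 * D + q + 1) (cj A * B) + p + 0 = 0
      rw [hp]
      simp
    · show (0 : Fin 3 → ℝ) + (fun i => ![(1 : ℝ), 0, 0, κ] i.castSucc) + -![1, 0, 0] = 0
      funext i
      fin_cases i <;> simp
    · show (0 : ℝ) + 0 + 0 = 0
      simp
  · rintro ⟨w, ν, μ⟩
    set z := (lp u a * lp v b - lp u b * lp v a).coeff r with hzd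
    have hre : z.re ≠ 0 := by
      intro h
      exact hz0 (Complex.ext h hz)
    set t : ℝ := μ / (2 * z.re) with ht
    set U1 : Fin (k + 1) → ℂ[X] := fun i => C (Complex.I * t) * lp u i with hU1
    set V1 : Fin (k + 1) → ℂ[X] := fun i => C (Complex.I * t) * lp v i with hV1
    have hU1d : Dg q1 U1 := fun i => (natDegree_C_mul_le _ _).trans (hU i)
    have hV1d : Dg q2 V1 := fun i => (natDegree_C_mul_le _ _).trans (hV i)
    obtain ⟨x, z', e, w', hz'0, hw', hgau⟩ := gauge_core (c := c) (c' := c') hq hU hκ hLM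
      ![ν 0 - LM q1 q2 c c' U1 V1 0, ν 1 - LM q1 q2 c c' U1 V1 1, ν 2 - LM q1 q2 c c' U1 V1 2]
    have hgau2 := hgau (-x)
    set U2 := aU x z' (lp u) (lp v) with hU2
    set V2 := aV w' (-x) (lp u) (lp v) with hV2
    have hU2d : Dg q1 U2 := by
      rcases hq.lt_or_eq with h | h
      · rw [hU2, hz'0 h]
        exact dg_aU_zero hU x
      · subst h
        exact dg_aU hU hV x z'
    have hV2d : Dg q2 V2 := dg_aV hU hV hq hw' (-x)
    obtain ⟨du, hdu⟩ := exists_lp (hU1d.add hU2d)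
    obtain ⟨dv, hdv⟩ := exists_lp (hV1d.add hV2d)
    refine ⟨(w + imf (2 * D + q + 1) (cj A * dt l (V1 + V2)) +
      imf (2 * D + q + 1) (cj (dt l (U1 + U2)) * B), du, dv), ?_⟩
    rw [BI_apply, BI_apply, LI_apply]
    simp only [hdu, hdv, ← hA, ← hB]
    refine Prod.ext ?_ (Prod.ext ?_ ?_)
    · show -imf (2 * D + q + 1) (cj A * dt l (V1 + V2)) +
        -imf (2 * D + q + 1) (cj (dt l (U1 + U2)) * B) +
        (w + imf (2 * D + q + 1) (cj A * dt l (V1 + V2)) +
          imf (2 * D + q + 1) (cj (dt l (U1 + U2)) * B)) = w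
      abel
    · have h3 : LM q1 q2 c c' (U1 + U2) (V1 + V2) = LM q1 q2 c c' U1 V1 + LM q1 q2 c c' U2 V2 :=
        map_add (LML q1 q2 c c') (U1, V1) (U2, V2)
      show (0 : Fin 3 → ℝ) + 0 + (fun i => LM q1 q2 c c' (U1 + U2) (V1 + V2) i.castSucc) = ν
      rw [h3, hgau2]
      funext i
      fin_cases i
      · simp
      · simp
      · simp
    · show imc r (lp u a * (V1 + V2) b - lp u b * (V1 + V2) a) +
        imc r ((U1 + U2) a * lp v b - (U1 + U2) b * lp v a) + 0 = μ
      rw [add_zero, ← map_add]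
      have h4 : (lp u a * (V1 + V2) b - lp u b * (V1 + V2) a) +
          ((U1 + U2) a * lp v b - (U1 + U2) b * lp v a) =
          C (2 * (Complex.I * t)) * (lp u a * lp v b - lp u b * lp v a) := by
        simp only [Pi.add_apply, hU1, hV1, hU2, hV2, aU, aV, Complex.ofReal_neg, C_neg, C_mul]
        rw [show (C (2 : ℂ) : ℂ[X]) = 2 from rfl]
        ring
      rw [h4, imc_apply, coeff_C_mul, ← hzd]
      have h5 : (2 * (Complex.I * (t : ℂ)) * z).im = 2 * t * z.re := by
        simp [hz]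
      rw [h5, ht]
      field_simp

end Pool.Agent.H53.DP
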